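import Pool.Agent.Lib.H47Q.HMisc

/-!
# Chunk BBLK: the bottom blocks and an antichain above them

`κ` is an uncountable cardinal, `blk κ.ord (κ.ord * σ)` the block with number `σ`. `Un T κ A σ` is the
set of the elements of this block which have no predecessor in `A`, `Fr T κ A σ` the set of the elements of the
block incomparable with all elements of `A`. `Good T κ A σ`: `Un T κ A σ` has cardinality `≥ κ`.

* `mk_blk`: the block has cardinality `κ` (translate of `Iio κ.ord`; `Cardinal.mk_Iio_ordinal`).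
* `good_or_good`: let `A`, `A'` be disjoint subsets of an antichain `R`. Then `Good T κ A σ` or
  `Good T κ A' σ`. The block is the union of `Un T κ A σ` and `Un T κ A' σ`: otherwise `x` has
  predecessors `a ∈ A`, `a' ∈ A'`; by `T.lin` they are equal (`A`, `A'` disjoint: no) or comparable (`R` is an antichain: no). If both
  sets had cardinality `< κ`, the block would have cardinality `< κ` (`Cardinal.add_lt_of_lt`).
* `mk_fr`: if `Good T κ A σ` and `A` has cardinality `< κ` then `Fr T κ A σ` has cardinality `≥ κ`: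
  `Un T κ A σ ⊆ Fr T κ A σ ∪ ⋃ a ∈ A, {x | T.lt x a}` and the last set has cardinality `≤ max #A ℵ₀ < κ`.
* `exists_good`: let `U m` (`m : ℕ`) be sets of ordinals such that `σ ∈ U m ∨ σ ∈ U n` for all `σ < δ` and
  `m ≠ n`. Then `Has δ (U m ∩ Iio δ)` for some `m`. Show by `cnf_induction`, for all `x`: if `σ ∈ U m ∨ σ ∈ U n` for
  all `σ ∈ blk δ x`, `m ≠ n`, then the set of all `m` with `¬ Has δ (U m ∩ blk δ x)` is finite. For `δ = ω ^ b + δ'` this set is
  contained in the union of the set for `(δ', x + ω ^ b)` and the set for `(ω ^ b, x)` (`has_add`), and the latter has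
  at most one element by `has_opow_union` (with `has_all`).
-/

set_option autoImplicit false

open Set Ordinal Cardinal

namespace Pool.Agent.H47Q

variable (T : RF Ordinal.{0}) (κ : Cardinal.{0}) (A : Set Ordinal.{0}) (σ : Ordinal.{0})

/-- the elements of the block with no predecessor in `A` -/
def Un : Set Ordinal.{0} := {x | x ∈ blk κ.ord (κ.ord * σ) ∧ ∀ a ∈ A, ¬ T.lt a x}

/-- the elements of the block which are incomparable with the elements of `A` -/
def Fr : Set Ordinal.{0} :=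
  {x | x ∈ blk κ.ord (κ.ord * σ) ∧ ∀ a ∈ A, ¬ T.lt a x ∧ ¬ T.lt x a}

/-- many elements of the block have no predecessor in `A` -/
def Good : Prop := Cardinal.lift.{1} κ ≤ #(Un T κ A σ)

variable {T κ A σ}

theorem mk_blk (x : Ordinal.{0}) : #(blk κ.ord x) = Cardinal.lift.{1} κ := by
  have h1 : #(Iio κ.ord) = Cardinal.lift.{1} κ := by
    rw [Cardinal.mk_Iio_ordinal, card_ord]
  rw [← h1]
  refine (Cardinal.mk_congr (Equiv.ofBijective
    (fun a : Iio κ.ord => (⟨x + a.1, le_self_add, by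
      have := a.2
      exact (add_lt_add_iff_left x).2 this⟩ : blk κ.ord x)) ⟨?_, ?_⟩)).symm
  · rintro ⟨a, ha⟩ ⟨b, hb⟩ hab
    have h2 : x + a = x + b := congrArg Subtype.val hab
    exact Subtype.ext (add_left_cancel h2)
  · rintro ⟨y, hy1, hy2⟩
    have h2 : x + (y - x) = y := Ordinal.add_sub_cancel_of_le hy1
    refine ⟨⟨y - x, ?_⟩, Subtype.ext h2⟩
    rw [mem_Iio, ← add_lt_add_iff_left x, h2]
    exact hy2

theorem good_or_good (hκ : ℵ₀ < κ) {R A' : Set Ordinal.{0}} (hR : T.Anti R) (hA : A ⊆ R)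
    (hA' : A' ⊆ R) (hd : Disjoint A A') (σ : Ordinal.{0}) : Good T κ A σ ∨ Good T κ A' σ := by
  by_contra hn
  rw [not_or] at hn
  obtain ⟨h1, h2⟩ := hn
  unfold Good at h1 h2
  rw [not_le] at h1 h2
  have hκ' : ℵ₀ ≤ Cardinal.lift.{1} κ := by
    exact aleph0_le_lift.2 hκ.le
  have hsub : blk κ.ord (κ.ord * σ) ⊆ Un T κ A σ ∪ Un T κ A' σ := by
    intro x hx
    by_cases h3 : ∀ a ∈ A, ¬ T.lt a x
    · exact Or.inl ⟨hx, h3⟩
    · by_cases h4 : ∀ a ∈ A', ¬ T.lt a x
      · exact Or.inr ⟨hx, h4⟩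
      · push Not at h3 h4
        obtain ⟨a, ha, hax⟩ := h3
        obtain ⟨b, hb, hbx⟩ := h4
        rcases T.lin a b x hax hbx with h | h | h
        · subst h
          exact absurd hb (Set.disjoint_left.1 hd ha)
        · exact absurd h (hR a (hA ha) b (hA' hb))
        · exact absurd h (hR b (hA' hb) a (hA ha))
  have h3 : #(blk κ.ord (κ.ord * σ)) < Cardinal.lift.{1} κ :=
    ((mk_le_mk_of_subset hsub).trans (mk_union_le _ _)).trans_lt (add_lt_of_lt hκ' h1 h2)
  rw [mk_blk] at h3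
  exact lt_irrefl _ h3

theorem mk_fr (hκ : ℵ₀ < κ) (hA : #A < Cardinal.lift.{1} κ) (h : Good T κ A σ) :
    Cardinal.lift.{1} κ ≤ #(Fr T κ A σ) := by
  by_contra hn
  rw [not_le] at hn
  have hκ' : ℵ₀ < Cardinal.lift.{1} κ := by
    exact aleph0_lt_lift.2 hκ
  have hsub : Un T κ A σ ⊆ Fr T κ A σ ∪ ⋃ a : A, {x | T.lt x a.1} := by
    rintro x ⟨hx1, hx2⟩
    by_cases h3 : ∀ a ∈ A, ¬ T.lt x a
    · exact Or.inl ⟨hx1, fun a ha => ⟨hx2 a ha, h3 a ha⟩⟩
    · push Not at h3
      obtain ⟨a, ha, hax⟩ := h3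
      exact Or.inr (mem_iUnion.2 ⟨⟨a, ha⟩, hax⟩)
  have h4 : #(⋃ a : A, {x | T.lt x a.1}) < Cardinal.lift.{1} κ := by
    refine (mk_iUnion_le _).trans_lt (mul_lt_of_lt hκ'.le hA ?_)
    refine lt_of_le_of_lt (ciSup_le' fun a => ?_) hκ'
    exact (T.fin a.1).countable.le_aleph0
  have h5 : #(Un T κ A σ) < Cardinal.lift.{1} κ :=
    ((mk_le_mk_of_subset hsub).trans (mk_union_le _ _)).trans_lt (add_lt_of_lt hκ'.le hn h4)
  exact absurd h (not_le.2 h5)

theorem bblk_fin (U : ℕ → Set Ordinal.{0}) (δ : Ordinal.{0}) : ∀ x : Ordinal.{0},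
    (∀ m n, m ≠ n → ∀ σ ∈ blk δ x, σ ∈ U m ∨ σ ∈ U n) →
      {m | ¬ Has δ (U m ∩ blk δ x)}.Finite := by
  revert δ
  refine cnf_induction ?_ ?_
  · intro x _
    refine Set.Finite.subset Set.finite_empty ?_
    intro m hm
    exact hm (has_zero _)
  · intro b δ' _ ih x hU
    have h1 := ih (x + ω ^ b) (fun m n hmn σ hσ => hU m n hmn σ ?_)
    · have h2 : {m | ¬ Has (ω ^ b) (U m ∩ blk (ω ^ b) x)}.Finite := by
        refine Set.Subsingleton.finite ?_
        intro m hm n hn
        by_contra hmn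
        have h3 : Has (ω ^ b) ((U m ∩ blk (ω ^ b) x) ∪ (U n ∩ blk (ω ^ b) x)) := by
          refine (has_all (ω ^ b) x).mono ?_ le_rfl
          intro σ hσ
          have hσ' : σ ∈ blk (ω ^ b + δ') x := by
            refine ⟨hσ.1, hσ.2.trans_le ?_⟩
            rw [← add_assoc]
            exact le_self_add
          rcases hU m n hmn σ hσ' with h | h
          · exact Or.inl ⟨h, hσ⟩
          · exact Or.inr ⟨h, hσ⟩
        rcases has_opow_union b _ _ h3 with h | h
        · exact hm h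
        · exact hn h
      refine (h1.union h2).subset ?_
      intro m hm
      by_contra hn
      rw [mem_union, not_or] at hn
      obtain ⟨h3, h4⟩ := hn
      rw [mem_ofPred_eq, not_not] at h3 h4
      refine hm ((has_add h4 h3 ?_).mono ?_ le_rfl)
      · rintro y ⟨_, hy⟩ z ⟨_, hz⟩
        exact hy.2.trans_le hz.1
      · rintro y (⟨hy1, hy2⟩ | ⟨hy1, hy2⟩)
        · refine ⟨hy1, hy2.1, hy2.2.trans_le ?_⟩
          rw [← add_assoc]
          exact le_self_add
        · refine ⟨hy1, le_self_add.trans hy2.1, ?_⟩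
          rw [← add_assoc]
          exact hy2.2
    · refine ⟨le_self_add.trans hσ.1, ?_⟩
      rw [← add_assoc]
      exact hσ.2

theorem exists_good {δ : Ordinal.{0}} (U : ℕ → Set Ordinal.{0})
    (h : ∀ m n, m ≠ n → ∀ σ < δ, σ ∈ U m ∨ σ ∈ U n) : ∃ m, Has δ (U m ∩ Iio δ) := by
  have h0 : blk δ 0 = Iio δ := by
    ext x
    rw [mem_blk, zero_add, mem_Iio]
    exact ⟨fun h => h.2, fun h => ⟨zero_le, h⟩⟩
  have h1 := bblk_fin U δ 0 (fun m n hmn σ hσ => h m n hmn σ (by rw [h0] at hσ; exact hσ))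
  obtain ⟨m, hm⟩ := h1.exists_notMem
  refine ⟨m, ?_⟩
  rw [mem_ofPred_eq, not_not, h0] at hm
  exact hm

end Pool.Agent.H47Q
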