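import Pool.Agent.Lib.H47Q.Base

/-!
# Chunk BDEAD: a set of indices is countable

**`countable_dead`.** Let `κ` be an uncountable cardinal, `U` a set with `#U ≥ κ`, `D` a set of indices and for `z ∈ D` let
`N z` be a set with `#(N z) < κ`, such that each `x ∈ U` is in `N z` for all but finitely many `z ∈ D`. Then `D` is countable.
Proof. Suppose not. (1) For `ν < κ` there is no infinite `D' ⊆ D` with `#(N z) ≤ ν` for `z ∈ D'`: otherwise take `D'` countably infinite;
`U ⊆ ⋃ z ∈ D', N z` since each `x ∈ U` is outside of finitely many `N z` only, and the union has cardinality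
`≤ ℵ₀ * ν < κ`. (2) Take a countably infinite `E ⊆ D`. For each `z' ∈ D` there is `e ∈ E` with `#(N z') ≤ #(N e)`: otherwise
`#(N e) ≤ #(N z') < κ` for all `e ∈ E`, contradicting (1). So `D = ⋃ e ∈ E, {z' ∈ D : #(N z') ≤ #(N e)}`; one of these
sets is uncountable, hence infinite, contradicting (1).
-/


set_option autoImplicit false

open Set Ordinal Cardinal

namespace Pool.Agent.H47Q

universe u v

theorem no_bounded {X : Type u} {J : Type v} {κ : Cardinal.{u}} (hκ : ℵ₀ < κ) {U : Set X}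
    (hU : κ ≤ #U) {D : Set J} {N : J → Set X}
    (hfin : ∀ x ∈ U, {z | z ∈ D ∧ x ∉ N z}.Finite) {D' : Set J} (hD' : D' ⊆ D)
    (hinf : D'.Infinite) {ν : Cardinal.{u}} (hν : ν < κ) (hb : ∀ z ∈ D', #(N z) ≤ ν) : False := by
  let g : ℕ ↪ D' := hinf.natEmbedding
  have hg : Function.Injective (fun n : ℕ => (g n).1) := fun a b h => g.injective (Subtype.ext h)
  have hsub : U ⊆ ⋃ n : ℕ, N (g n).1 := by
    intro x hx
    by_contra hcon
    rw [mem_iUnion, not_exists] at hcon
    exact (Set.infinite_of_injective_forall_mem hg (fun n =>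
      (⟨hD' (g n).2, hcon n⟩ : (g n).1 ∈ {z | z ∈ D ∧ x ∉ N z}))) (hfin x hx)
  have h1 : #U ≤ ℵ₀ * ν := by
    refine (Cardinal.mk_le_mk_of_subset hsub).trans ?_
    refine (Cardinal.mk_iUnion_le_sum_mk (f := fun n : ULift.{u} ℕ => N (g n.down).1)
      |> (fun h => (Cardinal.mk_le_mk_of_subset ?_).trans h)).trans ?_
    · intro x hx
      obtain ⟨n, hn⟩ := mem_iUnion.1 hx
      exact mem_iUnion.2 ⟨⟨n⟩, hn⟩
    · refine (Cardinal.sum_le_mk_mul_iSup _).trans ?_
      have h2 : #(ULift.{u} ℕ) = ℵ₀ := by simp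
      rw [h2]
      refine mul_le_mul_right ?_ _
      exact ciSup_le' fun n => hb _ (g n.down).2
  refine absurd (hU.trans h1) (not_le.2 ?_)
  exact Cardinal.mul_lt_of_lt hκ.le hκ hν

theorem countable_dead {X : Type u} {J : Type v} {κ : Cardinal.{u}} (hκ : ℵ₀ < κ) (U : Set X)
    (hU : κ ≤ #U) (D : Set J) (N : J → Set X) (hN : ∀ z ∈ D, #(N z) < κ)
    (hfin : ∀ x ∈ U, {z | z ∈ D ∧ x ∉ N z}.Finite) : D.Countable := by
  by_contra hD
  have hinf : D.Infinite := fun h => hD h.countable
  let g : ℕ ↪ D := hinf.natEmbedding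
  have hg : Function.Injective (fun n : ℕ => (g n).1) := fun a b h => g.injective (Subtype.ext h)
  have hcov : D ⊆ ⋃ n : ℕ, {z | z ∈ D ∧ #(N z) ≤ #(N (g n).1)} := by
    intro z hz
    by_contra hcon
    rw [mem_iUnion, not_exists] at hcon
    refine no_bounded hκ hU hfin (D' := range fun n : ℕ => (g n).1) ?_
      (Set.infinite_range_of_injective hg) (hN z hz) ?_
    · rintro _ ⟨n, rfl⟩
      exact (g n).2
    · rintro _ ⟨n, rfl⟩
      by_contra h
      exact hcon n ⟨hz, (not_le.1 h).le⟩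
  refine hD ((Set.countable_iUnion fun n => ?_).mono hcov)
  refine Set.Finite.countable ?_
  by_contra hn
  exact no_bounded hκ hU hfin (fun z hz => hz.1) hn (hN _ (g n).2) (fun z hz => hz.2)

end Pool.Agent.H47Q
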