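import Pool.Agent.Lib.H47Q.BDead

/-!
# Chunk BPROC: the greedy process

**`exists_process`.** Let `κ` be an uncountable cardinal, `T` a forest order on `X`, `#S ≤ κ`, `U σ` (`σ : S`) subsets of `X`
of cardinality `≥ κ`, `#W = κ`. There are antichains `A z` (`z : W`) contained in `⋃ σ, U σ`, such that for each `σ`
the set of all `z` with `#(A z ∩ U σ) < κ` is countable.
Proof. If `S` is empty take `A z = ∅`. Let `I = κ.ord.ToType` (initial segments have cardinality `< κ`, `Cardinal.mk_Iio_ord_toType` or similar), and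
`task : I → W × S` a function all of whose fibres have cardinality `κ` (`I ≃ (W × S) × I`, by cardinality). By well-founded
recursion choose `pk : I → Option X`: `pk ξ = some x` for a chosen `x` with `x ∈ U (task ξ).2`, `pk η ≠ some x` for all `η < ξ`, and for all `η < ξ`, `y` with
`(task η).1 = (task ξ).1`, `pk η = some y`: `¬ T.lt y x` and `¬ T.lt x y`, if there is such an `x`; otherwise `pk ξ = none`.
`A z = {x | ∃ ξ, (task ξ).1 = z ∧ pk ξ = some x}` is an antichain; the `A z` are pairwise disjoint and `pk` is injective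
where it is not `none`. Fix `σ` and let `D = {z | #(A z ∩ U σ) < κ}`. Let `z ∈ D`. The picks at the stages `ξ` with
`task ξ = (z, σ)` are distinct elements of `A z ∩ U σ` and there are `κ` such stages; so `pk ξ = none` for one of them. Let
`N z = {x ∈ U σ | ∀ y ∈ A z, ¬ T.lt y x}`. Each `x ∈ N z` is `pk η` for some `η < ξ`, or is a predecessor of a `y = pk η`,
`η < ξ`, by the failure at stage `ξ`; so `#(N z) ≤ max #(Iio ξ) ℵ₀ < κ`. Each `x ∈ U σ` has finitely many predecessors and
each of them is in at most one `A z`; so `x ∈ N z` for all but finitely many `z`. Apply `countable_dead`.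
-/


set_option autoImplicit false

open Set Ordinal Cardinal

namespace Pool.Agent.H47Q

universe u v

/-- one stage of the greedy process -/
noncomputable def bprocStep {X S W I : Type u} [LT I] (T : RF X) (U : S → Set X)
    (task : I → W × S) (ξ : I) (f : ∀ η, η < ξ → Option X) : Option X :=
  open Classical in
  if h : ∃ x, x ∈ U (task ξ).2 ∧ (∀ η (hη : η < ξ), f η hη ≠ some x) ∧
      ∀ η (hη : η < ξ) y, (task η).1 = (task ξ).1 → f η hη = some y →
        ¬ T.lt y x ∧ ¬ T.lt x y then some h.choose else none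

theorem bproc_exists {X S W I : Type u} [LinearOrder I] [WellFoundedLT I] (T : RF X)
    (U : S → Set X) (task : I → W × S) : ∃ pk : I → Option X,
    (∀ ξ x, pk ξ = some x → x ∈ U (task ξ).2 ∧ (∀ η < ξ, pk η ≠ some x) ∧
      ∀ η < ξ, ∀ y, (task η).1 = (task ξ).1 → pk η = some y → ¬ T.lt y x ∧ ¬ T.lt x y) ∧
    ∀ ξ, pk ξ = none → ∀ x ∈ U (task ξ).2, (∃ η < ξ, pk η = some x) ∨
      ∃ η < ξ, ∃ y, (task η).1 = (task ξ).1 ∧ pk η = some y ∧ (T.lt y x ∨ T.lt x y) := by
  classical
  let pk : I → Option X := (wellFounded_lt (α := I)).fix (bprocStep T U task)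
  have hpk : ∀ ξ, pk ξ = bprocStep T U task ξ (fun η _ => pk η) := fun ξ =>
    (wellFounded_lt (α := I)).fix_eq _ ξ
  refine ⟨pk, ?_, ?_⟩
  · intro ξ x hx
    rw [hpk, bprocStep] at hx
    split_ifs at hx with h
    · obtain rfl := Option.some.inj hx
      exact h.choose_spec
  · intro ξ hx x hxU
    rw [hpk, bprocStep] at hx
    split_ifs at hx with h
    by_contra hc
    push Not at hc
    exact h ⟨x, hxU, fun η hη => hc.1 η hη, fun η hη y h1 h2 => hc.2 η hη y h1 h2⟩

theorem exists_process {X S W : Type u} {κ : Cardinal.{u}} (hκ : ℵ₀ < κ) (T : RF X)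
    (hS : #S ≤ κ) (hW : #W = κ) (U : S → Set X) (hU : ∀ σ, κ ≤ #(U σ)) :
    ∃ A : W → Set X, (∀ z, T.Anti (A z)) ∧ (∀ z, ∀ x ∈ A z, ∃ σ, x ∈ U σ) ∧
      ∀ σ, {z | #(A z ∩ U σ : Set X) < κ}.Countable := by
  classical
  rcases isEmpty_or_nonempty S with hSe | hSne
  · exact ⟨fun _ => ∅, fun z x hx => absurd hx (by simp), fun z x hx => absurd hx (by simp),
      fun σ => isEmptyElim σ⟩
  have hI : #(κ.ord.ToType) = κ := mk_ord_toType κ
  have hIio : ∀ ξ : κ.ord.ToType, #(Iio ξ) < κ := fun ξ => by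
    simpa using mk_Iio_lt ξ (by simp)
  have hWS : #(W × S) = κ := by
    rw [mk_prod, Cardinal.lift_id, Cardinal.lift_id, hW]
    exact mul_eq_left hκ.le hS (mk_ne_zero S)
  have hprod : #(κ.ord.ToType) = #((W × S) × κ.ord.ToType) := by
    rw [mk_prod, Cardinal.lift_id, Cardinal.lift_id, hWS, hI, mul_eq_self hκ.le]
  obtain ⟨e⟩ := Cardinal.eq.1 hprod
  obtain ⟨pk, hp1, hp2⟩ := bproc_exists T U (fun ξ => (e ξ).1)
  have hinj : ∀ ξ η x, pk ξ = some x → pk η = some x → ξ = η := by
    intro ξ η x h1 h2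
    rcases lt_trichotomy ξ η with h | h | h
    · exact absurd h1 ((hp1 η x h2).2.1 ξ h)
    · exact h
    · exact absurd h2 ((hp1 ξ x h1).2.1 η h)
  refine ⟨fun z => {x | ∃ ξ, (e ξ).1.1 = z ∧ pk ξ = some x}, ?_, ?_, ?_⟩
  · rintro z x ⟨ξ, hξ, hx⟩ y ⟨η, hη, hy⟩ hxy
    rcases lt_trichotomy ξ η with h | h | h
    · exact ((hp1 η y hy).2.2 ξ h x (hξ.trans hη.symm) hx).1 hxy
    · subst h
      rw [hx] at hy
      obtain rfl := Option.some.inj hy
      exact T.irr _ hxy
    · exact ((hp1 ξ x hx).2.2 η h y (hη.trans hξ.symm) hy).2 hxy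
  · rintro z x ⟨ξ, hξ, hx⟩
    exact ⟨_, (hp1 ξ x hx).1⟩
  · intro σ
    refine countable_dead hκ (U σ) (hU σ) _
      (fun z => {x | x ∈ U σ ∧ ∀ y, (∃ ξ, (e ξ).1.1 = z ∧ pk ξ = some y) → ¬ T.lt y x}) ?_ ?_
    · intro z hz
      obtain ⟨ξ, hξ, hnone⟩ : ∃ ξ, (e ξ).1 = (z, σ) ∧ pk ξ = none := by
        by_contra hcon
        push Not at hcon
        have hsome : ∀ j, ∃ x, pk (e.symm ((z, σ), j)) = some x := by
          intro j
          have := hcon (e.symm ((z, σ), j)) (by simp)
          exact Option.ne_none_iff_exists'.1 this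
        choose g hg using hsome
        have hmem : ∀ j, g j ∈ ({x | ∃ ξ, (e ξ).1.1 = z ∧ pk ξ = some x} ∩ U σ : Set X) := by
          intro j
          refine ⟨⟨e.symm ((z, σ), j), by simp, hg j⟩, ?_⟩
          have := (hp1 _ _ (hg j)).1
          simpa using this
        have hle : #(κ.ord.ToType) ≤
            #({x | ∃ ξ, (e ξ).1.1 = z ∧ pk ξ = some x} ∩ U σ : Set X) := by
          refine mk_le_of_injective (f := fun j => ⟨g j, hmem j⟩) ?_
          intro j k hjk
          have h1 : g j = g k := congrArg Subtype.val hjk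
          have h2 := hinj _ _ _ (hg j) (h1 ▸ hg k)
          have h3 := e.symm.injective h2
          exact (Prod.mk.injEq _ _ _ _ ▸ h3).2
        rw [hI] at hle
        exact absurd hz (not_lt.2 hle)
      have hsub : {x | x ∈ U σ ∧ ∀ y, (∃ ξ, (e ξ).1.1 = z ∧ pk ξ = some y) → ¬ T.lt y x} ⊆
          ⋃ η : Iio ξ, {x | pk η = some x ∨ ∃ y, pk η = some y ∧ T.lt x y} := by
        rintro x ⟨hxU, hx⟩
        have hxU' : x ∈ U (e ξ).1.2 := by rw [hξ]; exact hxU
        rcases hp2 ξ hnone x hxU' with ⟨η, hη, h1⟩ | ⟨η, hη, y, h1, h2, h3⟩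
        · exact mem_iUnion.2 ⟨⟨η, hη⟩, Or.inl h1⟩
        · rcases h3 with h3 | h3
          · refine absurd h3 (hx y ⟨η, ?_, h2⟩)
            have : (e η).1.1 = (e ξ).1.1 := h1
            rw [this, hξ]
          · exact mem_iUnion.2 ⟨⟨η, hη⟩, Or.inr ⟨y, h2, h3⟩⟩
      refine (mk_le_mk_of_subset hsub).trans_lt ((mk_iUnion_le _).trans_lt ?_)
      refine mul_lt_of_lt hκ.le (hIio ξ) (lt_of_le_of_lt (ciSup_le' ?_) hκ)
      intro η
      refine Set.Countable.le_aleph0 (Set.Finite.countable ?_)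
      rcases hη : pk η with _ | y
      · simp
      · refine (((T.fin y).insert y)).subset ?_
        rintro x (hx | ⟨y', hy', hx⟩)
        · left
          exact (Option.some.inj hx).symm
        · right
          obtain rfl := Option.some.inj hy'
          exact hx
    · intro x hx
      have hfin : (⋃ y ∈ {y | T.lt y x}, {z | ∃ ξ, (e ξ).1.1 = z ∧ pk ξ = some y}).Finite := by
        refine (T.fin x).biUnion fun y _ => Set.Subsingleton.finite ?_
        rintro z ⟨ξ, h1, h2⟩ z' ⟨ξ', h1', h2'⟩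
        rw [← h1, ← h1', hinj _ _ _ h2 h2']
      refine hfin.subset ?_
      rintro z ⟨hz, hz'⟩
      simp only [mem_ofPred_eq, not_and, not_forall, not_not] at hz'
      obtain ⟨y, hy, hyx⟩ := hz' hx
      exact mem_biUnion (show y ∈ {y | T.lt y x} from hyx) hy

end Pool.Agent.H47Q
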