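import Pool.Agent.Lib.H47Q.NAf
import Pool.Agent.Lib.H47Q.BBlk
import Pool.Agent.Lib.H47Q.BProc

/-!
# Chunk BSTEP: (PT) for the ordinals of cardinality greater than `|K|`

Let `Free K`, `#K < κ`, `κ` uncountable, `α = κ.ord * δ + ρ`, `δ.card ≤ κ`, `ρ < κ.ord`, `ω ∣ ρ`, `PT ρ`.
Then `PT α`. Let `T` be a forest order.
1. `PT ρ` for the order `x < y ↔ T.lt (κ.ord * δ + x) (κ.ord * δ + y)` (`RF.comap` below) gives an antichain
   `R ⊆ [κ.ord * δ, α)` of `T` with `Has ρ R`. By `has_split` there are pairwise disjoint `B m ⊆ R` with `Has ρ (B m)`.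
2. By `good_or_good` and `exists_good` (`U m = {σ | Good T κ (B m) σ}`) there is `m` with
   `Has δ (U m ∩ Iio δ)`. Put `A' = B m` (as a subset of `Iio α`, `#A' < κ`, because `A' ⊆ blk ρ (κ.ord * δ)`). By `mk_fr` the
   sets `Fr T κ A' σ` have cardinality `≥ κ` for `σ ∈ U m`.
3. `exists_process` with `X = Ordinal`, `S = (U m ∩ Iio δ)` (cardinality `≤ κ`), `W = Iio κ.ord`, gives
   `A z`, `z ∈ W`.
4. `#K ≤ κ` gives an injection `i : K → W`. Let `e` be the increasing function `δ → U m ∩ Iio δ`, and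
   `s y = {t | #(A (i t) ∩ Fr T κ A' (e y)) < κ}` for `y < δ` (and `∅` for `y ≥ δ`): countable. `free_lemma` gives `t` with
   `Has δ {y | y < δ ∧ t ∉ s y}`. Let `z = i t`.
5. `has_mul`: `Has (κ.ord * δ) (A z)`: let `g` be the increasing function from `δ` into `{y | y < δ ∧ t ∉ s y}`; the sets
   `A z ∩ Fr T κ A' (e (g σ))` have cardinality `≥ κ`, so `Has κ.ord` (`has_of_card`), and they are
   contained in successive blocks. `has_add`: `A = A z ∪ A'` has `Has α A`; all elements of `A z` are in `Fr`, so they are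
   incomparable with the elements of `A'` and less than `κ.ord * δ`.
-/

set_option autoImplicit false

open Set Ordinal Cardinal

namespace Pool.Agent.H47Q

/-- the forest order induced by an injective map -/
def RF.comap {V V' : Type*} (T : RF V) (f : V' → V) (hf : Function.Injective f) : RF V' where
  lt a b := T.lt (f a) (f b)
  irr a := T.irr _
  trans a b c := T.trans _ _ _
  lin a b c h1 h2 := by
    rcases T.lin _ _ _ h1 h2 with h | h | h
    · exact Or.inl (hf h)
    · exact Or.inr (Or.inl h)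
    · exact Or.inr (Or.inr h)
  fin c := by
    have h := (T.fin (f c)).preimage (f := f) hf.injOn
    exact h
  noray g h := T.noray (fun n => f (g n)) h

/-- a set of ordinals contained in a block has few elements -/
theorem mk_blk_le {a x : Ordinal.{0}} : #(blk a x) ≤ Cardinal.lift.{1} a.card := by
  have h1 : blk a x ⊆ (fun y => x + y) '' Iio a := by
    intro y hy
    exact ⟨y - x, (Ordinal.sub_lt_of_le hy.1).2 hy.2, Ordinal.add_sub_cancel_of_le hy.1⟩
  refine (Cardinal.mk_le_mk_of_subset h1).trans (Cardinal.mk_image_le.trans ?_)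
  rw [Cardinal.mk_Iio_ordinal]

theorem stepB {K : Type} (hF : Free K) {κ : Cardinal.{0}} (hκ : ℵ₀ < κ) (hK : #K < κ)
    {δ ρ : Ordinal.{0}} (hδ : δ.card ≤ κ) (hρ : ρ < κ.ord) (hω : ω ∣ ρ) (hPT : PT ρ) :
    PT (κ.ord * δ + ρ) := by
  intro T
  have hκl : ℵ₀ < Cardinal.lift.{1} κ := by rwa [Cardinal.aleph0_lt_lift]
  set c : Ordinal.{0} := κ.ord with hc
  -- the antichain above
  obtain ⟨R0, hR0, hR0a, hR0h⟩ := hPT (T.comap (fun x => c * δ + x) (add_right_injective (c * δ)))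
  obtain ⟨B, hB1, hB2, hB3⟩ := has_split hω hR0h
  let sh : Ordinal.{0} → Ordinal.{0} := fun x => c * δ + x
  have hsh : Function.Injective sh := add_right_injective (c * δ)
  have hR : T.Anti (sh '' R0) := by
    rintro _ ⟨x, hx, rfl⟩ _ ⟨y, hy, rfl⟩
    exact hR0a x hx y hy
  have hBR : ∀ m, sh '' B m ⊆ sh '' R0 := fun m => Set.image_mono (hB1 m)
  have hdisj : ∀ m n, m ≠ n → Disjoint (sh '' B m) (sh '' B n) := fun m n hmn =>
    (Set.disjoint_image_iff hsh).2 (hB3 m n hmn)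
  -- the good index
  obtain ⟨m, hm⟩ := exists_good (δ := δ) (fun m => {σ | Good T κ (sh '' B m) σ})
    (fun m n hmn σ _ => good_or_good hκ hR (hBR m) (hBR n) (hdisj m n hmn) σ)
  set A' : Set Ordinal.{0} := sh '' B m with hA'
  have hA'sub : A' ⊆ blk ρ (c * δ) := by
    rintro _ ⟨x, hx, rfl⟩
    exact ⟨le_self_add, (add_lt_add_iff_left _).2 (hR0 (hB1 m hx))⟩
  have hA'card : #A' < Cardinal.lift.{1} κ := by
    refine (Cardinal.mk_le_mk_of_subset hA'sub).trans_lt (mk_blk_le.trans_lt ?_)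
    rw [Cardinal.lift_lt]
    exact Cardinal.lt_ord.1 hρ
  have hA'has : Has ρ A' := by
    refine has_shift (x := c * δ) ((hB2 m).mono ?_ le_rfl)
    intro x hx
    exact ⟨x, hx, rfl⟩
  -- the process
  let S : Set Ordinal.{0} := {σ | Good T κ A' σ} ∩ Iio δ
  have hScard : #S ≤ Cardinal.lift.{1} κ := by
    refine (Cardinal.mk_le_mk_of_subset (inter_subset_right : S ⊆ Iio δ)).trans ?_
    rw [Cardinal.mk_Iio_ordinal]
    exact Cardinal.lift_le.2 hδ
  have hW : #(Iio c) = Cardinal.lift.{1} κ := by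
    rw [Cardinal.mk_Iio_ordinal, hc, Cardinal.card_ord]
  obtain ⟨A, hA1, hA2, hA3⟩ := exists_process hκl T hScard hW (fun σ : S => Fr T κ A' σ.1)
    (fun σ => mk_fr hκ hA'card σ.2.1)
  -- the injection
  obtain ⟨i⟩ : Nonempty (K ↪ Iio c) := by
    refine Cardinal.lift_mk_le'.1 ?_
    rw [hW, Cardinal.lift_lift, Cardinal.lift_le]
    exact hK.le
  obtain ⟨e, he1, he2⟩ := hm
  classical
  let s : Ordinal.{0} → Set K := fun y => if hy : y < δ then
    {t | #(A (i t) ∩ Fr T κ A' (e y) : Set Ordinal.{0}) < Cardinal.lift.{1} κ} else ∅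
  have hs : ∀ y, (s y).Countable := by
    intro y
    by_cases hy : y < δ
    · have h1 := (hA3 ⟨e y, he1 y hy⟩).preimage (f := i) i.injective
      simp only [s, dif_pos hy]
      exact h1
    · simp only [s, dif_neg hy]
      exact countable_empty
  obtain ⟨t, g, hg1, hg2⟩ := free_lemma hF hs δ
  -- the antichain
  have hgood : ∀ σ < δ, Cardinal.lift.{1} κ ≤
      #(A (i t) ∩ Fr T κ A' (e (g σ)) : Set Ordinal.{0}) := by
    intro σ hσ
    obtain ⟨h1, h2⟩ := hg1 σ hσ
    have h3 : s (g σ) = {t | #(A (i t) ∩ Fr T κ A' (e (g σ)) : Set Ordinal.{0}) <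
      Cardinal.lift.{1} κ} := by
      simp only [s, dif_pos h1]
    rw [h3] at h2
    exact not_lt.1 h2
  have hAz : Has (c * δ) {x | ∃ σ < δ, x ∈ A (i t) ∩ Fr T κ A' (e (g σ))} := by
    refine has_mul _ (fun σ hσ => has_of_card (hgood σ hσ)) ?_
    intro σ τ hστ hτ x hx y hy
    have h1 : e (g σ) < e (g τ) := he2 _ _ (hg2 _ _ hστ hτ) (hg1 τ hτ).1
    have h2 := hx.2.1
    have h3 := hy.2.1
    rw [mem_blk] at h2 h3
    refine h2.2.trans_le (le_trans ?_ h3.1)
    have h4 : c * (e (g σ)) + c = c * (e (g σ) + 1) := by rw [mul_add, mul_one]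
    rw [h4]
    exact mul_le_mul_right (Order.add_one_le_of_lt h1) c
  have hlow : ∀ x ∈ A (i t), ∃ σ, σ < δ ∧ x ∈ Fr T κ A' σ := by
    intro x hx
    obtain ⟨σ, hσ⟩ := hA2 _ x hx
    exact ⟨σ.1, σ.2.2, hσ⟩
  have hlt : ∀ x ∈ A (i t), x < c * δ := by
    intro x hx
    obtain ⟨σ, hσ, h1⟩ := hlow x hx
    have h2 := h1.1
    rw [mem_blk] at h2
    refine h2.2.trans_le ?_
    have h4 : c * σ + c = c * (σ + 1) := by rw [mul_add, mul_one]
    rw [h4]
    exact mul_le_mul_right (Order.add_one_le_of_lt hσ) c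
  refine ⟨A (i t) ∪ A', ?_, ?_, ?_⟩
  · rintro x (hx | hx)
    · exact (hlt x hx).trans_le le_self_add
    · exact (hA'sub hx).2
  · rintro x (hx | hx) y (hy | hy)
    · exact hA1 _ x hx y hy
    · obtain ⟨σ, -, h1⟩ := hlow x hx
      exact (h1.2 y hy).2
    · obtain ⟨σ, -, h1⟩ := hlow y hy
      exact (h1.2 x hx).1
    · exact hR x (hBR m hx) y (hBR m hy)
  · refine has_add (hAz.mono ?_ le_rfl) hA'has ?_
    · rintro x ⟨σ, -, hx⟩
      exact hx.1
    · intro x hx y hy
      exact (hlt x hx).trans_le (hA'sub hy).1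

end Pool.Agent.H47Q
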