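import Pool.Agent.Lib.H47Q.Defs
import Pool.Agent.Lib.EHM47.Main

/-!
# Basic notions: copies of ordinals in sets of ordinals, forest orders, property (PT)

Everything is about sets of ordinals of `Ordinal.{0}`.

* `Has β S`: the set `S` contains a set of order type `β`.
* `RF V`: forest orders on `V` (predecessors of a point: a finite chain) without infinite chains.
* `PT α`: for every such order of the ordinals there is an antichain `A ⊆ α` which contains a set
  of order type `α`.
* `blk a x = [x, x + a)`.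
-/

set_option autoImplicit false

open Set Ordinal

namespace Pool.Agent.H47Q

/-- the set `S` of ordinals contains a subset of order type `β` -/
def Has (β : Ordinal.{0}) (S : Set Ordinal.{0}) : Prop :=
  ∃ f : Ordinal.{0} → Ordinal.{0}, (∀ x < β, f x ∈ S) ∧ ∀ x y, x < y → y < β → f x < f y

/-- A forest order without infinite chains in which the predecessors of a point form a finite
chain. -/
structure RF (V : Type*) where
  /-- the strict order -/
  lt : V → V → Prop
  irr : ∀ a, ¬ lt a a
  trans : ∀ a b c, lt a b → lt b c → lt a c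
  lin : ∀ a b c, lt a c → lt b c → a = b ∨ lt a b ∨ lt b a
  fin : ∀ c, {a | lt a c}.Finite
  noray : ∀ f : ℕ → V, ¬ ∀ n, lt (f n) (f (n + 1))

/-- antichains of a forest order -/
def RF.Anti {V : Type*} (T : RF V) (A : Set V) : Prop := ∀ x ∈ A, ∀ y ∈ A, ¬ T.lt x y

/-- Every forest order without infinite chains has an antichain of order type `α` in `α`. -/
def PT (α : Ordinal.{0}) : Prop :=
  ∀ T : RF Ordinal.{0}, ∃ A ⊆ Iio α, T.Anti A ∧ Has α A

/-- the block `[x, x + a)` -/
def blk (a x : Ordinal.{0}) : Set Ordinal.{0} := Ico x (x + a)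

theorem mem_blk {a x y : Ordinal.{0}} : y ∈ blk a x ↔ x ≤ y ∧ y < x + a := Iff.rfl

theorem Has.mono {β γ : Ordinal.{0}} {S T : Set Ordinal.{0}} (h : Has β S) (hST : S ⊆ T)
    (hγ : γ ≤ β) : Has γ T := by
  obtain ⟨f, h1, h2⟩ := h
  exact ⟨f, fun x hx => hST (h1 x (hx.trans_le hγ)), fun x y hxy hy => h2 x y hxy (hy.trans_le hγ)⟩

theorem has_zero (S : Set Ordinal.{0}) : Has 0 S :=
  ⟨id, fun _ hx => absurd hx not_lt_zero, fun _ _ _ hy => absurd hy not_lt_zero⟩

theorem has_one {S : Set Ordinal.{0}} : Has 1 S ↔ S.Nonempty := by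
  constructor
  · rintro ⟨f, h1, -⟩
    exact ⟨f 0, h1 0 zero_lt_one⟩
  · rintro ⟨a, ha⟩
    refine ⟨fun _ => a, fun _ _ => ha, fun x y hxy hy => ?_⟩
    rw [Order.lt_one_iff] at hy
    exact absurd (hy ▸ hxy) not_lt_zero

end Pool.Agent.H47Q
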