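import Pool.Agent.Lib.H47Q.CDefs

/-!
# Chunk CCERT: certificates

* `finite_dn`, `dn_lin` (if `a, a' ∈ dn T t` then `a = a'` or they are comparable; `dn T t` is closed downwards;
  if `a ∈ dn T t` then `dn T (some a) ⊆ dn T t`; if `a ∈ dn T t'`, `dn T t ⊆ dn T t'`, `a ∉ dn T t` then
  `dn T t ⊂ dn T (some a)`: for `s ∈ dn T t`: `s` and `a` are comparable or equal, and `a ≤ s` would imply `a ∈ dn T t`).
* `cof_or`: if the union of two sets of sub-blocks is cofinal then one of them is: if
  `(g1, y1)` is a witness against the first, `(g2, y2)` against the second one, use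
  `(max g1 g2, max y1 y2)`.
* `exists_cert`: by recursion on `b` (for all `x` simultaneously). For `b = 0`: the set of the predecessors of `x` is a
  finite chain; if it is empty take `none`, otherwise its largest element. For `b > 0`: `none` has the
  first property of `IsMax'` (for `g0 < b`, `y0 < x + ω ^ b` the sub-block `(g0, max x y0)`,
  `blk_opow_sub`). If there is no maximal `e` then there is an infinite sequence `e_0 = none`,
  `dn T e_n ⊂ dn T e_{n+1}`, with `e_{n+1} = some a_n`; then `T.lt a_n a_{n+1}` for all `n`,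
  contradicting `T.noray`. For the recursion: `WellFounded.fix`, or prove by
  induction that there is a function with the required properties for all `b < β` and glue; note that `IsMax' T t b x e`
  depends only on the values `t g y` with `g < b`.
-/

set_option autoImplicit false

open Set Ordinal Cardinal

namespace Pool.Agent.H47Q

variable {T : RF Ordinal.{0}}

theorem finite_dn (t : Option Ordinal.{0}) : (dn T t).Finite := by
  cases t with
  | none => exact Set.finite_empty
  | some t =>
    have h : dn T (some t) = insert t {a | T.lt a t} := by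
      ext s
      simp [dn]
    rw [h]
    exact (T.fin t).insert t

theorem dn_some_subset {t : Option Ordinal.{0}} {a : Ordinal.{0}} (h : a ∈ dn T t) :
    dn T (some a) ⊆ dn T t := by
  cases t with
  | none => exact absurd h (Set.notMem_empty a)
  | some t =>
    intro s hs
    rcases hs with rfl | hs
    · exact h
    · rcases h with rfl | h
      · exact Or.inr hs
      · exact Or.inr (T.trans _ _ _ hs h)

theorem ccert_down {t : Option Ordinal.{0}} {a s : Ordinal.{0}} (h : s ∈ dn T t)
    (ha : a = s ∨ T.lt a s) : a ∈ dn T t :=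
  dn_some_subset h ha

theorem ccert_lin {t : Option Ordinal.{0}} {a s : Ordinal.{0}} (h : s ∈ dn T t)
    (ha : a ∈ dn T t) : a = s ∨ T.lt a s ∨ T.lt s a := by
  cases t with
  | none => exact absurd h (Set.notMem_empty s)
  | some t =>
    rcases h with rfl | h
    · rcases ha with rfl | ha
      · exact Or.inl rfl
      · exact Or.inr (Or.inl ha)
    · rcases ha with rfl | ha
      · exact Or.inr (Or.inr h)
      · exact T.lin _ _ _ ha h

theorem dn_ssubset {t t' : Option Ordinal.{0}} {a : Ordinal.{0}} (h : dn T t ⊆ dn T t')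
    (ha : a ∈ dn T t') (ha' : a ∉ dn T t) : dn T t ⊂ dn T (some a) := by
  rw [Set.ssubset_iff_exists]
  refine ⟨?_, a, Or.inl rfl, ha'⟩
  intro s hs
  rcases ccert_lin (h hs) ha with h1 | h1 | h1
  · exact absurd (ccert_down hs (Or.inl h1)) ha'
  · exact absurd (ccert_down hs (Or.inr h1)) ha'
  · exact Or.inr h1

theorem cof_or {b x : Ordinal.{0}} {S S' : Ordinal.{0} → Ordinal.{0} → Prop}
    (h : Cof b x (fun g y => S g y ∨ S' g y)) : Cof b x S ∨ Cof b x S' := by
  by_contra hcon
  rw [not_or] at hcon
  obtain ⟨h1, h2⟩ := hcon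
  unfold Cof at h1 h2
  push Not at h1 h2
  obtain ⟨g1, hg1, y1, hy1, h1⟩ := h1
  obtain ⟨g2, hg2, y2, hy2, h2⟩ := h2
  obtain ⟨g, y, hS, hsub, hg, hy⟩ := h (max g1 g2) (max_lt hg1 hg2) (max y1 y2) (max_lt hy1 hy2)
  rcases hS with hS | hS
  · exact absurd ((le_max_left y1 y2).trans hy)
      (not_le.2 (h1 g y hS hsub ((le_max_left g1 g2).trans hg)))
  · exact absurd ((le_max_right y1 y2).trans hy)
      (not_le.2 (h2 g y hS hsub ((le_max_right g1 g2).trans hg)))

theorem ccert_congr {t t' : Ordinal.{0} → Ordinal.{0} → Option Ordinal.{0}} {b x : Ordinal.{0}}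
    (h : ∀ g < b, ∀ y, t g y = t' g y) (e : Option Ordinal.{0}) :
    Cof b x (fun g y => dn T e ⊆ dn T (t g y)) → Cof b x (fun g y => dn T e ⊆ dn T (t' g y)) := by
  intro hc g0 hg0 y0 hy0
  obtain ⟨g, y, hS, hsub, hg, hy⟩ := hc g0 hg0 y0 hy0
  refine ⟨g, y, ?_, hsub, hg, hy⟩
  have := h g hsub.1 y
  simp only [this] at hS
  exact hS

theorem ccert_max_congr {t t' : Ordinal.{0} → Ordinal.{0} → Option Ordinal.{0}}
    {b x : Ordinal.{0}} (h : ∀ g < b, ∀ y, t g y = t' g y) {e : Option Ordinal.{0}}
    (he : IsMax' T t b x e) : IsMax' T t' b x e :=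
  ⟨ccert_congr h e he.1, fun e' he' hc =>
    he.2 e' he' (ccert_congr (fun g hg y => (h g hg y).symm) e' hc)⟩

theorem ccert_exists_max (T : RF Ordinal.{0})
    (t : Ordinal.{0} → Ordinal.{0} → Option Ordinal.{0}) (b x : Ordinal.{0}) :
    ∃ e, IsMax' T t b x e := by
  by_contra hcon
  have hstep : ∀ e : {e : Option Ordinal.{0} // Cof b x (fun g y => dn T e ⊆ dn T (t g y))},
      ∃ e' : {e : Option Ordinal.{0} // Cof b x (fun g y => dn T e ⊆ dn T (t g y))},
        dn T e.1 ⊂ dn T e'.1 := by
    intro e
    by_contra hn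
    refine hcon ⟨e.1, e.2, ?_⟩
    intro e' he' hc
    exact hn ⟨⟨e', hc⟩, he'⟩
  choose f hf using hstep
  have hnone : Cof b x (fun g y => dn T none ⊆ dn T (t g y)) := by
    intro g0 hg0 y0 hy0
    have hx : x < x + ω ^ b := lt_add_of_pos_right x (Ordinal.opow_pos b Ordinal.omega0_pos)
    exact ⟨g0, max x y0, Set.empty_subset _, ⟨hg0, le_max_left _ _,
      (blk_opow_sub hg0 (le_max_left _ _) (max_lt hx hy0)).le⟩, le_rfl, le_max_right _ _⟩
  let s : ℕ → {e : Option Ordinal.{0} // Cof b x (fun g y => dn T e ⊆ dn T (t g y))} :=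
    fun n => f^[n] ⟨none, hnone⟩
  have hs : ∀ n, s (n + 1) = f (s n) := fun n => Function.iterate_succ_apply' f n _
  have hss : ∀ n, dn T (s n).1 ⊂ dn T (s (n + 1)).1 := by
    intro n
    rw [hs n]
    exact hf (s n)
  have hsome : ∀ n, ∃ a, (s (n + 1)).1 = some a := by
    intro n
    cases h : (s (n + 1)).1 with
    | none =>
      exfalso
      have h1 := hss n
      rw [h] at h1
      exact (h1.2 (Set.empty_subset _))
    | some a => exact ⟨a, rfl⟩
  choose a ha using hsome
  refine T.noray a fun n => ?_
  have h1 := hss (n + 1)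
  rw [ha n, ha (n + 1)] at h1
  have h2 : a n ∈ dn T (some (a (n + 1))) := h1.1 (Or.inl rfl)
  rcases h2 with h2 | h2
  · exfalso
    rw [h2] at h1
    exact (ssubset_irrefl _) h1
  · exact h2

theorem ccert_exists_zero (T : RF Ordinal.{0}) (x : Ordinal.{0}) :
    ∃ e : Option Ordinal.{0}, dn T e = {s | T.lt s x} := by
  by_cases hne : {s | T.lt s x}.Nonempty
  · -- the maximal element
    obtain ⟨m, hm, hmax⟩ : ∃ m, T.lt m x ∧ ∀ s, T.lt s x → ¬ T.lt m s := by
      by_contra hcon
      push Not at hcon
      obtain ⟨m0, hm0⟩ := hne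
      choose! f hf1 hf2 using hcon
      have h1 : ∀ n, T.lt (f^[n] m0) x := by
        intro n
        induction n with
        | zero => exact hm0
        | succ n ih =>
          rw [Function.iterate_succ_apply']
          exact hf1 _ ih
      refine T.noray (fun n => f^[n] m0) fun n => ?_
      simp only [Function.iterate_succ_apply']
      exact hf2 _ (h1 n)
    refine ⟨some m, ?_⟩
    ext s
    constructor
    · rintro (rfl | hs)
      · exact hm
      · exact T.trans _ _ _ hs hm
    · intro hs
      rcases T.lin s m x hs hm with h | h | h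
      · exact Or.inl h
      · exact Or.inr h
      · exact absurd h (hmax s hs)
  · refine ⟨none, ?_⟩
    rw [Set.not_nonempty_iff_eq_empty] at hne
    rw [hne]
    rfl

theorem exists_cert (T : RF Ordinal.{0}) :
    ∃ t : Ordinal.{0} → Ordinal.{0} → Option Ordinal.{0}, IsCert T t := by
  classical
  let P : ∀ b : Ordinal.{0}, (∀ g : Ordinal.{0}, g < b → Ordinal.{0} → Option Ordinal.{0}) →
      Ordinal.{0} → Option Ordinal.{0} → Prop := fun b r x e =>
    if b = 0 then dn T e = {s | T.lt s x} else
      IsMax' T (fun g y => if h : g < b then r g h y else none) b x e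
  have hP : ∀ b r x, ∃ e, P b r x e := by
    intro b r x
    by_cases hb : b = 0
    · obtain ⟨e, he⟩ := ccert_exists_zero T x
      exact ⟨e, by simp only [P, if_pos hb]; exact he⟩
    · obtain ⟨e, he⟩ := ccert_exists_max T (fun g y => if h : g < b then r g h y else none) b x
      exact ⟨e, by simp only [P, if_neg hb]; exact he⟩
  let F : ∀ b : Ordinal.{0}, (∀ g : Ordinal.{0}, g < b → Ordinal.{0} → Option Ordinal.{0}) →
      Ordinal.{0} → Option Ordinal.{0} := fun b r x => Classical.choose (hP b r x)
  have hF : ∀ b r x, P b r x (F b r x) := fun b r x => Classical.choose_spec (hP b r x)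
  let t : Ordinal.{0} → Ordinal.{0} → Option Ordinal.{0} :=
    Ordinal.lt_wf.fix (C := fun _ => Ordinal.{0} → Option Ordinal.{0}) F
  have ht : ∀ b, t b = F b (fun g _ => t g) := fun b =>
    Ordinal.lt_wf.fix_eq (C := fun _ => Ordinal.{0} → Option Ordinal.{0}) F b
  refine ⟨t, ?_, ?_⟩
  · intro x
    have h := hF 0 (fun g _ => t g) x
    simp only [P, if_true] at h
    rw [ht 0]
    exact h
  · intro b x hb
    have h := hF b (fun g _ => t g) x
    simp only [P, if_neg hb.ne'] at h
    rw [← ht b] at h
    refine ccert_max_congr ?_ h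
    intro g hg y
    simp only [dif_pos hg]

end Pool.Agent.H47Q
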