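import Pool.Agent.Lib.H47Q.HMisc

/-!
# Ordinals of cardinality at most `|K|`: definitions

`T` is a forest order of the ordinals. The pair `(b, x)` stands for the block `blk (ω ^ b) x`.
-/

set_option autoImplicit false

open Set Ordinal Cardinal

namespace Pool.Agent.H47Q

/-- the points below or equal to `t`; `none` is below all points -/
def dn (T : RF Ordinal.{0}) : Option Ordinal.{0} → Set Ordinal.{0}
  | none => ∅
  | some t => {s | s = t ∨ T.lt s t}

/-- `(g, y)` is a sub-block of `(b, x)` with `g < b` -/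
def Sub (b x g y : Ordinal.{0}) : Prop := g < b ∧ x ≤ y ∧ y + ω ^ g ≤ x + ω ^ b

/-- the set `S` of sub-blocks of `(b, x)` is cofinal -/
def Cof (b x : Ordinal.{0}) (S : Ordinal.{0} → Ordinal.{0} → Prop) : Prop :=
  ∀ g0 < b, ∀ y0 < x + ω ^ b, ∃ g y, S g y ∧ Sub b x g y ∧ g0 ≤ g ∧ y0 ≤ y

/-- `e` is maximal such that the sub-blocks `(g, y)` with `e ≤ t g y` are cofinal in `(b, x)` -/
def IsMax' (T : RF Ordinal.{0}) (t : Ordinal.{0} → Ordinal.{0} → Option Ordinal.{0})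
    (b x : Ordinal.{0}) (e : Option Ordinal.{0}) : Prop :=
  Cof b x (fun g y => dn T e ⊆ dn T (t g y)) ∧
    ∀ e', dn T e ⊂ dn T e' → ¬ Cof b x (fun g y => dn T e' ⊆ dn T (t g y))

/-- the certificates -/
structure IsCert (T : RF Ordinal.{0}) (t : Ordinal.{0} → Ordinal.{0} → Option Ordinal.{0}) :
    Prop where
  zero : ∀ x, dn T (t 0 x) = {s | T.lt s x}
  pos : ∀ b x, 0 < b → IsMax' T t b x (t b x)

/-- the set `c` extends the condition of the block `(b, x)` -/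
def Ok (T : RF Ordinal.{0}) (t : Ordinal.{0} → Ordinal.{0} → Option Ordinal.{0})
    (c : Set Ordinal.{0}) (b x : Ordinal.{0}) : Prop :=
  (∀ s ∈ dn T (t b x), s ∉ c) ∧ (b = 0 → x ∈ c)

/-- the finite condition `p` extends the condition of the block `(b, x)` -/
def OkP (T : RF Ordinal.{0}) (t : Ordinal.{0} → Ordinal.{0} → Option Ordinal.{0})
    (p : Finset Ordinal.{0} × Finset Ordinal.{0}) (b x : Ordinal.{0}) : Prop :=
  (∀ s ∈ dn T (t b x), s ∈ p.1) ∧ (b = 0 → x ∈ p.2)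

/-- the dense sets -/
def DD (T : RF Ordinal.{0}) (t : Ordinal.{0} → Ordinal.{0} → Option Ordinal.{0})
    (α b x g0 y0 : Ordinal.{0}) : Set (Finset Ordinal.{0} × Finset Ordinal.{0}) :=
  {p | 0 < b → x + ω ^ b ≤ α → g0 < b → y0 < x + ω ^ b →
    ((∃ s ∈ dn T (t b x), s ∈ p.2) ∨ ∃ g y, dn T (t b x) ⊆ dn T (t g y) ∧ Sub b x g y ∧
      g0 ≤ g ∧ y0 ≤ y ∧ OkP T t p g y)}

/-- `c` meets all the dense sets -/
def Gen (T : RF Ordinal.{0}) (t : Ordinal.{0} → Ordinal.{0} → Option Ordinal.{0})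
    (α : Ordinal.{0}) (c : Set Ordinal.{0}) : Prop :=
  ∀ b x g0 y0, b ≤ α → x ≤ α → g0 ≤ α → y0 ≤ α → ∃ q ∈ DD T t α b x g0 y0, Ext q c

/-- the minimal elements of `c`; an antichain -/
def Amin (T : RF Ordinal.{0}) (c : Set Ordinal.{0}) : Set Ordinal.{0} :=
  {x | x ∈ c ∧ ∀ s, T.lt s x → s ∉ c}

end Pool.Agent.H47Q
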