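import Pool.Agent.Lib.H47Q.CCert

/-!
# Chunk CDENSE: the sets `DD` are dense

`T` is concentrated on `Iio α` (`T.lt a b` implies `a < α` and `b < α`).

* `dn_lt`: if `x + ω ^ b ≤ α` then all elements of `dn T (t b x)` are `< α`: for `b = 0` they are
  predecessors of `x`; for `b > 0` use induction and `dn T (t b x) ⊆ dn T (t g y)` for some sub-block `(g, y)` (`Cof` with `g0 = 0`,
  `y0 = x`), and `y + ω ^ g ≤ x + ω ^ b ≤ α`.
* `dense_DD`: let `p` be a condition (finite sets of ordinals `< α`). If `¬ (0 < b ∧ x + ω ^ b ≤ α ∧ g0 < b ∧ y0 < x + ω ^ b)` then `p ∈ DD`. If `p.2` meets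
  `dn T (t b x)` then `p ∈ DD`. Otherwise, for each `s ∈ p.2` the set of all sub-blocks `(g, y)` with
  `dn T (t b x) ⊆ dn T (t g y)` and `s ∈ dn T (t g y)` is not cofinal: otherwise `dn T (t b x) ⊂ dn T (some s)` (`dn_ssubset`), and
  `dn T (some s) ⊆ dn T (t g y)` for a cofinal set of sub-blocks, contradicting `IsMax'`. The set of the sub-blocks `(0, y)` with
  `y ∈ p.1` is not cofinal (take `y0` greater than all elements of `p.1` which are `< x + ω ^ b`: note that a nonempty finite set of ordinals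
  `< x + ω ^ b` has a maximum `m`, and `m + 1 < x + ω ^ b` since `b > 0`). By `cof_or` (for the finite set `p.2`) and since the set of sub-blocks with
  `dn T (t b x) ⊆ dn T (t g y)` is cofinal, the set of those `(g, y)` in it with `dn T (t g y) ∩ p.2 = ∅` and
  (`g = 0 → y ∉ p.1`) is cofinal. Take one with `g0 ≤ g`, `y0 ≤ y`. The condition
  `q = (p.1 ∪ dn T (t g y), p.2 ∪ (if g = 0 then {y} else ∅))` is as required: it is disjoint, since for `g = 0` `y ∉ dn T (t 0 y)`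
  (irreflexivity), `y ∉ p.1`.
-/

set_option autoImplicit false

open Set Ordinal Cardinal

namespace Pool.Agent.H47Q

variable {T : RF Ordinal.{0}} {t : Ordinal.{0} → Ordinal.{0} → Option Ordinal.{0}}
  {α : Ordinal.{0}}

theorem cdense_x_lt (b x : Ordinal.{0}) : x < x + ω ^ b := by
  have h : (0 : Ordinal.{0}) < ω ^ b := opow_pos b omega0_pos
  calc x = x + 0 := (add_zero x).symm
    _ < x + ω ^ b := by gcongr

theorem dn_lt (hT : ∀ a b, T.lt a b → a < α ∧ b < α) (ht : IsCert T t) (b : Ordinal.{0}) :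
    ∀ x, x + ω ^ b ≤ α → ∀ s ∈ dn T (t b x), s < α := by
  induction b using WellFoundedLT.induction with
  | _ b ih =>
    intro x hx s hs
    rcases eq_or_ne b 0 with hb | hb
    · subst hb
      rw [ht.zero] at hs
      exact (hT s x hs).1
    · have hb' : 0 < b := pos_iff_ne_zero.2 hb
      obtain ⟨g, y, h1, ⟨h2, h3, h4⟩, h5, h6⟩ := (ht.pos b x hb').1 0 hb' x (cdense_x_lt b x)
      exact ih g h2 y (h4.trans hx) s (h1 hs)

theorem cdense_mono {b x : Ordinal.{0}} {S S' : Ordinal.{0} → Ordinal.{0} → Prop}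
    (h : Cof b x S) (hS : ∀ g y, Sub b x g y → S g y → S' g y) : Cof b x S' := by
  intro g0 hg0 y0 hy0
  obtain ⟨g, y, h1, h2, h3, h4⟩ := h g0 hg0 y0 hy0
  exact ⟨g, y, hS g y h2 h1, h2, h3, h4⟩

theorem cdense_fin {b x : Ordinal.{0}} (hb : 0 < b)
    (P : Ordinal.{0} → Ordinal.{0} → Ordinal.{0} → Prop) (F : Finset Ordinal.{0})
    (h : Cof b x (fun g y => ∃ s ∈ F, P s g y)) : ∃ s ∈ F, Cof b x (P s) := by
  classical
  induction F using Finset.induction_on with
  | empty =>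
    obtain ⟨g, y, ⟨s, hs, -⟩, -⟩ := h 0 hb x (cdense_x_lt b x)
    exact absurd hs (Finset.notMem_empty _)
  | insert a F _ ih =>
    have h1 : Cof b x (fun g y => P a g y ∨ ∃ s ∈ F, P s g y) := by
      refine cdense_mono h fun g y _ => ?_
      rintro ⟨s, hs, hP⟩
      rcases Finset.mem_insert.1 hs with rfl | hs
      · exact Or.inl hP
      · exact Or.inr ⟨s, hs, hP⟩
    rcases cof_or h1 with h2 | h2
    · exact ⟨a, Finset.mem_insert_self _ _, h2⟩
    · obtain ⟨s, hs, h3⟩ := ih h2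
      exact ⟨s, Finset.mem_insert_of_mem hs, h3⟩

theorem cdense_point {b x : Ordinal.{0}} (hb : 0 < b) (z : Ordinal.{0}) :
    ¬ Cof b x (fun g y => g = 0 ∧ y = z) := by
  intro h
  have hlim : Order.IsSuccLimit (x + ω ^ b) :=
    isSuccLimit_add x (isSuccLimit_opow_left isSuccLimit_omega0 hb.ne')
  obtain ⟨g, y, ⟨rfl, rfl⟩, ⟨h1, h2, h3⟩, -⟩ := h 0 hb x (cdense_x_lt b x)
  rw [opow_zero] at h3
  have hy : y < x + ω ^ b := lt_of_lt_of_le (Order.lt_add_one_iff.2 le_rfl) h3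
  obtain ⟨g, z, ⟨-, h4⟩, -, -, h5⟩ := h 0 hb (Order.succ y) (hlim.succ_lt hy)
  subst h4
  exact absurd (Order.lt_succ z) (not_lt.2 h5)

theorem dense_DD (hT : ∀ a b, T.lt a b → a < α ∧ b < α) (ht : IsCert T t)
    (b x g0 y0 : Ordinal.{0}) (p : Finset Ordinal.{0} × Finset Ordinal.{0})
    (hp : Disjoint p.1 p.2) (h1 : ∀ x ∈ p.1, x < α) (h2 : ∀ x ∈ p.2, x < α) :
    ∃ q ∈ DD T t α b x g0 y0, Disjoint q.1 q.2 ∧ p.1 ⊆ q.1 ∧ p.2 ⊆ q.2 ∧ (∀ x ∈ q.1, x < α) ∧
      ∀ x ∈ q.2, x < α := by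
  classical
  by_cases hH : 0 < b ∧ x + ω ^ b ≤ α ∧ g0 < b ∧ y0 < x + ω ^ b
  swap
  · refine ⟨p, ?_, hp, Finset.Subset.refl _, Finset.Subset.refl _, h1, h2⟩
    intro h3 h4 h5 h6
    exact absurd ⟨h3, h4, h5, h6⟩ hH
  obtain ⟨hb, hx, hg0, hy0⟩ := hH
  by_cases hm : ∃ s ∈ dn T (t b x), s ∈ p.2
  · refine ⟨p, ?_, hp, Finset.Subset.refl _, Finset.Subset.refl _, h1, h2⟩
    intro _ _ _ _
    exact Or.inl hm
  obtain ⟨hcof, hmax⟩ := ht.pos b x hb
  have hcov : Cof b x (fun g y => (dn T (t b x) ⊆ dn T (t g y) ∧ (∀ s ∈ dn T (t g y), s ∉ p.2) ∧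
      (g = 0 → y ∉ p.1)) ∨ ((∃ s ∈ p.2, dn T (t b x) ⊆ dn T (t g y) ∧ s ∈ dn T (t g y)) ∨
        ∃ s ∈ p.1, g = 0 ∧ y = s)) := by
    refine cdense_mono hcof fun g y _ hS => ?_
    by_cases hA : ∃ s ∈ p.2, dn T (t b x) ⊆ dn T (t g y) ∧ s ∈ dn T (t g y)
    · exact Or.inr (Or.inl hA)
    by_cases hB : ∃ s ∈ p.1, g = 0 ∧ y = s
    · exact Or.inr (Or.inr hB)
    refine Or.inl ⟨hS, ?_, ?_⟩
    · intro s hs hs2
      exact hA ⟨s, hs2, hS, hs⟩
    · intro hg hy
      exact hB ⟨y, hy, hg, rfl⟩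
  have hgood : Cof b x (fun g y => dn T (t b x) ⊆ dn T (t g y) ∧ (∀ s ∈ dn T (t g y), s ∉ p.2) ∧
      (g = 0 → y ∉ p.1)) := by
    rcases cof_or hcov with h3 | h3
    · exact h3
    exfalso
    rcases cof_or h3 with h4 | h4
    · obtain ⟨s, hs, h5⟩ := cdense_fin hb
        (fun s g y => dn T (t b x) ⊆ dn T (t g y) ∧ s ∈ dn T (t g y)) p.2 h4
      obtain ⟨g, y, ⟨h6, h7⟩, -⟩ := h5 0 hb x (cdense_x_lt b x)
      have h8 : s ∉ dn T (t b x) := fun h => hm ⟨s, h, hs⟩
      refine hmax (some s) (dn_ssubset h6 h7 h8) ?_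
      exact cdense_mono h5 fun g y _ h => dn_some_subset h.2
    · obtain ⟨s, _, h5⟩ := cdense_fin hb (fun s g y => g = 0 ∧ y = s) p.1 h4
      exact cdense_point hb s h5
  obtain ⟨g, y, ⟨hS, hA, hB⟩, hsub, hgg, hyy⟩ := hgood g0 hg0 y0 hy0
  have hyα : y + ω ^ g ≤ α := hsub.2.2.trans hx
  have hdn := dn_lt hT ht g y hyα
  refine ⟨(p.1 ∪ (finite_dn (T := T) (t g y)).toFinset, p.2 ∪ (if g = 0 then {y} else ∅)),
    ?_, ?_, Finset.subset_union_left, Finset.subset_union_left, ?_, ?_⟩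
  · intro _ _ _ _
    refine Or.inr ⟨g, y, hS, hsub, hgg, hyy, ?_, ?_⟩
    · intro s hs
      exact Finset.mem_union_right _ ((finite_dn (T := T) (t g y)).mem_toFinset.2 hs)
    · intro hg
      refine Finset.mem_union_right _ ?_
      rw [if_pos hg]
      exact Finset.mem_singleton_self y
  · rw [Finset.disjoint_left]
    intro a ha hb'
    rw [Finset.mem_union, (finite_dn (T := T) (t g y)).mem_toFinset] at ha
    rw [Finset.mem_union] at hb'
    rcases hb' with hb' | hb'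
    · rcases ha with ha | ha
      · exact Finset.disjoint_left.1 hp ha hb'
      · exact hA a ha hb'
    · by_cases hg : g = 0
      · rw [if_pos hg, Finset.mem_singleton] at hb'
        subst hb'
        rcases ha with ha | ha
        · exact hB hg ha
        · subst hg
          rw [ht.zero] at ha
          exact T.irr a ha
      · rw [if_neg hg] at hb'
        exact Finset.notMem_empty _ hb'
  · intro a ha
    rw [Finset.mem_union, (finite_dn (T := T) (t g y)).mem_toFinset] at ha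
    rcases ha with ha | ha
    · exact h1 a ha
    · exact hdn a ha
  · intro a ha
    rw [Finset.mem_union] at ha
    rcases ha with ha | ha
    · exact h2 a ha
    · by_cases hg : g = 0
      · rw [if_pos hg, Finset.mem_singleton] at ha
        subst ha
        exact (cdense_x_lt g a).trans_le hyα
      · rw [if_neg hg] at ha
        exact absurd ha (Finset.notMem_empty _)

end Pool.Agent.H47Q
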