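import Pool.Agent.Lib.H47Q.Base

/-!
# Chunk CTRANS: using `CohenMA K` for dense sets of conditions of ordinals below `α`

Let `K` be infinite, `α.card ≤ #K`. Then there are an injection `i` from `Iio α` into `K` and a
surjection `j` from `K` onto the set of quadruples of ordinals `≤ α` (`#(Iic α) ≤ #K`, in `Type 1`; `Cardinal.lift`).
Given the dense sets `D a b c d`, and a finite set `E` of ordinals `< α`. For a condition `p'` in `K` let
`pull p' = (u, v)`, `u = {x < α : x ∈ E ∨ i x ∈ p'.1}`, `v = {x < α : x ∉ E ∧ i x ∈ p'.2}` (disjoint if `p'` is). Put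
`D' k = {p' | ∃ q ∈ D (j k), (∀ x ∈ q.1, x < α ∧ (x ∈ E ∨ i x ∈ p'.1)) ∧ ∀ x ∈ q.2, x < α ∧ x ∉ E ∧ i x ∈ p'.2}`. `D' k` is dense: let `p'` be given,
`p = pull p'` (finite sets of ordinals `< α`), `q ∈ D (j k)` an extension of `p`; put
`q' = (p'.1 ∪ i '' (q.1 \ E), p'.2 ∪ i '' q.2)`. Since `E ⊆ p.1 ⊆ q.1`, `q.2` is disjoint from `E`. `q'` is disjoint: if `i x ∈ p'.1`, `x ∈ q.2` then
`x ∈ p.1 ⊆ q.1`, a contradiction; if `x ∈ q.1 \ E`, `i x ∈ p'.2` then `x ∈ p.2 ⊆ q.2`, a contradiction. Let `c'` be given by `CohenMA K` for `D'`, and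
`c = {x | x < α ∧ x ∉ E ∧ i x ∈ c'}`.
-/

set_option autoImplicit false

open Set Ordinal Cardinal

namespace Pool.Agent.H47Q

theorem CTRANS_inj {K : Type} [Infinite K] {α : Ordinal.{0}} (hα : α.card ≤ #K) :
    ∃ i : Ordinal.{0} → K, Set.InjOn i (Iio α) := by
  classical
  rw [← Cardinal.mk_toType, Cardinal.le_def] at hα
  obtain ⟨f⟩ := hα
  obtain ⟨k0⟩ := (inferInstance : Nonempty K)
  refine ⟨fun x => if h : x < α then f (Ordinal.ToType.mk ⟨x, h⟩) else k0, ?_⟩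
  intro x hx y hy hxy
  have hx' : x < α := hx
  have hy' : y < α := hy
  simp only [dif_pos hx', dif_pos hy'] at hxy
  have h1 := f.injective hxy
  have h2 := Ordinal.ToType.mk.injective h1
  exact congrArg Subtype.val h2

theorem CTRANS_sur {K : Type} [Infinite K] {α : Ordinal.{0}} (hα : α.card ≤ #K) :
    ∃ j : K → Ordinal.{0} × Ordinal.{0} × Ordinal.{0} × Ordinal.{0},
      ∀ a b c d, a ≤ α → b ≤ α → c ≤ α → d ≤ α → ∃ k, j k = (a, b, c, d) := by
  classical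
  have hK : ℵ₀ ≤ #K := Cardinal.aleph0_le_mk K
  have h1 : #(Order.succ α).ToType ≤ #K := by
    rw [Cardinal.mk_toType, Ordinal.card_succ]
    exact Cardinal.add_le_of_le hK hα (Cardinal.one_le_aleph0.trans hK)
  have h2 : #((Order.succ α).ToType × (Order.succ α).ToType × (Order.succ α).ToType ×
      (Order.succ α).ToType) ≤ #K := by
    simp only [Cardinal.mk_prod, Cardinal.lift_id]
    exact Cardinal.mul_le_of_le hK h1 (Cardinal.mul_le_of_le hK h1 (Cardinal.mul_le_of_le hK h1 h1))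
  rw [Cardinal.le_def] at h2
  obtain ⟨f⟩ := h2
  have hmk : ∀ a, a ≤ α → ∃ a' : (Order.succ α).ToType, (Ordinal.ToType.mk.symm a').1 = a := by
    intro a ha
    refine ⟨Ordinal.ToType.mk ⟨a, Order.lt_succ_iff.2 ha⟩, ?_⟩
    rw [OrderIso.symm_apply_apply]
  obtain ⟨z, -⟩ := hmk α le_rfl
  haveI : Nonempty ((Order.succ α).ToType × (Order.succ α).ToType × (Order.succ α).ToType ×
      (Order.succ α).ToType) := ⟨(z, z, z, z)⟩
  have hs : Function.Surjective (Function.invFun f) := Function.invFun_surjective f.injective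
  refine ⟨fun k => ((Ordinal.ToType.mk.symm (Function.invFun f k).1).1,
    (Ordinal.ToType.mk.symm (Function.invFun f k).2.1).1,
    (Ordinal.ToType.mk.symm (Function.invFun f k).2.2.1).1,
    (Ordinal.ToType.mk.symm (Function.invFun f k).2.2.2).1), ?_⟩
  intro a b c d ha hb hc hd
  obtain ⟨a', ha'⟩ := hmk a ha
  obtain ⟨b', hb'⟩ := hmk b hb
  obtain ⟨c', hc'⟩ := hmk c hc
  obtain ⟨d', hd'⟩ := hmk d hd
  obtain ⟨k, hk⟩ := hs (a', b', c', d')
  refine ⟨k, ?_⟩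
  simp only [hk, ha', hb', hc', hd']

theorem exists_generic {K : Type} [Infinite K] (hC : CohenMA K) {α : Ordinal.{0}}
    (hα : α.card ≤ #K)
    (D : Ordinal.{0} → Ordinal.{0} → Ordinal.{0} → Ordinal.{0} →
      Set (Finset Ordinal.{0} × Finset Ordinal.{0}))
    (hD : ∀ a b c d, ∀ p : Finset Ordinal.{0} × Finset Ordinal.{0}, Disjoint p.1 p.2 →
      (∀ x ∈ p.1, x < α) → (∀ x ∈ p.2, x < α) → ∃ q ∈ D a b c d, Disjoint q.1 q.2 ∧
        p.1 ⊆ q.1 ∧ p.2 ⊆ q.2 ∧ (∀ x ∈ q.1, x < α) ∧ ∀ x ∈ q.2, x < α)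
    (E : Finset Ordinal.{0}) (hE : ∀ x ∈ E, x < α) :
    ∃ c : Set Ordinal.{0}, (∀ x ∈ E, x ∉ c) ∧ ∀ a b c' d, a ≤ α → b ≤ α → c' ≤ α → d ≤ α →
      ∃ q ∈ D a b c' d, Ext q c := by
  classical
  obtain ⟨i, hi⟩ := CTRANS_inj hα
  obtain ⟨j, hj⟩ := CTRANS_sur hα
  have hdense : ∀ (k : K) (p : Finset K × Finset K), Disjoint p.1 p.2 →
      ∃ q ∈ {p' : Finset K × Finset K | ∃ q ∈ D (j k).1 (j k).2.1 (j k).2.2.1 (j k).2.2.2,
        (∀ x ∈ q.1, x < α ∧ (x ∈ E ∨ i x ∈ p'.1)) ∧ ∀ x ∈ q.2, x < α ∧ x ∉ E ∧ i x ∈ p'.2},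
      Disjoint q.1 q.2 ∧ p.1 ⊆ q.1 ∧ p.2 ⊆ q.2 := by
    intro k p' hp'
    have hfin : ∀ s : Finset K, {x : Ordinal.{0} | x < α ∧ i x ∈ s}.Finite := by
      intro s
      refine Set.Finite.of_injOn (f := i) (t := (s : Set K)) (fun x hx => hx.2) ?_ s.finite_toSet
      intro x hx y hy hxy
      exact hi hx.1 hy.1 hxy
    set S1 := (hfin p'.1).toFinset with hS1
    set S2 := (hfin p'.2).toFinset with hS2
    have m1 : ∀ x, x ∈ S1 ↔ x < α ∧ i x ∈ p'.1 := fun x => Set.Finite.mem_toFinset _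
    have m2 : ∀ x, x ∈ S2 ↔ x < α ∧ i x ∈ p'.2 := fun x => Set.Finite.mem_toFinset _
    obtain ⟨q, hq, hqd, hq1, hq2, hqa, hqb⟩ := hD (j k).1 (j k).2.1 (j k).2.2.1 (j k).2.2.2
      (E ∪ S1, S2.filter (· ∉ E)) (by
        rw [Finset.disjoint_left]
        intro x hx hx2
        obtain ⟨h1, h2⟩ := Finset.mem_filter.1 hx2
        rcases Finset.mem_union.1 hx with h3 | h3
        · exact h2 h3
        · exact Finset.disjoint_left.1 hp' ((m1 x).1 h3).2 ((m2 x).1 h1).2)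
      (by
        intro x hx
        rcases Finset.mem_union.1 hx with h3 | h3
        · exact hE x h3
        · exact ((m1 x).1 h3).1)
      (by
        intro x hx
        exact ((m2 x).1 (Finset.mem_filter.1 hx).1).1)
    have hEq : ∀ x ∈ q.2, x ∉ E := fun x hx hxE =>
      Finset.disjoint_left.1 hqd (hq1 (Finset.mem_union_left _ hxE)) hx
    refine ⟨(p'.1 ∪ (q.1 \ E).image i, p'.2 ∪ q.2.image i), ⟨q, hq, ?_, ?_⟩, ?_,
      Finset.subset_union_left, Finset.subset_union_left⟩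
    · intro x hx
      refine ⟨hqa x hx, ?_⟩
      by_cases hxE : x ∈ E
      · exact Or.inl hxE
      · exact Or.inr (Finset.mem_union_right _
          (Finset.mem_image_of_mem i (Finset.mem_sdiff.2 ⟨hx, hxE⟩)))
    · intro x hx
      exact ⟨hqb x hx, hEq x hx, Finset.mem_union_right _ (Finset.mem_image_of_mem i hx)⟩
    · rw [Finset.disjoint_left]
      intro y hy1 hy2
      rcases Finset.mem_union.1 hy1 with h1 | h1 <;> rcases Finset.mem_union.1 hy2 with h2 | h2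
      · exact Finset.disjoint_left.1 hp' h1 h2
      · obtain ⟨x, hx, rfl⟩ := Finset.mem_image.1 h2
        have h3 : x ∈ S1 := (m1 x).2 ⟨hqb x hx, h1⟩
        exact Finset.disjoint_left.1 hqd (hq1 (Finset.mem_union_right _ h3)) hx
      · obtain ⟨x, hx, rfl⟩ := Finset.mem_image.1 h1
        obtain ⟨hx1, hx2⟩ := Finset.mem_sdiff.1 hx
        have h3 : x ∈ S2.filter (· ∉ E) := Finset.mem_filter.2 ⟨(m2 x).2 ⟨hqa x hx1, h2⟩, hx2⟩
        exact Finset.disjoint_left.1 hqd hx1 (hq2 h3)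
      · obtain ⟨x, hx, rfl⟩ := Finset.mem_image.1 h1
        obtain ⟨x', hx', he⟩ := Finset.mem_image.1 h2
        obtain ⟨hx1, hx2⟩ := Finset.mem_sdiff.1 hx
        have h3 : x' = x := hi (hqb x' hx') (hqa x hx1) he
        rw [h3] at hx'
        exact Finset.disjoint_left.1 hqd hx1 hx'
  obtain ⟨c', hc'⟩ := hC _ hdense
  refine ⟨{x | x < α ∧ x ∉ E ∧ i x ∈ c'}, fun x hx hx' => hx'.2.1 hx, ?_⟩
  intro a b c d ha hb hc hd
  obtain ⟨k, hk⟩ := hj a b c d ha hb hc hd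
  obtain ⟨p', ⟨q, hq, h1, h2⟩, hE1, hE2⟩ := hc' k
  rw [hk] at hq
  refine ⟨q, hq, ?_, ?_⟩
  · intro x hx hxc
    obtain ⟨h3, h4, h5⟩ := hxc
    rcases (h1 x hx).2 with h6 | h6
    · exact h4 h6
    · exact hE1 _ h6 h5
  · intro x hx
    obtain ⟨h3, h4, h5⟩ := h2 x hx
    exact ⟨h3, h4, hE2 _ h5⟩

end Pool.Agent.H47Q
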