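import Pool.Agent.Lib.H47Q.CDense
import Pool.Agent.Lib.H47Q.CTrans

/-!
# Chunk CMAIN: (PT) for the ordinals of cardinality at most `|K|`

* `has_of_gen`: let `c` meet all the dense sets (`Gen T t α c`) and extend the condition of the block `(b, x)`,
  `x + ω ^ b ≤ α`. Then `Has (ω ^ b) (Amin T c ∩ blk (ω ^ b) x)`. Induction on `b`. If `b = 0` then `x ∈ Amin T c` and
  `blk 1 x = {x}`. If `b > 0` use `has_opow_cof`: for `g0 < b`, `y0 < x + ω ^ b` take
  `q ∈ DD T t α b x g0 y0` with `Ext q c`; as `c` contains no element of `dn T (t b x)`, the first alternative is impossible; so there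
  is a sub-block `(g, y)` with `OkP T t q g y`, hence `Ok T t c g y`, and the induction hypothesis
  applies. (`b ≤ ω ^ b ≤ α`, `x ≤ α`, `g0, y0 ≤ α`.)
* `has_of_gen_mul`: for `x + δ ≤ α`, `ω ∣ δ` there is a finite set `E` of ordinals `< α` such that
  `Has δ (Amin T c ∩ blk δ x)` whenever `c` meets all the dense sets and is disjoint from `E`. By `cnf_induction`: for `δ = 0` `E = ∅`. For
  `δ = ω ^ b + δ'` we have `b > 0` and `ω ∣ δ'`: if `b = 0` then `δ' < 1 + δ'` implies `δ' < ω`, so `δ` is finite and not `0`, and not divisible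
  by `ω`; as `ω ∣ ω ^ b`, `ω ∣ δ'`. `E = dn T (t b x) ∪ E'`, where `E'` is for `(δ', x + ω ^ b)`; `has_add`.
* `stepC`: given a forest order `T`, replace it by its restriction to `Iio α` (`RF.restrict`),
  take `t` from `exists_cert`, `E` for `(α, 0)`, and `c` from `exists_generic` and `dense_DD`. `A = Amin T c ∩ Iio α`.
-/

set_option autoImplicit false

open Set Ordinal Cardinal

namespace Pool.Agent.H47Q

/-- restriction of a forest order to a set -/
def RF.restrict {V : Type*} (T : RF V) (S : Set V) : RF V where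
  lt a b := T.lt a b ∧ a ∈ S ∧ b ∈ S
  irr a h := T.irr a h.1
  trans a b c h1 h2 := ⟨T.trans a b c h1.1 h2.1, h1.2.1, h2.2.2⟩
  lin a b c h1 h2 := by
    rcases T.lin a b c h1.1 h2.1 with h | h | h
    · exact Or.inl h
    · exact Or.inr (Or.inl ⟨h, h1.2.1, h2.2.1⟩)
    · exact Or.inr (Or.inr ⟨h, h2.2.1, h1.2.1⟩)
  fin c := (T.fin c).subset fun _ h => h.1
  noray f h := T.noray f fun n => (h n).1

variable {T : RF Ordinal.{0}} {t : Ordinal.{0} → Ordinal.{0} → Option Ordinal.{0}}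
  {α : Ordinal.{0}}

theorem has_of_gen (ht : IsCert T t) {c : Set Ordinal.{0}} (hc : Gen T t α c) (b : Ordinal.{0}) :
    ∀ x, x + ω ^ b ≤ α → Ok T t c b x → Has (ω ^ b) (Amin T c ∩ blk (ω ^ b) x) := by
  induction b using WellFoundedLT.induction with
  | ind b ih =>
    intro x hx hok
    rcases eq_or_lt_of_le (zero_le : (0 : Ordinal.{0}) ≤ b) with hb | hb
    · subst hb
      rw [opow_zero, has_one]
      refine ⟨x, ⟨hok.2 rfl, fun s hs => hok.1 s ?_⟩, le_rfl, ?_⟩
      · rw [ht.zero x]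
        exact hs
      · exact lt_add_of_pos_right x zero_lt_one
    · refine has_opow_cof hb ?_
      intro g0 hg0 y0 hy0
      have hpow : b ≤ ω ^ b := Ordinal.right_le_opow b one_lt_omega0
      have hxα : x ≤ α := le_self_add.trans hx
      have hbα : ω ^ b ≤ α := le_add_self.trans hx
      obtain ⟨q, hq, hqc⟩ := hc b x g0 y0 (hpow.trans hbα) hxα (hg0.le.trans (hpow.trans hbα))
        (hy0.le.trans hx)
      rcases hq hb hx hg0 hy0 with ⟨s, hs, hs2⟩ | ⟨g, y, hsub, ⟨hg, hxy, hy⟩, hg0', hy0', hokP⟩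
      · exact absurd (hqc.2 s hs2) (hok.1 s hs)
      · refine ⟨g, y, hg0', hg, hy0', hxy, hy, ih g hg y (hy.trans hx) ⟨fun s hs => ?_, fun h => ?_⟩⟩
        · exact hqc.1 s (hokP.1 s hs)
        · exact hqc.2 y (hokP.2 h)

theorem has_of_gen_mul (hT : ∀ a b, T.lt a b → a < α ∧ b < α) (ht : IsCert T t)
    (δ : Ordinal.{0}) : ∀ x, x + δ ≤ α → ω ∣ δ → ∃ E : Finset Ordinal.{0}, (∀ s ∈ E, s < α) ∧
      ∀ c, Gen T t α c → (∀ s ∈ E, s ∉ c) → Has δ (Amin T c ∩ blk δ x) := by
  classical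
  induction δ using cnf_induction with
  | h0 =>
    intro x _ _
    exact ⟨∅, by simp, fun c _ _ => has_zero _⟩
  | h1 b δ' hlt ih =>
    intro x hx hω
    have hb : b ≠ 0 := by
      rintro rfl
      rw [opow_zero] at hlt hω
      have h1 : δ' < ω := by
        by_contra h2
        rw [not_lt] at h2
        rw [one_add_of_omega0_le h2] at hlt
        exact lt_irrefl _ hlt
      have h3 : 1 + δ' < ω := isPrincipal_add_omega0 one_lt_omega0 h1
      have h4 : (1 : Ordinal.{0}) + δ' ≠ 0 := (lt_of_lt_of_le zero_lt_one le_self_add).ne'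
      exact absurd (Ordinal.le_of_dvd h4 hω) (not_le.2 h3)
    have hωb : (ω : Ordinal.{0}) ∣ ω ^ b := by
      have h1 := opow_dvd_opow (ω : Ordinal.{0}) (Order.one_le_iff_pos.2 (pos_of_ne_zero hb))
      rwa [opow_one] at h1
    have hωδ : ω ∣ δ' := (Ordinal.dvd_add_iff hωb).1 hω
    rw [← add_assoc] at hx
    obtain ⟨E', hE', hE2⟩ := ih (x + ω ^ b) hx hωδ
    have hx' : x + ω ^ b ≤ α := le_self_add.trans hx
    have hfin : (dn T (t b x)).Finite := finite_dn _
    refine ⟨hfin.toFinset ∪ E', ?_, ?_⟩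
    · intro s hs
      rcases Finset.mem_union.1 hs with h | h
      · exact dn_lt hT ht b x hx' s (hfin.mem_toFinset.1 h)
      · exact hE' s h
    · intro c hc hE
      have h1 := has_of_gen ht hc b x hx' ⟨fun s hs => hE s (Finset.mem_union_left _
        (hfin.mem_toFinset.2 hs)), fun h => absurd h hb⟩
      have h2 := hE2 c hc fun s hs => hE s (Finset.mem_union_right _ hs)
      refine (has_add h1 h2 ?_).mono ?_ le_rfl
      · intro y hy z hz
        exact hy.2.2.trans_le hz.2.1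
      · rintro y (⟨h3, h4, h5⟩ | ⟨h3, h4, h5⟩)
        · refine ⟨h3, h4, h5.trans_le ?_⟩
          rw [← add_assoc]
          exact le_self_add
        · refine ⟨h3, le_self_add.trans h4, ?_⟩
          rw [← add_assoc]
          exact h5

theorem stepC {K : Type} [Infinite K] (hC : CohenMA K) {α : Ordinal.{0}} (hα : α.card ≤ #K)
    (hω : ω ∣ α) : PT α := by
  intro T0
  obtain ⟨t, ht⟩ := exists_cert (T0.restrict (Iio α))
  have hT : ∀ a b, (T0.restrict (Iio α)).lt a b → a < α ∧ b < α := fun a b h => h.2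
  obtain ⟨E, hE1, hE2⟩ := has_of_gen_mul hT ht α 0 (by rw [zero_add]) hω
  obtain ⟨c, hc1, hc2⟩ := exists_generic hC hα (fun b x g0 y0 => DD (T0.restrict (Iio α)) t α b x g0 y0)
    (fun b x g0 y0 p hp h1 h2 => dense_DD hT ht b x g0 y0 p hp h1 h2) E hE1
  have h1 := hE2 c (fun b x g0 y0 hb hx hg hy => hc2 b x g0 y0 hb hx hg hy) hc1
  refine ⟨Amin (T0.restrict (Iio α)) c ∩ blk α 0, ?_, ?_, h1⟩
  · rintro x ⟨-, -, hx⟩
    rwa [zero_add] at hx
  · rintro x ⟨hx, -, hx2⟩ y ⟨hy, -, hy2⟩ hxy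
    rw [zero_add] at hx2 hy2
    exact hy.2 x ⟨hxy, hx2, hy2⟩ hx.1

end Pool.Agent.H47Q
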