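import Pool.Agent.Lib.H30C.Defs

/-!
# Definitions for the independence theorem (MP_95a8e7_lc)

* `Free K`: every function assigning countable subsets of `K` to finite sequences of elements of
  `K` has an infinite free sequence;
* `Erdos K`: the partition relation `K → (ω)^{<ω}_2` of the `ω`-Erdős cardinals;
* `CohenMA K`: Martin's axiom for `|K|` dense sets of the poset of finite partial functions from
  `K` to `{0, 1}`;
* `PhiIn E`: the structure `(M, E)` satisfies the sentence: there is an infinite set `Ω` such that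
  every countable algebra on `Ω` has an infinite strictly decreasing sequence of subalgebras, and
  such that Martin's axiom holds for `|Ω|` dense sets of the poset of finite partial functions from
  `Ω` to `{0, 1}`.
-/

set_option autoImplicit false

open Set Cardinal

namespace Pool.Agent.H47Q

open Pool.Agent.H5Z Pool.Agent.H30C

universe u v

/-! ### The combinatorial principles -/

/-- The list `[τ (j+1), …, τ (j+n)]`. -/
def seg {K : Type u} (τ : ℕ → K) : ℕ → ℕ → List K
  | _, 0 => []
  | j, n + 1 => τ (j + 1) :: seg τ (j + 1) n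

/-- For every function `C` from the finite sequences of elements of `K` to the countable subsets of
`K` there is an infinite sequence `τ` such that `τ j ∉ C [τ (j+1), …, τ (j+n)]` for all `j, n`. -/
def Free (K : Type u) : Prop :=
  ∀ C : List K → Set K, (∀ l, (C l).Countable) → ∃ τ : ℕ → K, ∀ j n, τ j ∉ C (seg τ j n)

/-- The partition relation `K → (ω)^{<ω}_2`: every colouring of the finite subsets of `K` with two
colours has an infinite homogeneous set `H` (the colour of a finite subset of `H` depends only on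
its size). -/
def Erdos (K : Type u) : Prop :=
  ∀ f : Finset K → Bool, ∃ H : Set K, H.Infinite ∧
    ∀ s t : Finset K, (s : Set K) ⊆ H → (t : Set K) ⊆ H → s.card = t.card → f s = f t

/-- The set `c` has the finite set `p.2` as a subset, and is disjoint from the finite set `p.1`. -/
def Ext {K : Type u} (p : Finset K × Finset K) (c : Set K) : Prop :=
  (∀ x ∈ p.1, x ∉ c) ∧ ∀ x ∈ p.2, x ∈ c

/-- Martin's axiom for `|K|` dense sets of the poset of the finite partial functions from `K` to
`{0, 1}`; the finite partial function which is `0` on `u` and `1` on `v` is the pair `(u, v)`. -/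
def CohenMA (K : Type u) : Prop :=
  ∀ D : K → Set (Finset K × Finset K),
    (∀ (i : K) (p : Finset K × Finset K), Disjoint p.1 p.2 →
      ∃ q ∈ D i, Disjoint q.1 q.2 ∧ p.1 ⊆ q.1 ∧ p.2 ⊆ q.2) →
      ∃ c : Set K, ∀ i, ∃ q ∈ D i, Ext q c

/-! ### The principle `PhiIn` in a structure `(M, E)` -/

variable {M : Type*} (E : M → M → Prop)

/-- In `(M, E)`: the relation `F` restricted to `Ω` is (the graph of) a partial function. -/
def IsFunIn (Ω F : M) : Prop :=
  ∀ z, E z Ω → ∀ x, E x Ω → ∀ y, E y Ω → Rel E z x F → Rel E z y F → x = y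

/-- In `(M, E)`: `H` and `T` are partial functions from `Ω` to `Ω`, and for all `x, y` in `Ω` there
is `z ≠ o` in `Ω` with `H z = x` and `T z = y`. -/
structure IsPairingIn (Ω o H T : M) : Prop where
  o_mem : E o Ω
  fH : IsFunIn E Ω H
  fT : IsFunIn E Ω T
  surj : ∀ x, E x Ω → ∀ y, E y Ω → ∃ z, E z Ω ∧ ¬ z = o ∧ Rel E z x H ∧ Rel E z y T

/-- In `(M, E)`: the set `X_n = {x ∈ Ω : (n, x) ∈ X}` contains `o`, is closed under the pairing
(it contains each `z` for which it contains `H z` and `T z`) and under the partial function `F`,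
and `X_m` is a proper subset of `X_n` for all natural numbers `n < m`. -/
def IsDescIn (w Ω o H T F X : M) : Prop :=
  ∀ n, E n w → Rel E n o X ∧
    (∀ z, E z Ω → ∀ x, E x Ω → ∀ y, E y Ω → Rel E z x H → Rel E z y T →
      Rel E n x X → Rel E n y X → Rel E n z X) ∧
    (∀ z, E z Ω → ∀ x, E x Ω → Rel E z x F → Rel E n z X → Rel E n x X) ∧
    ∀ m, E m w → E n m → (∀ x, E x Ω → Rel E m x X → Rel E n x X) ∧
      ∃ x, E x Ω ∧ Rel E n x X ∧ ¬ Rel E m x X

/-- In `(M, E)`: the elements `p` of `Ω` code the finite partial functions from `Ω` to `{0, 1}`;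
the function coded by `p` is `0` on `{x : (p, x) ∈ Z}` and `1` on `{x : (p, x) ∈ O}`. -/
structure IsCondIn (w Ω Z O : M) : Prop where
  /-- the domain is covered by the values of a partial function on a natural number `n` -/
  fin : ∀ p, E p Ω → ∃ n, E n w ∧ ∃ f, IsFuncIn E w Ω f ∧ ∀ x, E x Ω →
    (Rel E p x Z ∨ Rel E p x O) → ∃ m, E m w ∧ E m n ∧ Rel E m x f
  disj : ∀ p, E p Ω → ∀ x, E x Ω → Rel E p x Z → ¬ Rel E p x O
  /-- the empty function is coded -/
  emp : ∃ p, E p Ω ∧ ∀ x, E x Ω → ¬ Rel E p x Z ∧ ¬ Rel E p x O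
  /-- extensions by one more value are coded -/
  ext : ∀ p, E p Ω → ∀ x, E x Ω → ¬ Rel E p x Z → ¬ Rel E p x O →
    (∃ q, E q Ω ∧ ∀ y, E y Ω → (Rel E q y Z ↔ Rel E p y Z ∨ y = x) ∧
      (Rel E q y O ↔ Rel E p y O)) ∧
    ∃ q, E q Ω ∧ ∀ y, E y Ω → (Rel E q y Z ↔ Rel E p y Z) ∧
      (Rel E q y O ↔ Rel E p y O ∨ y = x)

/-- In `(M, E)`: each set `D_i = {p : (i, p) ∈ D}` of (codes of) finite partial functions is
dense. -/
def IsDnsIn (Ω Z O D : M) : Prop :=
  ∀ i, E i Ω → ∀ p, E p Ω → ∃ q, E q Ω ∧ Rel E i q D ∧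
    (∀ x, E x Ω → Rel E p x Z → Rel E q x Z) ∧ ∀ x, E x Ω → Rel E p x O → Rel E q x O

/-- In `(M, E)`: the characteristic function of `c` extends, for each `i` in `Ω`, a finite partial
function in `D_i`. -/
def IsMeetIn (Ω Z O D c : M) : Prop :=
  ∀ i, E i Ω → ∃ q, E q Ω ∧ Rel E i q D ∧
    (∀ x, E x Ω → Rel E q x Z → ¬ E x c) ∧ ∀ x, E x Ω → Rel E q x O → E x c

/-- `(M, E)` satisfies the sentence: there is a set `Ω`, with pairing functions and codes for the
finite partial functions from `Ω` to `{0, 1}`, such that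

* for each partial function `F` from `Ω` to `Ω` there is an infinite strictly decreasing sequence
  of subsets of `Ω` which are closed under `F` and the pairing;
* for every family `(D_i : i ∈ Ω)` of dense sets of finite partial functions there is a subset `c`
  of `Ω` whose characteristic function extends an element of each of them. -/
def PhiIn : Prop :=
  ∃ w Ω o H T Z O : M, IsOmega E w ∧ IsPairingIn E Ω o H T ∧ IsCondIn E w Ω Z O ∧
    (∀ F, IsFunIn E Ω F → ∃ X, IsDescIn E w Ω o H T F X) ∧
    ∀ D, IsDnsIn E Ω Z O D → ∃ c, IsMeetIn E Ω Z O D c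

end Pool.Agent.H47Q
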