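import Pool.Agent.Lib.H47Q.Defs

/-!
# Chunk ERD: the partition relation gives free sequences

Let `Erdos K`; `C : List K → Set K` countable-valued, `c m l` (`m : ℕ`) an enumeration: `C l = {x | ∃ m, c m l = some x}` with
`c : ℕ → List K → Option K`. Take a well-order of `K` (`WellOrderingRel`, `linearOrderOfSTO`). For a finite set `s` with `n + 1` elements
`x_0 < x_1 < … < x_n` let `(k, m) = Nat.unpair n` (so `k ≤ n`) and let `f s = true` iff
`c m [x_1, …, x_k] = some x_0`. Let `H` be an infinite homogeneous set; it contains an increasing sequence `h_0 < h_1 < …` (well-order: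
`Nat.orderEmbeddingOfSet`-like, e.g. `exists_seq_of_forall…`, or take a minimal element of the rest at each step). Claim: `h_j ∉ C [h_{j+1}, …, h_{j+k}]` for all `j, k`. Otherwise
`c m [h_{j+1}, …, h_{j+k}] = some h_j` for some `m`; let `n = Nat.pair k m ≥ k`. The set `{h_j, …, h_{j+n}}` has the colour `true`, so the sets
`{h_j, h_{j+2}, …, h_{j+n+1}}` and `{h_{j+1}, h_{j+2}, …, h_{j+n+1}}` have the colour `true`; so `c m [h_{j+2}, …, h_{j+k+1}] = some h_j` and `= some h_{j+1}`, a
contradiction. (`f s`: e.g. with `s.sort (· ≤ ·) = x_0 :: l`, `f s = decide (c m (l.take k) = some x_0)`.)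
-/

set_option autoImplicit false

open Set

namespace Pool.Agent.H47Q

/-- an enumeration of a countable set -/
theorem erd_enum {K : Type} (S : Set K) (hS : S.Countable) :
    ∃ c : ℕ → Option K, ∀ x, x ∈ S ↔ ∃ m, c m = some x := by
  rcases S.eq_empty_or_nonempty with h | h
  · exact ⟨fun _ => none, fun x => by simp [h]⟩
  · obtain ⟨f, hf⟩ := hS.exists_eq_range h
    refine ⟨fun n => some (f n), fun x => ?_⟩
    rw [hf]
    simp

theorem erd_seg_length {K : Type} (τ : ℕ → K) (n : ℕ) : ∀ j, (seg τ j n).length = n := by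
  induction n with
  | zero => intro j; rfl
  | succ n ih => intro j; simp [seg, ih]

theorem erd_seg_take {K : Type} (τ : ℕ → K) (n : ℕ) : ∀ j k, k ≤ n →
    (seg τ j n).take k = seg τ j k := by
  induction n with
  | zero => intro j k hk; obtain rfl : k = 0 := by omega
            rfl
  | succ n ih =>
    intro j k hk
    cases k with
    | zero => rfl
    | succ k => simp only [seg, List.take_succ_cons]; rw [ih (j + 1) k (by omega)]

theorem erd_mem_seg {K : Type} (τ : ℕ → K) (n : ℕ) : ∀ j x, x ∈ seg τ j n →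
    ∃ i, j < i ∧ x = τ i := by
  induction n with
  | zero => intro j x hx; simp [seg] at hx
  | succ n ih =>
    intro j x hx
    simp only [seg, List.mem_cons] at hx
    rcases hx with rfl | hx
    · exact ⟨j + 1, by omega, rfl⟩
    · obtain ⟨i, hi, rfl⟩ := ih _ _ hx
      exact ⟨i, by omega, rfl⟩

theorem erd_seg_sorted {K : Type} [LinearOrder K] (τ : ℕ → K) (hτ : StrictMono τ) (n : ℕ) :
    ∀ j, (seg τ j n).Pairwise (· < ·) := by
  induction n with
  | zero => intro j; exact List.Pairwise.nil
  | succ n ih =>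
    intro j
    refine List.Pairwise.cons (fun x hx => ?_) (ih (j + 1))
    obtain ⟨i, hi, rfl⟩ := erd_mem_seg τ n _ _ hx
    exact hτ hi

theorem free_of_erdos {K : Type} (h : Erdos K) : Free K := by
  classical
  intro C hC
  choose c hc using fun l => erd_enum (C l) (hC l)
  obtain ⟨_, hwf⟩ := exists_wellFoundedLT K
  let g : List K → Bool := fun l => match l with
    | [] => false
    | a :: l => decide (c (l.take (Nat.unpair l.length).1) (Nat.unpair l.length).2 = some a)
  obtain ⟨H, hinf, hH⟩ := h fun s => g (s.sort (· ≤ ·))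
  -- a strictly increasing sequence in `H`
  obtain ⟨τ, hτ, hτH⟩ : ∃ τ : ℕ → K, StrictMono τ ∧ ∀ i, τ i ∈ H := by
    have : Infinite H := hinf.to_subtype
    let e := Infinite.natEmbedding H
    obtain ⟨u, hu | hu⟩ := exists_increasing_or_nonincreasing_subseq (· < ·) fun i => (e i : K)
    · exact ⟨fun i => (e (u i) : K), fun m n hmn => hu m n hmn, fun i => (e (u i)).2⟩
    · exfalso
      refine (RelEmbedding.wellFounded_iff_isEmpty (r := ((· < ·) : K → K → Prop))).1
        hwf.wf |>.elim' ?_
      refine RelEmbedding.natGT (fun i => (e (u i) : K)) fun n => ?_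
      have h1 := hu n (n + 1) (Nat.lt_succ_self n)
      refine lt_of_le_of_ne (not_lt.1 h1) fun h2 => ?_
      have h3 := e.injective (Subtype.ext h2)
      have h4 := u.injective h3
      omega
  have hcol : ∀ l l' : List K, l.Pairwise (· < ·) → l'.Pairwise (· < ·) → (∀ x ∈ l, x ∈ H) →
      (∀ x ∈ l', x ∈ H) → l.length = l'.length → g l = g l' := by
    intro l l' hl hl' hlH hlH' hlen
    have key : ∀ l : List K, l.Pairwise (· < ·) → l.toFinset.sort (· ≤ ·) = l := by
      intro l hl
      exact (List.toFinset_sort (· ≤ ·) (hl.imp fun h => h.ne)).2 (hl.imp fun h => h.le)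
    have h1 := hH l.toFinset l'.toFinset (fun x hx => hlH x (by simpa using hx))
      (fun x hx => hlH' x (by simpa using hx))
      (by rw [List.toFinset_card_of_nodup (hl.imp fun h => h.ne),
            List.toFinset_card_of_nodup (hl'.imp fun h => h.ne), hlen])
    simp only [key l hl, key l' hl'] at h1
    exact h1
  refine ⟨τ, fun j k hjk => ?_⟩
  obtain ⟨m, hm⟩ := (hc _ _).1 hjk
  set n := Nat.pair k m with hn
  have hkn : k ≤ n := Nat.left_le_pair k m
  have hg : ∀ a i, g (a :: seg τ i n) = decide (c (seg τ i k) m = some a) := by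
    intro a i
    have : Nat.unpair n = (k, m) := by rw [hn, Nat.unpair_pair]
    simp only [g, erd_seg_length, this, erd_seg_take τ n i k hkn]
  have hs : ∀ i i', i' ≤ i → (τ i' :: seg τ i n).Pairwise (· < ·) := by
    intro i i' hi
    refine List.Pairwise.cons (fun x hx => ?_) (erd_seg_sorted τ hτ n i)
    obtain ⟨q, hq, rfl⟩ := erd_mem_seg τ n _ _ hx
    exact hτ (by omega)
  have hsH : ∀ i i', ∀ x ∈ τ i' :: seg τ i n, x ∈ H := by
    intro i i' x hx
    rcases List.mem_cons.1 hx with rfl | hx
    · exact hτH _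
    · obtain ⟨q, hq, rfl⟩ := erd_mem_seg τ n _ _ hx
      exact hτH _
  have h1 : g (τ j :: seg τ j n) = true := by rw [hg]; simpa using hm
  have h2 : g (τ j :: seg τ (j + 1) n) = true := by
    rw [← h1]
    exact hcol _ _ (hs _ _ (by omega)) (hs _ _ le_rfl) (hsH _ _) (hsH _ _)
      (by simp [erd_seg_length])
  have h3 : g (τ (j + 1) :: seg τ (j + 1) n) = true := by
    rw [← h1]
    exact hcol _ _ (hs _ _ (by omega)) (hs _ _ le_rfl) (hsH _ _) (hsH _ _)
      (by simp [erd_seg_length])
  rw [hg] at h2 h3
  have h4 := of_decide_eq_true h2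
  have h5 := of_decide_eq_true h3
  rw [h4] at h5
  have h6 := hτ (Nat.lt_succ_self j)
  rw [Option.some_injective _ h5] at h6
  exact lt_irrefl _ h6

end Pool.Agent.H47Q
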