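import Pool.Agent.Lib.H30C.ZDia
import Pool.Agent.Lib.H96D.S1
import Pool.Agent.Lib.EHM47.Main

/-!
# Diamond implies that property (P) fails for some limit ordinal
-/

set_option autoImplicit false

open Set Ordinal Cardinal

namespace Pool.Agent.H47Q

open Pool.Agent.H5Z Pool.Agent.H30C Pool.Agent.Lib.EHM47

theorem not_all_of_dia (h : DiaIn EZ) :
    ¬ ∀ α : Ordinal.{0}, Order.IsSuccLimit α → PropP α := by
  intro hQ
  have hCH : (2 : Cardinal.{0}) ^ ℵ₀ = Order.succ ℵ₀ := by
    have h1 := Pool.Agent.H96D.ch_of_diamond (dia_of_in h)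
    rw [← Cardinal.two_power_aleph0] at h1
    rw [h1, Cardinal.succ_aleph0]
  have hlim : Order.IsSuccLimit (Order.succ (ℵ₀ : Cardinal.{0})).ord :=
    isSuccLimit_ord (le_rfl.trans (Order.le_succ _))
  have ho : (ℵ₀ : Cardinal.{0}).ord = ω := Cardinal.ord_aleph0
  refine not_propP ℵ₀ le_rfl hCH ω ?_ ?_ (hQ _ ?_)
  · rw [Ordinal.card_omega0]
    exact Order.le_succ _
  · rw [ho]
    exact assigned_zero _ (lt_of_lt_of_le omega0_pos (omega0_le_of_isSuccLimit hlim))
  · exact isSuccLimit_opow_left hlim (lt_of_lt_of_le two_pos le_add_self).ne'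

end Pool.Agent.H47Q
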