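import Pool.Agent.Lib.H47Q.MSupp

/-!
# Chunk MCOH: the Boolean-valued Martin's axiom for Cohen reals

`K` infinite, `#K < #I`, `D : K → K → RO (Co I)`. Take `S` from `exists_supp`. The complement of `S` has cardinality `#I > #K`, so there is
an injective `j : K → I` with `j x ∉ S` for all `x`. Let `c x = RO.gen {⟨∅, {j x}, _⟩}`. A condition `r` with
`j x ∈ r.o` is in `(c x).s`, a condition `r` with `j x ∈ r.z` is in `((c x)ᶜ).s`.
Let `p0 ∈ (dnsB d D).s`, `i : K`, `p ≤ p0`. We need `r* ≤ p` and `q : K` with `r* ∈ (D i q).s`, and `r* ∈ (tv (x ∈ zz q) ⇨ (c x)ᶜ).s`,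
`r* ∈ (tv (x ∈ oo q) ⇨ c x).s` for all `x`. Let `u : K` with `zz u = {x | j x ∈ p.z}`, `oo u = {x | j x ∈ p.o}` (finite since `j` is injective; disjoint). By
`p ∈ (dnsB d D).s` for `i`, `u` there are `r ≤ p` and `q` with `r ∈ (D i q).s`, `zz u ⊆ zz q`, `oo u ⊆ oo q` (`mem_tv`). Then `r.res S ∈ (D i q).s`. Let
`r*.z = (r.res S).z ∪ (p.res Sᶜ).z ∪ j '' (zz q)`, `r*.o = (r.res S).o ∪ (p.res Sᶜ).o ∪ j '' (oo q)`. They are disjoint: the points of the first sets are in `S`, the other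
ones are not in `S`; `j x ∈ p.z` implies `x ∈ zz u ⊆ zz q`, so `x ∉ oo q`, and similarly for `p.o`, `zz q`. `r* ≤ p` because `p.res S ≥ r.res S` (`r ≤ p`).
-/

set_option autoImplicit false

open Set Function Cardinal

namespace Pool.Agent.H47Q

open Pool.Agent.H5Z Pool.Agent.H30C

theorem bcoh {K I : Type} [Infinite K] (hI : #K < #I) (d : PData K) (D : K → K → RO (Co I)) :
    ∃ c : K → RO (Co I), dnsB d D ≤ meetB d D c := by
  classical
  obtain ⟨S, hS, hsupp⟩ := exists_supp D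
  have hK : ℵ₀ ≤ #K := Cardinal.aleph0_le_mk K
  -- the new coordinates
  obtain ⟨j, hjinj, hjS⟩ : ∃ j : K → I, Injective j ∧ ∀ x, j x ∉ S := by
    have h1 : #K ≤ #(Sᶜ : Set I) := by
      by_contra hlt
      push Not at hlt
      have h2 : #S + #(Sᶜ : Set I) = #I := Cardinal.mk_sum_compl S
      have h3 : #S + #(Sᶜ : Set I) ≤ #K + #K := add_le_add hS hlt.le
      rw [h2, Cardinal.add_eq_self hK] at h3
      exact absurd hI (not_lt.2 h3)
    obtain ⟨e⟩ := h1
    exact ⟨fun x => (e x).1, fun x y hxy => e.injective (Subtype.ext hxy), fun x => (e x).2⟩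
  refine ⟨fun x => RO.gen {⟨∅, {j x}, Finset.disjoint_empty_left _⟩}, ?_⟩
  have hc1 : ∀ (r : Co I) (x : K), j x ∈ r.o →
      r ∈ (RO.gen {(⟨∅, {j x}, Finset.disjoint_empty_left _⟩ : Co I)}).s := by
    intro r x hx q hq
    refine ⟨q, le_rfl, _, rfl, Finset.empty_subset _, ?_⟩
    exact Finset.singleton_subset_iff.2 (hq.2 hx)
  have hc0 : ∀ (r : Co I) (x : K), j x ∈ r.z →
      r ∈ ((RO.gen {(⟨∅, {j x}, Finset.disjoint_empty_left _⟩ : Co I)})ᶜ).s := by
    intro r x hx
    rw [RO.mem_compl]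
    intro q hq hq'
    obtain ⟨r', hr', a, ha, hra⟩ := hq' q le_rfl
    rw [Set.mem_singleton_iff] at ha
    subst ha
    have h1 : j x ∈ r'.o := hra.2 (Finset.mem_singleton_self _)
    have h2 : j x ∈ r'.z := hr'.1 (hq.1 hx)
    exact Finset.disjoint_left.1 r'.disj h2 h1
  intro p0 hp0
  unfold meetB
  rw [RO.mem_iInf]
  intro i
  rw [RO.mem_iSup]
  intro p hp
  have hp' : p ∈ (dnsB d D).s := (dnsB d D).lower hp0 hp
  -- the code of the part of `p` on the new coordinates
  obtain ⟨u, hu1, hu2⟩ := d.sur (p.z.preimage j hjinj.injOn) (p.o.preimage j hjinj.injOn) (by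
    rw [Finset.disjoint_left]
    intro x hx hx'
    rw [Finset.mem_preimage] at hx hx'
    exact Finset.disjoint_left.1 p.disj hx hx')
  unfold dnsB at hp'
  have h1 := (RO.mem_iInf _ _).1 ((RO.mem_iInf _ _).1 hp' i) u
  obtain ⟨r, hr, q, hrq⟩ := (RO.mem_iSup _ _).1 h1 p le_rfl
  rw [RO.mem_inf, RO.mem_inf] at hrq
  obtain ⟨hrD, hrz, hro⟩ := hrq
  have hzz : ∀ x, x ∈ d.zz u → x ∈ d.zz q := by
    intro x hx
    have h2 := (RO.mem_iInf _ _).1 hrz x
    rw [RO.mem_himp] at h2
    exact (mem_tv _ r).1 (h2 r le_rfl ((mem_tv _ r).2 hx))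
  have hoo : ∀ x, x ∈ d.oo u → x ∈ d.oo q := by
    intro x hx
    have h2 := (RO.mem_iInf _ _).1 hro x
    rw [RO.mem_himp] at h2
    exact (mem_tv _ r).1 (h2 r le_rfl ((mem_tv _ r).2 hx))
  have hres := hsupp i q r hrD
  have hdis : Disjoint (r.z.filter (· ∈ S) ∪ (p.z.filter (· ∉ S) ∪ (d.zz q).image j))
      (r.o.filter (· ∈ S) ∪ (p.o.filter (· ∉ S) ∪ (d.oo q).image j)) := by
    rw [Finset.disjoint_left]
    intro x hx hx'
    simp only [Finset.mem_union, Finset.mem_filter, Finset.mem_image] at hx hx'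
    rcases hx with ⟨h2, h3⟩ | ⟨h2, h3⟩ | ⟨y, h2, rfl⟩
    · rcases hx' with ⟨h4, h5⟩ | ⟨h4, h5⟩ | ⟨y', h4, h5⟩
      · exact Finset.disjoint_left.1 r.disj h2 h4
      · exact h5 h3
      · exact hjS y' (h5 ▸ h3)
    · rcases hx' with ⟨h4, h5⟩ | ⟨h4, h5⟩ | ⟨y', h4, h5⟩
      · exact h3 h5
      · exact Finset.disjoint_left.1 p.disj h2 h4
      · subst h5
        have h6 : y' ∈ d.zz u := by
          rw [hu1, Finset.mem_preimage]
          exact h2
        exact Finset.disjoint_left.1 (d.disj q) (hzz y' h6) h4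
    · rcases hx' with ⟨h4, h5⟩ | ⟨h4, h5⟩ | ⟨y', h4, h5⟩
      · exact hjS y h5
      · have h6 : y ∈ d.oo u := by
          rw [hu2, Finset.mem_preimage]
          exact h4
        exact Finset.disjoint_left.1 (d.disj q) h2 (hoo y h6)
      · have h6 := hjinj h5
        subst h6
        exact Finset.disjoint_left.1 (d.disj q) h2 h4
  refine ⟨⟨_, _, hdis⟩, ?_, q, ?_⟩
  · constructor
    · intro x hx
      simp only [Finset.mem_union, Finset.mem_filter, Finset.mem_image]
      by_cases hxS : x ∈ S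
      · exact Or.inl ⟨hr.1 hx, hxS⟩
      · exact Or.inr (Or.inl ⟨hx, hxS⟩)
    · intro x hx
      simp only [Finset.mem_union, Finset.mem_filter, Finset.mem_image]
      by_cases hxS : x ∈ S
      · exact Or.inl ⟨hr.2 hx, hxS⟩
      · exact Or.inr (Or.inl ⟨hx, hxS⟩)
  · rw [RO.mem_inf, RO.mem_inf]
    refine ⟨?_, ?_, ?_⟩
    · refine (D i q).lower hres ?_
      constructor
      · intro x hx
        unfold Co.res at hx
        simp only [Finset.mem_filter] at hx
        simp only [Finset.mem_union, Finset.mem_filter]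
        exact Or.inl hx
      · intro x hx
        unfold Co.res at hx
        simp only [Finset.mem_filter] at hx
        simp only [Finset.mem_union, Finset.mem_filter]
        exact Or.inl hx
    · rw [RO.mem_iInf]
      intro x
      rw [RO.mem_himp]
      intro r' hr' hx
      rw [mem_tv] at hx
      refine hc0 r' x (hr'.1 ?_)
      simp only [Finset.mem_union, Finset.mem_image]
      exact Or.inr (Or.inr ⟨x, hx, rfl⟩)
    · rw [RO.mem_iInf]
      intro x
      rw [RO.mem_himp]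
      intro r' hr' hx
      rw [mem_tv] at hx
      refine hc1 r' x (hr'.2 ?_)
      simp only [Finset.mem_union, Finset.mem_image]
      exact Or.inr (Or.inr ⟨x, hx, rfl⟩)

end Pool.Agent.H47Q
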