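import Pool.Agent.Lib.H47Q.MDefs

/-!
# Chunk MDATA: existence of pairing functions

* `exists_pdata`: `K` is infinite; choose `o : K`; `#{z // z ≠ o} = #K = #(K × K)` gives the bijection;
  `#(Finset K × Finset K) = #K` gives a surjection from `K` onto the (nonempty) set of pairs of disjoint finite sets.
* `infinite_of_free`: if `K` is countable take `C l = univ`: there is no free sequence.
-/

set_option autoImplicit false

open Set Function Cardinal

namespace Pool.Agent.H47Q

variable {K : Type}

theorem infinite_of_free (h : Free K) : Infinite K := by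
  by_contra hK
  rw [not_infinite_iff_finite] at hK
  obtain ⟨τ, hτ⟩ := h (fun _ => Set.univ) (fun _ => Set.countable_univ)
  exact hτ 0 0 (Set.mem_univ _)

theorem exists_pdata (K : Type) [Infinite K] : Nonempty (PData K) := by
  classical
  obtain ⟨o⟩ : Nonempty K := inferInstance
  have hK : ℵ₀ ≤ #K := Cardinal.aleph0_le_mk K
  have h1 : #(({o}ᶜ : Set K)) = #(K × K) := by
    rw [Cardinal.mk_compl_of_infinite, Cardinal.mk_prod, Cardinal.lift_id,
      Cardinal.mul_eq_self hK]
    rw [Cardinal.mk_singleton]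
    exact Cardinal.one_lt_aleph0.trans_le hK
  obtain ⟨e⟩ := Cardinal.eq.mp h1
  have h2 : #{p : Finset K × Finset K // Disjoint p.1 p.2} ≤ #K := by
    refine (Cardinal.mk_subtype_le _).trans ?_
    rw [Cardinal.mk_prod, Cardinal.lift_id, Cardinal.mk_finset_of_infinite,
      Cardinal.mul_eq_self hK]
  obtain ⟨g⟩ := Cardinal.le_def _ _ |>.mp h2
  have : Nonempty {p : Finset K × Finset K // Disjoint p.1 p.2} :=
    ⟨⟨(∅, ∅), disjoint_bot_left⟩⟩
  refine ⟨{
    o := o
    hd := fun z => if h : z = o then o else (e ⟨z, h⟩).1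
    tl := fun z => if h : z = o then o else (e ⟨z, h⟩).2
    surj := ?_
    inj := ?_
    zz := fun p => (invFun g p).1.1
    oo := fun p => (invFun g p).1.2
    disj := fun p => (invFun g p).2
    sur := ?_ }⟩
  · intro x y
    refine ⟨(e.symm (x, y)).1, (e.symm (x, y)).2, ?_, ?_⟩
    · have hne : (e.symm (x, y)).1 ≠ o := (e.symm (x, y)).2
      rw [dif_neg hne]
      have : (⟨(e.symm (x, y)).1, hne⟩ : ({o}ᶜ : Set K)) = e.symm (x, y) := rfl
      rw [this, Equiv.apply_symm_apply]
    · have hne : (e.symm (x, y)).1 ≠ o := (e.symm (x, y)).2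
      rw [dif_neg hne]
      have : (⟨(e.symm (x, y)).1, hne⟩ : ({o}ᶜ : Set K)) = e.symm (x, y) := rfl
      rw [this, Equiv.apply_symm_apply]
  · intro z z' hz hz' h1 h2
    rw [dif_neg hz, dif_neg hz'] at h1 h2
    have h3 : e ⟨z, hz⟩ = e ⟨z', hz'⟩ := Prod.ext h1 h2
    exact congrArg Subtype.val (e.injective h3)
  · intro u v huv
    refine ⟨g ⟨(u, v), huv⟩, ?_, ?_⟩
    · rw [leftInverse_invFun g.injective]
    · rw [leftInverse_invFun g.injective]

end Pool.Agent.H47Q
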