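import Pool.Agent.Lib.H47Q.MDefs

/-!
# The Cohen poset

`Co I` is the poset of finite partial functions from `I` to `{0, 1}`, `z` the set where the value is 0, `o` the set where
it is 1; `p ≤ q` if `p` extends `q`.
-/

set_option autoImplicit false

open Set Function Cardinal

namespace Pool.Agent.H47Q

open Pool.Agent.H5Z Pool.Agent.H30C

/-- finite partial functions from `I` to `{0, 1}` -/
structure Co (I : Type) where
  z : Finset I
  o : Finset I
  disj : Disjoint z o

instance (I : Type) : Preorder (Co I) where
  le p q := q.z ⊆ p.z ∧ q.o ⊆ p.o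
  le_refl p := ⟨Finset.Subset.refl _, Finset.Subset.refl _⟩
  le_trans p q r h1 h2 := ⟨h2.1.trans h1.1, h2.2.trans h1.2⟩

theorem Co.le_def {I : Type} (p q : Co I) : p ≤ q ↔ q.z ⊆ p.z ∧ q.o ⊆ p.o := Iff.rfl

/-- restriction of a condition -/
noncomputable def Co.res {I : Type} (p : Co I) (S : Set I) : Co I :=
  open Classical in
  { z := p.z.filter (· ∈ S)
    o := p.o.filter (· ∈ S)
    disj := Finset.disjoint_of_subset_left (Finset.filter_subset _ _)
      (Finset.disjoint_of_subset_right (Finset.filter_subset _ _) p.disj) }

end Pool.Agent.H47Q
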