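import Pool.Agent.Lib.H47Q.MClo
import Pool.Agent.Lib.H47Q.MCo

/-!
# Chunk MDESC: the Boolean-valued decreasing sequences

Let `P` be a ccc preorder, `Free K`, `F : K → K → RO P`. To show: `funB F ≤ ⨆ X, descB d F X`. Let `p ∈ (funB F).s`.
Let `D z = {x | ∃ q ≤ p, q ∈ (F z x).s}`. It is countable: for `x ∈ D z` choose `q_x ≤ p` with `q_x ∈ (F z x).s`; for `x ≠ y` the conditions `q_x`, `q_y` are
incompatible, since `p` is in `funB F` (compare the proof of `PCcc.bddK` in `H30C/Gen.lean`). Take `X` from `exists_desc` for this `D` and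
`X' n x = tv (RO P) (x ∈ X n)`. Then `p ∈ (descB d F X').s`: `RO.mem_iInf`, `RO.mem_inf`, `RO.mem_himp`, `mem_tv`, `RO.mem_iSup`, `RO.mem_compl`. For
the third part: if `q ≤ p`, `q ∈ (F z x).s` and `z ∈ X n` then `x ∈ D z ⊆ X n`.
-/

set_option autoImplicit false

open Set Function Cardinal

namespace Pool.Agent.H47Q

open Pool.Agent.H5Z Pool.Agent.H30C

theorem bdesc {K P : Type} [Preorder P] (hP : PCcc P) (h : Free K) (d : PData K)
    (F : K → K → RO P) : funB F ≤ ⨆ X : ℕ → K → RO P, descB d F X := by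
  classical
  intro p hp
  rw [RO.mem_iSup]
  intro q hq
  have hfun : ∀ n x y, ∀ r ≤ q, r ∈ (F n x).s → r ∈ (F n y).s → x = y := by
    intro n x y r hr hx hy
    have h2 : r ∈ (funB F).s := (funB F).lower hp (hr.trans hq)
    unfold funB at h2
    have h3 := (RO.mem_iInf _ _).1 ((RO.mem_iInf _ _).1 ((RO.mem_iInf _ _).1 h2 n) x) y
    rw [RO.mem_himp] at h3
    have h4 := h3 r le_rfl hx
    rw [RO.mem_himp] at h4
    exact (mem_tv _ r).1 (h4 r le_rfl hy)
  have hc : ∀ n, {x | ∃ r ≤ q, r ∈ (F n x).s}.Countable := by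
    intro n
    have hr : ∀ x : K, ∃ r : P, (∃ r ≤ q, r ∈ (F n x).s) → r ≤ q ∧ r ∈ (F n x).s := by
      intro x
      by_cases h : ∃ r ≤ q, r ∈ (F n x).s
      · obtain ⟨r, h1⟩ := h
        exact ⟨r, fun _ => h1⟩
      · exact ⟨q, fun h' => absurd h' h⟩
    choose g hg using hr
    have hinj : InjOn g {x | ∃ r ≤ q, r ∈ (F n x).s} := by
      intro x hx y hy hxy
      have h1 := hg x hx
      have h2 := hg y hy
      rw [hxy] at h1
      exact hfun n x y _ h1.1 h1.2 h2.2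
    refine Set.countable_of_injective_of_countable_image hinj (hP _ ?_)
    rintro _ ⟨x, hx, rfl⟩ _ ⟨y, hy, rfl⟩ hne ⟨r, h1, h2⟩
    have hx' := hg x hx
    have hy' := hg y hy
    have := hfun n x y r (h1.trans hx'.1) ((F n x).lower hx'.2 h1) ((F n y).lower hy'.2 h2)
    exact hne (by rw [this])
  obtain ⟨X, hX⟩ := exists_desc h d (fun z => {x | ∃ r ≤ q, r ∈ (F z x).s}) hc
  refine ⟨q, le_rfl, fun n x => tv (RO P) (x ∈ X n), ?_⟩
  unfold descB
  rw [RO.mem_iInf]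
  intro n
  obtain ⟨h1, h2, h3, h4⟩ := hX n
  rw [RO.mem_inf, RO.mem_inf, RO.mem_inf]
  refine ⟨(mem_tv _ _).2 h1, ?_, ?_, ?_⟩
  · rw [RO.mem_iInf]
    intro z
    rw [RO.mem_iInf]
    intro x
    rw [RO.mem_iInf]
    intro y
    rw [RO.mem_himp]
    intro r _ hr
    rw [RO.mem_himp]
    intro s _ hs
    rw [RO.mem_himp]
    intro t _ ht
    rw [RO.mem_himp]
    intro u _ hu
    rw [mem_tv] at hr hs ht hu ⊢
    obtain ⟨e1, e2⟩ := hr
    obtain ⟨_, e3⟩ := hs
    rw [← e2] at ht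
    rw [← e3] at hu
    exact h2 z e1 ht hu
  · rw [RO.mem_iInf]
    intro z
    rw [RO.mem_iInf]
    intro x
    rw [RO.mem_himp]
    intro r hr hx
    rw [RO.mem_himp]
    intro s _ hs
    rw [mem_tv] at hs ⊢
    exact h3 z hs ⟨r, hr, hx⟩
  · rw [RO.mem_iInf]
    intro m
    rw [RO.mem_himp]
    intro r _ hr
    rw [mem_tv] at hr
    obtain ⟨h5, x, h6, h7⟩ := h4 m hr
    rw [RO.mem_inf]
    refine ⟨?_, ?_⟩
    · rw [RO.mem_iInf]
      intro y
      rw [RO.mem_himp]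
      intro s _ hs
      rw [mem_tv] at hs ⊢
      exact h5 hs
    · rw [RO.mem_iSup]
      intro s _
      refine ⟨s, le_rfl, x, ?_⟩
      rw [RO.mem_inf, RO.mem_compl]
      refine ⟨(mem_tv _ _).2 h6, fun t _ ht => ?_⟩
      exact h7 ((mem_tv _ _).1 ht)

end Pool.Agent.H47Q
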