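import Pool.Agent.Lib.H47Q.TDefs

/-!
# Chunk TCOH: dense sets and generic sets in the quotient structure

Follow `Tv.den`, `Tv.gen` in `H30C/TMA.lean`; `memB_ZN`, `memB_ON`.
-/

set_option autoImplicit false

open Set Function

namespace Pool.Agent.H47Q

open Pool.Agent.H5Z Pool.Agent.H30C BSet Fml

variable {B : Type} [CompleteBooleanAlgebra B] {K : Type} [LinearOrder K] [WellFoundedLT K]

theorem Tv.dns (U : UF B) (d : PData K) (r : BSet B) :
    Tv U (dnsB d (relV K r)) (IsDnsIn (EU U) (cls U (KB K B)) (cls U (ZN B d)) (cls U (ON B d))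
      (cls U r)) := by
  have h : Tv U (⨅ i : K, ⨅ p : K, ⨆ q : K, memB (opair (kchk B i) (kchk B q)) r ⊓
      ((⨅ x : K, memB (opair (kchk B p) (kchk B x)) (ZN B d) ⇨
        memB (opair (kchk B q) (kchk B x)) (ZN B d)) ⊓
      ⨅ x : K, memB (opair (kchk B p) (kchk B x)) (ON B d) ⇨
        memB (opair (kchk B q) (kchk B x)) (ON B d)))
      (IsDnsIn (EU U) (cls U (KB K B)) (cls U (ZN B d)) (cls U (ON B d)) (cls U r)) := by
    refine Tv.allK (F := fun i => ⨅ p : K, ⨆ q : K, memB (opair i (kchk B q)) r ⊓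
      ((⨅ x : K, memB (opair (kchk B p) (kchk B x)) (ZN B d) ⇨
        memB (opair (kchk B q) (kchk B x)) (ZN B d)) ⊓
      ⨅ x : K, memB (opair (kchk B p) (kchk B x)) (ON B d) ⇨
        memB (opair (kchk B q) (kchk B x)) (ON B d))) ?_ fun i => ?_
    · exact E1_extB_iInf fun p => E1_extB_iSup fun q => E1_extB_inf (extB_pairL _ _)
        (E1_extB_const _)
    refine Tv.allK (F := fun p => ⨆ q : K, memB (opair i (kchk B q)) r ⊓
      ((⨅ x : K, memB (opair p (kchk B x)) (ZN B d) ⇨
        memB (opair (kchk B q) (kchk B x)) (ZN B d)) ⊓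
      ⨅ x : K, memB (opair p (kchk B x)) (ON B d) ⇨
        memB (opair (kchk B q) (kchk B x)) (ON B d))) ?_ fun p => ?_
    · exact E1_extB_iSup fun q => E1_extB_inf (E1_extB_const _)
        (E1_extB_inf (E1_extB_iInf fun x => E1_extB_himp (extB_pairL _ _) (E1_extB_const _))
          (E1_extB_iInf fun x => E1_extB_himp (extB_pairL _ _) (E1_extB_const _)))
    refine Tv.exK (F := fun q => memB (opair i q) r ⊓
      ((⨅ x : K, memB (opair p (kchk B x)) (ZN B d) ⇨ memB (opair q (kchk B x)) (ZN B d)) ⊓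
      ⨅ x : K, memB (opair p (kchk B x)) (ON B d) ⇨ memB (opair q (kchk B x)) (ON B d))) ?_
      fun q => (Tv.rel i q r).and (Tv.and ?_ ?_)
    · exact E1_extB_inf (extB_pairR _ _)
        (E1_extB_inf (E1_extB_iInf fun x => E1_extB_himp (E1_extB_const _) (extB_pairL _ _))
          (E1_extB_iInf fun x => E1_extB_himp (E1_extB_const _) (extB_pairL _ _)))
    · refine Tv.allK (F := fun x => memB (opair p x) (ZN B d) ⇨ memB (opair q x) (ZN B d)) ?_
        fun x => (Tv.rel p x _).imp (Tv.rel q x _)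
      exact E1_extB_himp (extB_pairR _ _) (extB_pairR _ _)
    · refine Tv.allK (F := fun x => memB (opair p x) (ON B d) ⇨ memB (opair q x) (ON B d)) ?_
        fun x => (Tv.rel p x _).imp (Tv.rel q x _)
      exact E1_extB_himp (extB_pairR _ _) (extB_pairR _ _)
  simp only [memB_ZN, memB_ON] at h
  exact h

theorem Tv.meet (U : UF B) (d : PData K) (r c : BSet B) :
    Tv U (meetB d (relV K r) (setV K c)) (IsMeetIn (EU U) (cls U (KB K B)) (cls U (ZN B d))
      (cls U (ON B d)) (cls U r) (cls U c)) := by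
  have h : Tv U (⨅ i : K, ⨆ q : K, memB (opair (kchk B i) (kchk B q)) r ⊓
      ((⨅ x : K, memB (opair (kchk B q) (kchk B x)) (ZN B d) ⇨ (memB (kchk B x) c)ᶜ) ⊓
      ⨅ x : K, memB (opair (kchk B q) (kchk B x)) (ON B d) ⇨ memB (kchk B x) c))
      (IsMeetIn (EU U) (cls U (KB K B)) (cls U (ZN B d)) (cls U (ON B d)) (cls U r)
        (cls U c)) := by
    refine Tv.allK (F := fun i => ⨆ q : K, memB (opair i (kchk B q)) r ⊓
      ((⨅ x : K, memB (opair (kchk B q) (kchk B x)) (ZN B d) ⇨ (memB (kchk B x) c)ᶜ) ⊓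
      ⨅ x : K, memB (opair (kchk B q) (kchk B x)) (ON B d) ⇨ memB (kchk B x) c)) ?_ fun i => ?_
    · exact E1_extB_iSup fun q => E1_extB_inf (extB_pairL _ _) (E1_extB_const _)
    refine Tv.exK (F := fun q => memB (opair i q) r ⊓
      ((⨅ x : K, memB (opair q (kchk B x)) (ZN B d) ⇨ (memB (kchk B x) c)ᶜ) ⊓
      ⨅ x : K, memB (opair q (kchk B x)) (ON B d) ⇨ memB (kchk B x) c)) ?_
      fun q => (Tv.rel i q r).and (Tv.and ?_ ?_)
    · exact E1_extB_inf (extB_pairR _ _)
        (E1_extB_inf (E1_extB_iInf fun x => E1_extB_himp (extB_pairL _ _) (E1_extB_const _))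
          (E1_extB_iInf fun x => E1_extB_himp (extB_pairL _ _) (E1_extB_const _)))
    · refine Tv.allK (F := fun x => memB (opair q x) (ZN B d) ⇨ (memB x c)ᶜ) ?_
        fun x => (Tv.rel q x _).imp (Tv.mem x c).not
      exact E1_extB_himp (extB_pairR _ _) (E1_extB_compl (extB_memB_left _))
    · refine Tv.allK (F := fun x => memB (opair q x) (ON B d) ⇨ memB x c) ?_
        fun x => (Tv.rel q x _).imp (Tv.mem x c)
      exact E1_extB_himp (extB_pairR _ _) (extB_memB_left _)
  simp only [memB_ZN, memB_ON] at h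
  exact h

end Pool.Agent.H47Q
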