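import Pool.Agent.Lib.H47Q.TDefs

/-!
# Chunk TDESC: decreasing sequences in the quotient structure

`Tv.desc`: the truth value of `IsDescIn` for names `f` of `F` and `g` of `X`: follow `Tv.gen` etc. in `H30C/TMA.lean`, with `Tv.allW` for the quantifiers over the natural numbers.
The value of `nchk n ∈ nchk m` is `⊤` if `n < m` and `⊥` otherwise (look for it in `H5Z`); `memB_HN`, `memB_TN`.
-/

set_option autoImplicit false

open Set Function

namespace Pool.Agent.H47Q

open Pool.Agent.H5Z Pool.Agent.H30C BSet Fml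

variable {B : Type} [CompleteBooleanAlgebra B] {K : Type} [LinearOrder K] [WellFoundedLT K]

theorem memB_nchk_tv (m n : ℕ) : memB (nchk m : BSet B) (nchk n) = tv B (m < n) := by
  rw [memB_nchk]
  unfold tv
  by_cases h : m < n
  · rw [if_pos h, if_pos h]
  · rw [if_neg h, if_neg h]

theorem Tv.desc_close (U : UF B) (h t g n : BSet B) :
    Tv U (⨅ z : K, ⨅ x : K, ⨅ y : K, memB (opair (kchk B z) (kchk B x)) h ⇨
      (memB (opair (kchk B z) (kchk B y)) t ⇨ (memB (opair n (kchk B x)) g ⇨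
        (memB (opair n (kchk B y)) g ⇨ memB (opair n (kchk B z)) g))))
      (∀ z, EU U z (cls U (KB K B)) → ∀ x, EU U x (cls U (KB K B)) →
        ∀ y, EU U y (cls U (KB K B)) → Rel (EU U) z x (cls U h) → Rel (EU U) z y (cls U t) →
          Rel (EU U) (cls U n) x (cls U g) → Rel (EU U) (cls U n) y (cls U g) →
            Rel (EU U) (cls U n) z (cls U g)) := by
  refine Tv.allK (F := fun z => ⨅ x : K, ⨅ y : K, memB (opair z (kchk B x)) h ⇨
      (memB (opair z (kchk B y)) t ⇨ (memB (opair n (kchk B x)) g ⇨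
        (memB (opair n (kchk B y)) g ⇨ memB (opair n z) g)))) ?_ fun z => ?_
  · exact E1_extB_iInf fun x => E1_extB_iInf fun y => E1_extB_himp (extB_pairL _ _)
      (E1_extB_himp (extB_pairL _ _) (E1_extB_himp (E1_extB_const _)
        (E1_extB_himp (E1_extB_const _) (extB_pairR _ _))))
  refine Tv.allK (F := fun x => ⨅ y : K, memB (opair z x) h ⇨
      (memB (opair z (kchk B y)) t ⇨ (memB (opair n x) g ⇨
        (memB (opair n (kchk B y)) g ⇨ memB (opair n z) g)))) ?_ fun x => ?_
  · exact E1_extB_iInf fun y => E1_extB_himp (extB_pairR _ _)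
      (E1_extB_himp (E1_extB_const _) (E1_extB_himp (extB_pairR _ _) (E1_extB_const _)))
  refine Tv.allK (F := fun y => memB (opair z x) h ⇨
      (memB (opair z y) t ⇨ (memB (opair n x) g ⇨
        (memB (opair n y) g ⇨ memB (opair n z) g)))) ?_ fun y =>
    (Tv.rel z x h).imp ((Tv.rel z y t).imp ((Tv.rel n x g).imp ((Tv.rel n y g).imp
      (Tv.rel n z g))))
  exact E1_extB_himp (E1_extB_const _) (E1_extB_himp (extB_pairR _ _)
    (E1_extB_himp (E1_extB_const _) (E1_extB_himp (extB_pairR _ _) (E1_extB_const _))))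

theorem Tv.desc_fun (U : UF B) (f g n : BSet B) :
    Tv U (⨅ z : K, ⨅ x : K, memB (opair (kchk B z) (kchk B x)) f ⇨
      (memB (opair n (kchk B z)) g ⇨ memB (opair n (kchk B x)) g))
      (∀ z, EU U z (cls U (KB K B)) → ∀ x, EU U x (cls U (KB K B)) →
        Rel (EU U) z x (cls U f) → Rel (EU U) (cls U n) z (cls U g) →
          Rel (EU U) (cls U n) x (cls U g)) := by
  refine Tv.allK (F := fun z => ⨅ x : K, memB (opair z (kchk B x)) f ⇨
      (memB (opair n z) g ⇨ memB (opair n (kchk B x)) g)) ?_ fun z => ?_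
  · exact E1_extB_iInf fun x => E1_extB_himp (extB_pairL _ _)
      (E1_extB_himp (extB_pairR _ _) (E1_extB_const _))
  refine Tv.allK (F := fun x => memB (opair z x) f ⇨
      (memB (opair n z) g ⇨ memB (opair n x) g)) ?_ fun x =>
    (Tv.rel z x f).imp ((Tv.rel n z g).imp (Tv.rel n x g))
  exact E1_extB_himp (extB_pairR _ _) (E1_extB_himp (E1_extB_const _) (extB_pairR _ _))

theorem Tv.desc_sub (U : UF B) (g n m : BSet B) :
    Tv U ((⨅ x : K, memB (opair m (kchk B x)) g ⇨ memB (opair n (kchk B x)) g) ⊓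
      ⨆ x : K, memB (opair n (kchk B x)) g ⊓ (memB (opair m (kchk B x)) g)ᶜ)
      ((∀ x, EU U x (cls U (KB K B)) → Rel (EU U) (cls U m) x (cls U g) →
        Rel (EU U) (cls U n) x (cls U g)) ∧
      ∃ x, EU U x (cls U (KB K B)) ∧ Rel (EU U) (cls U n) x (cls U g) ∧
        ¬ Rel (EU U) (cls U m) x (cls U g)) := by
  refine Tv.and ?_ ?_
  · refine Tv.allK (F := fun x => memB (opair m x) g ⇨ memB (opair n x) g) ?_
      fun x => (Tv.rel m x g).imp (Tv.rel n x g)
    exact E1_extB_himp (extB_pairR _ _) (extB_pairR _ _)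
  · refine Tv.exK (F := fun x => memB (opair n x) g ⊓ (memB (opair m x) g)ᶜ) ?_
      fun x => (Tv.rel n x g).and (Tv.rel m x g).not
    exact E1_extB_inf (extB_pairR _ _) (E1_extB_compl (extB_pairR _ _))

theorem Tv.desc (U : UF B) (d : PData K) (f g : BSet B) :
    Tv U (descB d (relV K f) (fun n x => memB (opair (nchk n) (kchk B x)) g))
      (IsDescIn (EU U) (cls U omB) (cls U (KB K B)) (cls U (kchk B d.o)) (cls U (HN B d))
        (cls U (TN B d)) (cls U f) (cls U g)) := by
  have key : Tv U (⨅ n : ℕ, memB (opair (nchk n) (kchk B d.o)) g ⊓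
      ((⨅ z : K, ⨅ x : K, ⨅ y : K, memB (opair (kchk B z) (kchk B x)) (HN B d) ⇨
        (memB (opair (kchk B z) (kchk B y)) (TN B d) ⇨ (memB (opair (nchk n) (kchk B x)) g ⇨
          (memB (opair (nchk n) (kchk B y)) g ⇨ memB (opair (nchk n) (kchk B z)) g)))) ⊓
      ((⨅ z : K, ⨅ x : K, memB (opair (kchk B z) (kchk B x)) f ⇨
        (memB (opair (nchk n) (kchk B z)) g ⇨ memB (opair (nchk n) (kchk B x)) g)) ⊓
      ⨅ m : ℕ, memB (nchk n) (nchk m) ⇨
        ((⨅ x : K, memB (opair (nchk m) (kchk B x)) g ⇨ memB (opair (nchk n) (kchk B x)) g) ⊓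
          ⨆ x : K, memB (opair (nchk n) (kchk B x)) g ⊓
            (memB (opair (nchk m) (kchk B x)) g)ᶜ))))
      (IsDescIn (EU U) (cls U omB) (cls U (KB K B)) (cls U (kchk B d.o)) (cls U (HN B d))
        (cls U (TN B d)) (cls U f) (cls U g)) := by
    refine Tv.allW (F := fun n => memB (opair n (kchk B d.o)) g ⊓
      ((⨅ z : K, ⨅ x : K, ⨅ y : K, memB (opair (kchk B z) (kchk B x)) (HN B d) ⇨
        (memB (opair (kchk B z) (kchk B y)) (TN B d) ⇨ (memB (opair n (kchk B x)) g ⇨
          (memB (opair n (kchk B y)) g ⇨ memB (opair n (kchk B z)) g)))) ⊓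
      ((⨅ z : K, ⨅ x : K, memB (opair (kchk B z) (kchk B x)) f ⇨
        (memB (opair n (kchk B z)) g ⇨ memB (opair n (kchk B x)) g)) ⊓
      ⨅ m : ℕ, memB n (nchk m) ⇨
        ((⨅ x : K, memB (opair (nchk m) (kchk B x)) g ⇨ memB (opair n (kchk B x)) g) ⊓
          ⨆ x : K, memB (opair n (kchk B x)) g ⊓
            (memB (opair (nchk m) (kchk B x)) g)ᶜ)))) ?_ fun n => ?_
    · refine E1_extB_inf (extB_pairL _ _) (E1_extB_inf ?_ (E1_extB_inf ?_ ?_))
      · exact E1_extB_iInf fun z => E1_extB_iInf fun x => E1_extB_iInf fun y =>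
          E1_extB_himp (E1_extB_const _) (E1_extB_himp (E1_extB_const _)
            (E1_extB_himp (extB_pairL _ _) (E1_extB_himp (extB_pairL _ _) (extB_pairL _ _))))
      · exact E1_extB_iInf fun z => E1_extB_iInf fun x => E1_extB_himp (E1_extB_const _)
          (E1_extB_himp (extB_pairL _ _) (extB_pairL _ _))
      · exact E1_extB_iInf fun m => E1_extB_himp (extB_memB_left _)
          (E1_extB_inf (E1_extB_iInf fun x => E1_extB_himp (E1_extB_const _) (extB_pairL _ _))
            (E1_extB_iSup fun x => E1_extB_inf (extB_pairL _ _) (E1_extB_const _)))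
    refine (Tv.rel n _ g).and ((Tv.desc_close U _ _ g n).and ((Tv.desc_fun U f g n).and ?_))
    refine Tv.allW (F := fun m => memB n m ⇨
        ((⨅ x : K, memB (opair m (kchk B x)) g ⇨ memB (opair n (kchk B x)) g) ⊓
          ⨆ x : K, memB (opair n (kchk B x)) g ⊓
            (memB (opair m (kchk B x)) g)ᶜ)) ?_ fun m => (Tv.mem n m).imp (Tv.desc_sub U g n m)
    exact E1_extB_himp (extB_memB_right _)
      (E1_extB_inf (E1_extB_iInf fun x => E1_extB_himp (extB_pairL _ _) (E1_extB_const _))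
        (E1_extB_iSup fun x => E1_extB_inf (E1_extB_const _) (E1_extB_compl (extB_pairL _ _))))
  simp only [memB_HN, memB_TN, memB_nchk_tv] at key
  exact key

end Pool.Agent.H47Q
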