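import Pool.Agent.Lib.H47Q.TPair
import Pool.Agent.Lib.H47Q.TDesc

/-!
# Chunk TCOND: the codes of finite partial functions in the quotient structure

As in `isOm1_quot` (`H30C/TOm.lean`): each clause by a `Tv` statement whose Boolean value is `⊤`.
* `fin`: for `p : K` let `n` be the number of elements of `zz p ∪ oo p` and `e` an enumeration of it by `m < n`. The name `f = funN (fun m x => tv B (m < n ∧ e m = x))` has
  `funcB … = ⊤`, and `⨅ x, (ZN p x ⊔ ON p x) ⇨ ⨆ m, (value of m ∈ n) ⊓ f m x = ⊤`. The value of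
  `nchk m ∈ nchk n` is `⊤` for `m < n` (look for `memB_nchk` or similar in `H5Z`). The existence of `n` is `Tv.exW`, the existence of
  `f` is `Tv.ex` (see the proof of `init` in `isOm1_quot`).
* `disj`: `PData.disj`. `emp`: `PData.sur ∅ ∅`. `ext`: `PData.sur (insert x (zz p)) (oo p)` and `PData.sur (zz p) (insert x (oo p))`.
-/

set_option autoImplicit false

open Set Function

namespace Pool.Agent.H47Q

open Pool.Agent.H5Z Pool.Agent.H30C BSet Fml

variable {B : Type} [CompleteBooleanAlgebra B] {K : Type} [LinearOrder K] [WellFoundedLT K]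

theorem cond_fin_quot (U : UF B) (d : PData K) : ∀ p, EU U p (cls U (KB K B)) →
    ∃ n, EU U n (cls U omB) ∧ ∃ f, IsFuncIn (EU U) (cls U omB) (cls U (KB K B)) f ∧
      ∀ x, EU U x (cls U (KB K B)) →
        (Rel (EU U) p x (cls U (ZN B d)) ∨ Rel (EU U) p x (cls U (ON B d))) →
          ∃ m, EU U m (cls U omB) ∧ EU U m n ∧ Rel (EU U) m x f := by
  have h : Tv U (⨅ p : K, ⨆ n : ℕ, ⨆ f : BSet B,
      funcB (fun n (y : K) => memB (opair (nchk n) (kchk B y)) f) ⊓
      ⨅ x : K, (memB (opair (kchk B p) (kchk B x)) (ZN B d) ⊔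
        memB (opair (kchk B p) (kchk B x)) (ON B d)) ⇨
        ⨆ m : ℕ, memB (nchk m) (nchk n) ⊓ memB (opair (nchk m) (kchk B x)) f)
      (∀ p, EU U p (cls U (KB K B)) →
        ∃ n, EU U n (cls U omB) ∧ ∃ f, IsFuncIn (EU U) (cls U omB) (cls U (KB K B)) f ∧
          ∀ x, EU U x (cls U (KB K B)) →
            (Rel (EU U) p x (cls U (ZN B d)) ∨ Rel (EU U) p x (cls U (ON B d))) →
              ∃ m, EU U m (cls U omB) ∧ EU U m n ∧ Rel (EU U) m x f) := by
    refine Tv.allK (F := fun p => ⨆ n : ℕ, ⨆ f : BSet B,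
      funcB (fun n (y : K) => memB (opair (nchk n) (kchk B y)) f) ⊓
      ⨅ x : K, (memB (opair p (kchk B x)) (ZN B d) ⊔
        memB (opair p (kchk B x)) (ON B d)) ⇨
        ⨆ m : ℕ, memB (nchk m) (nchk n) ⊓ memB (opair (nchk m) (kchk B x)) f) ?_ fun p => ?_
    · exact E1_extB_iSup fun n => E1_extB_iSup fun f => E1_extB_inf (E1_extB_const _)
        (E1_extB_iInf fun x => E1_extB_himp (E1_extB_sup (extB_pairL _ _) (extB_pairL _ _))
          (E1_extB_const _))
    refine Tv.exW (F := fun n => ⨆ f : BSet B,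
      funcB (fun n (y : K) => memB (opair (nchk n) (kchk B y)) f) ⊓
      ⨅ x : K, (memB (opair p (kchk B x)) (ZN B d) ⊔
        memB (opair p (kchk B x)) (ON B d)) ⇨
        ⨆ m : ℕ, memB (nchk m) n ⊓ memB (opair (nchk m) (kchk B x)) f) ?_ fun n => ?_
    · exact E1_extB_iSup fun f => E1_extB_inf (E1_extB_const _)
        (E1_extB_iInf fun x => E1_extB_himp (E1_extB_const _)
          (E1_extB_iSup fun m => E1_extB_inf (extB_memB_right _) (E1_extB_const _)))
    refine Tv.ex (F := fun f =>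
      funcB (fun n (y : K) => memB (opair (nchk n) (kchk B y)) f) ⊓
      ⨅ x : K, (memB (opair p (kchk B x)) (ZN B d) ⊔
        memB (opair p (kchk B x)) (ON B d)) ⇨
        ⨆ m : ℕ, memB (nchk m) n ⊓ memB (opair (nchk m) (kchk B x)) f) ?_
          fun f => (Tv.func U f).and ?_
    · unfold funcB
      exact E1_extB_inf (E1_extB_iInf fun n => E1_extB_iInf fun y => E1_extB_iInf fun z =>
          E1_extB_himp (extB_pairS _ _) (E1_extB_himp (extB_pairS _ _) (E1_extB_const _)))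
        (E1_extB_iInf fun x => E1_extB_himp (E1_extB_const _)
          (E1_extB_iSup fun m => E1_extB_inf (E1_extB_const _) (extB_pairS _ _)))
    refine Tv.allK (F := fun x => (memB (opair p x) (ZN B d) ⊔
        memB (opair p x) (ON B d)) ⇨
        ⨆ m : ℕ, memB (nchk m) n ⊓ memB (opair (nchk m) x) f) ?_
          fun x => ((Tv.rel p x _).or (Tv.rel p x _)).imp ?_
    · exact E1_extB_himp (E1_extB_sup (extB_pairR _ _) (extB_pairR _ _))
        (E1_extB_iSup fun m => E1_extB_inf (E1_extB_const _) (extB_pairR _ _))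
    refine Tv.exW (F := fun m => memB m n ⊓ memB (opair m x) f) ?_
      fun m => (Tv.mem m n).and (Tv.rel m x f)
    exact E1_extB_inf (extB_memB_left _) (extB_pairL _ _)
  refine h.holds ?_
  classical
  rw [eq_top_iff]
  refine le_iInf fun p => ?_
  set l : List K := (d.zz p ∪ d.oo p).toList with hl
  refine le_iSup_of_le l.length ?_
  refine le_iSup_of_le (funN (fun m (x : K) => tv B (x ∈ l ∧ l.idxOf x = m))) ?_
  refine le_inf ?_ (le_iInf fun x => ?_)
  · unfold funcB
    refine le_iInf fun n => le_iInf fun y => le_iInf fun z => ?_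
    beta_reduce
    rw [memB_funN, memB_funN]
    by_cases h1 : y ∈ l ∧ l.idxOf y = n
    · by_cases h2 : z ∈ l ∧ l.idxOf z = n
      · rw [if_pos ((List.idxOf_inj h1.1).1 (h1.2.trans h2.2.symm))]
        simp
      · rw [tv_neg h2]
        simp
    · rw [tv_neg h1]
      simp
  · rw [memB_ZN, memB_ON]
    by_cases h1 : x ∈ d.zz p ∨ x ∈ d.oo p
    · have h2 : x ∈ l := by
        rw [hl, Finset.mem_toList, Finset.mem_union]
        exact h1
      rw [le_himp_iff]
      refine le_iSup_of_le (l.idxOf x) ?_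
      rw [memB_funN, memB_nchk_tv, tv_pos (List.idxOf_lt_length_of_mem h2),
        tv_pos (P := x ∈ l ∧ l.idxOf x = l.idxOf x) ⟨h2, rfl⟩]
      simp
    · rw [tv_neg (fun h => h1 (Or.inl h)), tv_neg (fun h => h1 (Or.inr h))]
      simp

/-- truth value of one half of `ext` -/
theorem Tv.cond_half (U : UF B) (a b p x : BSet B) :
    Tv U (⨆ q : K, ⨅ y : K, iffB (memB (opair (kchk B q) (kchk B y)) a)
        (memB (opair p (kchk B y)) a ⊔ eqB (kchk B y) x) ⊓
      iffB (memB (opair (kchk B q) (kchk B y)) b) (memB (opair p (kchk B y)) b))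
    (∃ q, EU U q (cls U (KB K B)) ∧ ∀ y, EU U y (cls U (KB K B)) →
      (Rel (EU U) q y (cls U a) ↔ Rel (EU U) (cls U p) y (cls U a) ∨ y = cls U x) ∧
      (Rel (EU U) q y (cls U b) ↔ Rel (EU U) (cls U p) y (cls U b))) := by
  refine Tv.exK (F := fun q => ⨅ y : K, iffB (memB (opair q (kchk B y)) a)
        (memB (opair p (kchk B y)) a ⊔ eqB (kchk B y) x) ⊓
      iffB (memB (opair q (kchk B y)) b) (memB (opair p (kchk B y)) b)) ?_ fun q => ?_
  · exact E1_extB_iInf fun y => E1_extB_inf (E1_extB_iffB (extB_pairL _ _) (E1_extB_const _))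
      (E1_extB_iffB (extB_pairL _ _) (E1_extB_const _))
  refine Tv.allK (F := fun y => iffB (memB (opair q y) a)
        (memB (opair p y) a ⊔ eqB y x) ⊓
      iffB (memB (opair q y) b) (memB (opair p y) b)) ?_ fun y =>
    ((Tv.rel q y a).iff ((Tv.rel p y a).or (Tv.eq y x))).and ((Tv.rel q y b).iff (Tv.rel p y b))
  exact E1_extB_inf (E1_extB_iffB (extB_pairR _ _) (E1_extB_sup (extB_pairR _ _)
    (extB_eqB_left _))) (E1_extB_iffB (extB_pairR _ _) (extB_pairR _ _))

theorem iffB_tv {P Q : Prop} (h : P ↔ Q) : iffB (tv B P) (tv B Q) = ⊤ := by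
  unfold iffB
  by_cases hP : P
  · rw [tv_pos hP, tv_pos (h.1 hP)]
    simp
  · rw [tv_neg hP, tv_neg (fun hQ => hP (h.2 hQ))]
    simp

theorem tv_or (P Q : Prop) : tv B P ⊔ tv B Q = tv B (P ∨ Q) := by
  by_cases hP : P
  · rw [tv_pos hP, tv_pos (Or.inl hP), top_sup_eq]
  · by_cases hQ : Q
    · rw [tv_pos hQ, tv_pos (Or.inr hQ), sup_top_eq]
    · rw [tv_neg hP, tv_neg hQ, tv_neg (not_or.2 ⟨hP, hQ⟩), sup_bot_eq]

theorem cond_ext_quot (U : UF B) (d : PData K) : ∀ p, EU U p (cls U (KB K B)) →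
    ∀ x, EU U x (cls U (KB K B)) → ¬ Rel (EU U) p x (cls U (ZN B d)) →
      ¬ Rel (EU U) p x (cls U (ON B d)) →
    (∃ q, EU U q (cls U (KB K B)) ∧ ∀ y, EU U y (cls U (KB K B)) →
      (Rel (EU U) q y (cls U (ZN B d)) ↔ Rel (EU U) p y (cls U (ZN B d)) ∨ y = x) ∧
      (Rel (EU U) q y (cls U (ON B d)) ↔ Rel (EU U) p y (cls U (ON B d)))) ∧
    ∃ q, EU U q (cls U (KB K B)) ∧ ∀ y, EU U y (cls U (KB K B)) →
      (Rel (EU U) q y (cls U (ZN B d)) ↔ Rel (EU U) p y (cls U (ZN B d))) ∧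
      (Rel (EU U) q y (cls U (ON B d)) ↔ Rel (EU U) p y (cls U (ON B d)) ∨ y = x) := by
  have h : Tv U (⨅ p : K, ⨅ x : K, (memB (opair (kchk B p) (kchk B x)) (ZN B d))ᶜ ⇨
      ((memB (opair (kchk B p) (kchk B x)) (ON B d))ᶜ ⇨
      ((⨆ q : K, ⨅ y : K, iffB (memB (opair (kchk B q) (kchk B y)) (ZN B d))
        (memB (opair (kchk B p) (kchk B y)) (ZN B d) ⊔ eqB (kchk B y) (kchk B x)) ⊓
      iffB (memB (opair (kchk B q) (kchk B y)) (ON B d))
        (memB (opair (kchk B p) (kchk B y)) (ON B d))) ⊓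
      ⨆ q : K, ⨅ y : K, iffB (memB (opair (kchk B q) (kchk B y)) (ON B d))
        (memB (opair (kchk B p) (kchk B y)) (ON B d) ⊔ eqB (kchk B y) (kchk B x)) ⊓
      iffB (memB (opair (kchk B q) (kchk B y)) (ZN B d))
        (memB (opair (kchk B p) (kchk B y)) (ZN B d)))))
      (∀ p, EU U p (cls U (KB K B)) → ∀ x, EU U x (cls U (KB K B)) →
        ¬ Rel (EU U) p x (cls U (ZN B d)) → ¬ Rel (EU U) p x (cls U (ON B d)) →
        (∃ q, EU U q (cls U (KB K B)) ∧ ∀ y, EU U y (cls U (KB K B)) →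
          (Rel (EU U) q y (cls U (ZN B d)) ↔ Rel (EU U) p y (cls U (ZN B d)) ∨ y = x) ∧
          (Rel (EU U) q y (cls U (ON B d)) ↔ Rel (EU U) p y (cls U (ON B d)))) ∧
        ∃ q, EU U q (cls U (KB K B)) ∧ ∀ y, EU U y (cls U (KB K B)) →
          (Rel (EU U) q y (cls U (ON B d)) ↔ Rel (EU U) p y (cls U (ON B d)) ∨ y = x) ∧
          (Rel (EU U) q y (cls U (ZN B d)) ↔ Rel (EU U) p y (cls U (ZN B d)))) := by
    refine Tv.allK (F := fun p => ⨅ x : K, (memB (opair p (kchk B x)) (ZN B d))ᶜ ⇨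
      ((memB (opair p (kchk B x)) (ON B d))ᶜ ⇨
      ((⨆ q : K, ⨅ y : K, iffB (memB (opair (kchk B q) (kchk B y)) (ZN B d))
        (memB (opair p (kchk B y)) (ZN B d) ⊔ eqB (kchk B y) (kchk B x)) ⊓
      iffB (memB (opair (kchk B q) (kchk B y)) (ON B d))
        (memB (opair p (kchk B y)) (ON B d))) ⊓
      ⨆ q : K, ⨅ y : K, iffB (memB (opair (kchk B q) (kchk B y)) (ON B d))
        (memB (opair p (kchk B y)) (ON B d) ⊔ eqB (kchk B y) (kchk B x)) ⊓
      iffB (memB (opair (kchk B q) (kchk B y)) (ZN B d))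
        (memB (opair p (kchk B y)) (ZN B d))))) ?_ fun p => ?_
    · exact E1_extB_iInf fun x => E1_extB_himp (E1_extB_compl (extB_pairL _ _))
        (E1_extB_himp (E1_extB_compl (extB_pairL _ _)) (E1_extB_inf
          (E1_extB_iSup fun q => E1_extB_iInf fun y => E1_extB_inf
            (E1_extB_iffB (E1_extB_const _) (E1_extB_sup (extB_pairL _ _) (E1_extB_const _)))
            (E1_extB_iffB (E1_extB_const _) (extB_pairL _ _)))
          (E1_extB_iSup fun q => E1_extB_iInf fun y => E1_extB_inf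
            (E1_extB_iffB (E1_extB_const _) (E1_extB_sup (extB_pairL _ _) (E1_extB_const _)))
            (E1_extB_iffB (E1_extB_const _) (extB_pairL _ _)))))
    refine Tv.allK (F := fun x => (memB (opair p x) (ZN B d))ᶜ ⇨
      ((memB (opair p x) (ON B d))ᶜ ⇨
      ((⨆ q : K, ⨅ y : K, iffB (memB (opair (kchk B q) (kchk B y)) (ZN B d))
        (memB (opair p (kchk B y)) (ZN B d) ⊔ eqB (kchk B y) x) ⊓
      iffB (memB (opair (kchk B q) (kchk B y)) (ON B d))
        (memB (opair p (kchk B y)) (ON B d))) ⊓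
      ⨆ q : K, ⨅ y : K, iffB (memB (opair (kchk B q) (kchk B y)) (ON B d))
        (memB (opair p (kchk B y)) (ON B d) ⊔ eqB (kchk B y) x) ⊓
      iffB (memB (opair (kchk B q) (kchk B y)) (ZN B d))
        (memB (opair p (kchk B y)) (ZN B d))))) ?_ fun x =>
      (Tv.rel p x _).not.imp ((Tv.rel p x _).not.imp
        ((Tv.cond_half U _ _ p x).and (Tv.cond_half U _ _ p x)))
    exact E1_extB_himp (E1_extB_compl (extB_pairR _ _))
        (E1_extB_himp (E1_extB_compl (extB_pairR _ _)) (E1_extB_inf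
          (E1_extB_iSup fun q => E1_extB_iInf fun y => E1_extB_inf
            (E1_extB_iffB (E1_extB_const _) (E1_extB_sup (E1_extB_const _) (extB_eqB_right _)))
            (E1_extB_const _))
          (E1_extB_iSup fun q => E1_extB_iInf fun y => E1_extB_inf
            (E1_extB_iffB (E1_extB_const _) (E1_extB_sup (E1_extB_const _) (extB_eqB_right _)))
            (E1_extB_const _))))
  have h' := h.holds (by
    classical
    rw [eq_top_iff]
    refine le_iInf fun p => le_iInf fun x => ?_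
    simp only [memB_ZN, memB_ON, eqB_kchk_tv, tv_or]
    by_cases h1 : x ∈ d.zz p
    · rw [tv_pos h1]
      simp
    by_cases h2 : x ∈ d.oo p
    · rw [tv_pos h2]
      simp
    rw [le_himp_iff, le_himp_iff]
    refine le_trans le_top (le_inf ?_ ?_)
    · obtain ⟨q, hq1, hq2⟩ := d.sur (insert x (d.zz p)) (d.oo p)
        (Finset.disjoint_insert_left.2 ⟨h2, d.disj p⟩)
      refine le_iSup_of_le q (le_iInf fun y => ?_)
      rw [hq1, hq2]
      refine le_of_eq ?_
      rw [iffB_tv Iff.rfl, iffB_tv (by rw [Finset.mem_insert]; tauto), inf_top_eq]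
    · obtain ⟨q, hq1, hq2⟩ := d.sur (d.zz p) (insert x (d.oo p))
        (Finset.disjoint_insert_right.2 ⟨h1, d.disj p⟩)
      refine le_iSup_of_le q (le_iInf fun y => ?_)
      rw [hq1, hq2]
      refine le_of_eq ?_
      rw [iffB_tv (P := y ∈ d.zz p) Iff.rfl, iffB_tv (by rw [Finset.mem_insert]; tauto),
        inf_top_eq])
  intro p hp x hx h1 h2
  obtain ⟨a, q, hq, hb⟩ := h' p hp x hx h1 h2
  exact ⟨a, q, hq, fun y hy => ⟨(hb y hy).2, (hb y hy).1⟩⟩

theorem isCond_quot (U : UF B) (d : PData K) :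
    IsCondIn (EU U) (cls U omB) (cls U (KB K B)) (cls U (ZN B d)) (cls U (ON B d)) where
  fin := cond_fin_quot U d
  disj := by
    have h : Tv U (⨅ p : K, ⨅ x : K, memB (opair (kchk B p) (kchk B x)) (ZN B d) ⇨
        (memB (opair (kchk B p) (kchk B x)) (ON B d))ᶜ)
        (∀ p, EU U p (cls U (KB K B)) → ∀ x, EU U x (cls U (KB K B)) →
          Rel (EU U) p x (cls U (ZN B d)) → ¬ Rel (EU U) p x (cls U (ON B d))) := by
      refine Tv.allK (F := fun p => ⨅ x : K, memB (opair p (kchk B x)) (ZN B d) ⇨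
        (memB (opair p (kchk B x)) (ON B d))ᶜ) ?_ fun p => ?_
      · exact E1_extB_iInf fun x => E1_extB_himp (extB_pairL _ _)
          (E1_extB_compl (extB_pairL _ _))
      refine Tv.allK (F := fun x => memB (opair p x) (ZN B d) ⇨
        (memB (opair p x) (ON B d))ᶜ) ?_ fun x => (Tv.rel p x _).imp (Tv.rel p x _).not
      exact E1_extB_himp (extB_pairR _ _) (E1_extB_compl (extB_pairR _ _))
    refine h.holds ?_
    rw [eq_top_iff]
    refine le_iInf fun p => le_iInf fun x => ?_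
    rw [memB_ZN, memB_ON]
    by_cases h1 : x ∈ d.zz p
    · rw [tv_neg (fun h2 : x ∈ d.oo p => Finset.disjoint_left.1 (d.disj p) h1 h2)]
      simp
    · rw [tv_neg h1]
      simp
  emp := by
    have h : Tv U (⨆ p : K, ⨅ x : K, (memB (opair (kchk B p) (kchk B x)) (ZN B d))ᶜ ⊓
        (memB (opair (kchk B p) (kchk B x)) (ON B d))ᶜ)
        (∃ p, EU U p (cls U (KB K B)) ∧ ∀ x, EU U x (cls U (KB K B)) →
          ¬ Rel (EU U) p x (cls U (ZN B d)) ∧ ¬ Rel (EU U) p x (cls U (ON B d))) := by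
      refine Tv.exK (F := fun p => ⨅ x : K, (memB (opair p (kchk B x)) (ZN B d))ᶜ ⊓
        (memB (opair p (kchk B x)) (ON B d))ᶜ) ?_ fun p => ?_
      · exact E1_extB_iInf fun x => E1_extB_inf (E1_extB_compl (extB_pairL _ _))
          (E1_extB_compl (extB_pairL _ _))
      refine Tv.allK (F := fun x => (memB (opair p x) (ZN B d))ᶜ ⊓
        (memB (opair p x) (ON B d))ᶜ) ?_ fun x => (Tv.rel p x _).not.and (Tv.rel p x _).not
      exact E1_extB_inf (E1_extB_compl (extB_pairR _ _)) (E1_extB_compl (extB_pairR _ _))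
    refine h.holds ?_
    rw [eq_top_iff]
    obtain ⟨p, hp1, hp2⟩ := d.sur ∅ ∅ (Finset.disjoint_empty_left _)
    refine le_iSup_of_le p (le_iInf fun x => ?_)
    rw [memB_ZN, memB_ON, hp1, hp2, tv_neg (Finset.notMem_empty x)]
    simp
  ext := cond_ext_quot U d

end Pool.Agent.H47Q
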