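import Pool.Agent.Lib.H47Q.TPair
import Pool.Agent.Lib.H47Q.TCond
import Pool.Agent.Lib.H47Q.TDesc
import Pool.Agent.Lib.H47Q.TCoh
import Pool.Agent.Lib.H47Q.MData
import Pool.Agent.Lib.H47Q.MDesc
import Pool.Agent.Lib.H47Q.MCoh
import Pool.Agent.Lib.H30C.Models

/-!
# Chunk MODEL: the model

* `phiIn_quot`: combine the lemmas on the truth values. For `F`: `F = cls U f`; the Boolean value `funB (relV K f)` is at most
  `⨆ X, descB d (relV K f) X`; for each `X : ℕ → K → B` the name `funN X` has `memB_funN`, so the supremum is at most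
  `⨆ g : BSet B, descB d (relV K f) (fun n x => memB (opair (nchk n) (kchk B x)) g)`; use `Tv.ex`, `Tv.mono`, `Tv.desc` and
  `Tv.funV` (`ExtB` in the variable `g`: unfold `descB`, `extB_pairS`, `E1_extB_*`). For `D`: as in `maIn_quot` (`H30C/TMA.lean`).
* `exists_phi_model`: well-order `K` (`linearOrderOfSTO WellOrderingRel` or transfer to `(#K).ord.ToType`), `I = Set K` (`#K < #I`),
  `P = Co I`, `B = RO P`; `exists_UF`, `mod_modelsZFC`; compare `exists_ma_model` in `H30C/Models.lean`.
-/

set_option autoImplicit false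

open Set Function Cardinal

namespace Pool.Agent.H47Q

open Pool.Agent.H5Z Pool.Agent.H30C BSet Fml

theorem extB_descB {B : Type} [CompleteBooleanAlgebra B] {K : Type} [LinearOrder K]
    [WellFoundedLT K] (d : PData K) (F : K → K → B) :
    ExtB (fun g : BSet B => descB d F (fun n x => memB (opair (nchk n) (kchk B x)) g)) := by
  unfold descB
  exact E1_extB_iInf fun n => E1_extB_inf (extB_pairS _ _) (E1_extB_inf
    (E1_extB_iInf fun z => E1_extB_iInf fun x => E1_extB_iInf fun y => E1_extB_himp
      (E1_extB_const _) (E1_extB_himp (E1_extB_const _) (E1_extB_himp (extB_pairS _ _)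
        (E1_extB_himp (extB_pairS _ _) (extB_pairS _ _)))))
    (E1_extB_inf (E1_extB_iInf fun z => E1_extB_iInf fun x => E1_extB_himp (E1_extB_const _)
      (E1_extB_himp (extB_pairS _ _) (extB_pairS _ _)))
    (E1_extB_iInf fun m => E1_extB_himp (E1_extB_const _) (E1_extB_inf
      (E1_extB_iInf fun x => E1_extB_himp (extB_pairS _ _) (extB_pairS _ _))
      (E1_extB_iSup fun x => E1_extB_inf (extB_pairS _ _) (E1_extB_compl (extB_pairS _ _)))))))

theorem phiIn_quot {B : Type} [CompleteBooleanAlgebra B] {K : Type} [LinearOrder K]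
    [WellFoundedLT K] (U : UF B) (d : PData K) (h : BPhi B d) : PhiIn (EU U) := by
  refine ⟨cls U omB, cls U (KB K B), cls U (kchk B d.o), cls U (HN B d), cls U (TN B d),
    cls U (ZN B d), cls U (ON B d), omega_cls U, isPairing_quot U d, isCond_quot U d, ?_, ?_⟩
  · intro F hF
    obtain ⟨f, rfl⟩ := exists_cls U F
    have h1 : Tv U (⨆ g : BSet B, descB d (relV K f)
        (fun n x => memB (opair (nchk n) (kchk B x)) g))
        (∃ X, IsDescIn (EU U) (cls U omB) (cls U (KB K B)) (cls U (kchk B d.o)) (cls U (HN B d))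
          (cls U (TN B d)) (cls U f) X) :=
      Tv.ex (F := fun g => descB d (relV K f) (fun n x => memB (opair (nchk n) (kchk B x)) g))
        (extB_descB d _) fun g => Tv.desc U d f g
    refine (Tv.funV U f).mono h1 ((h.desc (relV K f)).trans ?_) hF
    refine iSup_le fun X => le_iSup_of_le (funN X) ?_
    have h2 : (fun (n : ℕ) (x : K) => memB (opair (nchk n) (kchk B x)) (funN X)) = X := by
      funext n x
      exact memB_funN X n x
    rw [h2]
  · intro D hD
    obtain ⟨r, rfl⟩ := exists_cls U D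
    obtain ⟨c, hc⟩ := h.coh (relV K r)
    refine ⟨cls U (setB c), ?_⟩
    have h1 := Tv.meet U d r (setB c)
    have h2 : setV K (setB c) = c := funext fun x => memB_setB c x
    rw [h2] at h1
    exact (Tv.dns U d r).mono h1 hc hD

theorem exists_phi_model {K : Type} (h : Free K) :
    ∃ (M : Type 1) (E : M → M → Prop), ModelsZFC E ∧ PhiIn E := by
  classical
  have : Infinite K := infinite_of_free h
  let i : LinearOrder K := linearOrderOfSTO (WellOrderingRel : K → K → Prop)
  have hwf : WellFoundedLT K := ⟨WellOrderingRel.isWellOrder.wf⟩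
  obtain ⟨d⟩ := exists_pdata K
  have : Nonempty (Co (Set K)) := ⟨⟨∅, ∅, Finset.disjoint_empty_left _⟩⟩
  obtain ⟨U⟩ := exists_UF (RO (Co (Set K)))
  refine ⟨Mod U, EU U, mod_modelsZFC U, phiIn_quot U d ⟨fun F => bdesc (co_ccc _) h d F,
    fun D => bcoh ?_ d D⟩⟩
  rw [Cardinal.mk_set]
  exact Cardinal.cantor _

end Pool.Agent.H47Q
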