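import Pool.Agent.Lib.H47Q.NecDefs

/-!
# Chunk NECFIN: finite values suffice

* `exists_finite`: if `¬ Free K` there is a finite-valued `C` without an infinite free sequence. Let `C'` be countable-valued without infinite free sequences,
  `C' l = {x | ∃ m, c m l = some x}`; `C l = ` the finite set of all `x` with `c m p = some x` for some `m ≤ l.length` and some initial segment `p` of `l`
  (`List.inits`). If `τ` is free for `C` and `τ j ∈ C' (seg τ j n)`, `c m (seg τ j n) = some (τ j)`, then for `N = max n m` the list `seg τ j N` has the initial segment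
  `seg τ j n` and length `≥ m`, so `τ j ∈ C (seg τ j N)`, a contradiction.
-/

set_option autoImplicit false

open Set Cardinal

namespace Pool.Agent.H47Q

variable {K : Type}

theorem necfin_enum (S : Set K) (hS : S.Countable) :
    ∃ c : ℕ → Option K, ∀ x, x ∈ S ↔ ∃ m, c m = some x := by
  rcases S.eq_empty_or_nonempty with h | h
  · exact ⟨fun _ => none, fun x => by simp [h]⟩
  · obtain ⟨f, hf⟩ := hS.exists_eq_range h
    refine ⟨fun n => some (f n), fun x => ?_⟩
    rw [hf]
    simp

theorem necfin_length (τ : ℕ → K) (n : ℕ) : ∀ j, (seg τ j n).length = n := by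
  induction n with
  | zero => intro j; rfl
  | succ n ih => intro j; simp [seg, ih]

theorem necfin_prefix (τ : ℕ → K) (n : ℕ) : ∀ j N, n ≤ N → seg τ j n <+: seg τ j N := by
  induction n with
  | zero => intro j N _; exact List.nil_prefix
  | succ n ih =>
    intro j N hN
    obtain ⟨N, rfl⟩ : ∃ N', N = N' + 1 := ⟨N - 1, by omega⟩
    simp only [seg]
    exact (List.prefix_cons_inj _).2 (ih _ _ (by omega))

theorem exists_finite (h : ¬ Free K) : ∃ C : List K → Finset K,
    ¬ ∃ τ : ℕ → K, ∀ j n, τ j ∉ C (seg τ j n) := by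
  classical
  unfold Free at h
  push Not at h
  obtain ⟨C', hC', hno⟩ := h
  choose c hc using fun l => necfin_enum (C' l) (hC' l)
  refine ⟨fun l => (l.inits.toFinset ×ˢ Finset.range (l.length + 1)).biUnion
    fun p => (c p.1 p.2).toFinset, ?_⟩
  rintro ⟨τ, hτ⟩
  obtain ⟨j, n, hjn⟩ := hno τ
  obtain ⟨m, hm⟩ := (hc _ _).1 hjn
  refine hτ j (max n m) ?_
  rw [Finset.mem_biUnion]
  refine ⟨(seg τ j n, m), ?_, ?_⟩
  · rw [Finset.mem_product, List.mem_toFinset, List.mem_inits, Finset.mem_range, necfin_length]
    exact ⟨necfin_prefix τ n j _ (le_max_left _ _), by simp only; omega⟩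
  · simp [hm]

end Pool.Agent.H47Q
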