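import Pool.Agent.Lib.H47Q.NecEmb
import Pool.Agent.Lib.H47Q.NecFin

/-!
# Chunk NECMAIN: property (P) for all limit ordinals implies `Free K` if `2 ^ |K| = |K|⁺`

* `assigned_of_not_free`: `μ` an infinite cardinal, `#K = μ`, `¬ Free K`, `κ = (succ μ).ord`. Take `C`, `rk`, `pk`, `Q = κ ^ ω`,
  `b = ω * rk []`; `κ ^ b = Q ^ rk []` (`opow_mul`). `b.card ≤ succ μ` (even `≤ μ`). `rk [] > 0`: since `K` is infinite there is `a ∉ C []`, and `[a] = [] ++ [a]` satisfies `Nd C [a]`, so `rk [a] < rk []`. Let `i`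
  be a bijection between `K` and the ordinals `< μ.ord`, `s x = ` image of `SS C pk Q [] x` under `i`. Let `τ < μ.ord`, `τ = i a`. If `a ∈ C []` then
  `{r | r < κ ^ b ∧ τ ∉ s r}` is empty, take `g = 0 < b`. Otherwise `Nd C [a]`, `rk [a] < rk []` and by `ff_lt`, `ff_mono` (with `t = []`) `FF a []` embeds the set
  in `Q ^ rk [a] * κ = κ ^ (ω * rk [a] + 1)`; `g = ω * rk [a] + 1 < ω * (rk [a] + 1) ≤ b`. For `γ < rk []`: `γ < κ`, since `(rk []).card ≤ μ`.
* `necessity`: if `¬ Free K`, `not_propP` (`EHM47/Main.lean`) gives `¬ PropP ((succ μ).ord ^ (b + 2))`, a limit ordinal.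
-/

set_option autoImplicit false

open Set Ordinal Cardinal

namespace Pool.Agent.H47Q

open Pool.Agent.Lib.EHM47

theorem assigned_of_not_free {K : Type} [Infinite K] (h : ¬ Free K) :
    ∃ b : Ordinal.{0}, b.card ≤ Order.succ #K ∧ Assigned (Order.succ #K).ord b (#K).ord := by
  classical
  obtain ⟨C, hC⟩ := exists_finite h
  obtain ⟨rk, h1, h2, h3⟩ := exists_rank hC
  have hinf : ℵ₀ ≤ #K := Cardinal.aleph0_le_mk K
  choose! pk hpk using h2
  set κ : Ordinal.{0} := (Order.succ #K).ord with hκ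
  have hκlim : Order.IsSuccLimit κ := isSuccLimit_ord (hinf.trans (Order.le_succ _))
  have hκω : ω ≤ κ := omega0_le_of_isSuccLimit hκlim
  have hκ1 : 1 < κ := one_lt_omega0.trans_le hκω
  have hκ0 : 0 < κ := zero_lt_one.trans hκ1
  set Q : Ordinal.{0} := κ ^ (ω : Ordinal.{0}) with hQdef
  have hQ : 0 < Q := opow_pos _ hκ0
  have hr : ∀ γ < rk [], γ < κ := by
    intro γ hγ
    rw [hκ, Cardinal.lt_ord, Order.lt_succ_iff]
    exact (Ordinal.card_le_card hγ.le).trans h3
  -- the first rank is positive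
  have hne : ∀ a, a ∉ C [] → Nd C [a] := by
    intro a ha
    refine ⟨trivial, fun l' hl' => ?_⟩
    rw [List.prefix_nil] at hl'
    rw [hl']
    exact ha
  have hlt : ∀ a, a ∉ C [] → rk [a] < rk [] := fun a ha => by
    have := h1 [] a (hne a ha)
    simpa using this
  obtain ⟨a0, ha0⟩ : ∃ a, a ∉ C [] := Infinite.exists_notMem_finset _
  have hpos : 0 < rk [] := lt_of_le_of_lt zero_le (hlt a0 ha0)
  -- the bijection
  obtain ⟨i⟩ : Nonempty (K ≃ (#K).ord.ToType) := by
    rw [← Cardinal.eq, Cardinal.mk_toType, Cardinal.card_ord]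
  let v : K → Ordinal.{0} := fun a => (Ordinal.ToType.mk.symm (i a)).1
  have hv : Function.Injective v := fun a b hab =>
    i.injective (Ordinal.ToType.mk.symm.injective (Subtype.ext hab))
  have hvs : ∀ τ < (#K).ord, ∃ a, v a = τ := by
    intro τ hτ
    refine ⟨i.symm (Ordinal.ToType.mk ⟨τ, hτ⟩), ?_⟩
    simp only [v]
    rw [Equiv.apply_symm_apply, OrderIso.symm_apply_apply]
  have hpow : κ ^ (ω * rk []) = Q ^ rk [] := by rw [hQdef, opow_mul]
  refine ⟨ω * rk [], ?_, fun x => (SS C pk Q hQ [] x).image v, fun τ hτ => ?_⟩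
  · rw [Ordinal.card_mul, Ordinal.card_omega0]
    exact (Cardinal.mul_le_of_le (hinf.trans (Order.le_succ _)) (hinf.trans (Order.le_succ _))
      (h3.trans (Order.le_succ _)))
  · obtain ⟨a, rfl⟩ := hvs τ hτ
    by_cases ha : a ∈ C []
    · refine ⟨0, mul_pos omega0_pos hpos, fun x => x, fun x hx => ?_, fun x hx => ?_⟩
      · exfalso
        refine hx.2 (Finset.mem_image_of_mem _ ?_)
        rw [SS]
        exact Finset.mem_union_left _ ha
      · exfalso
        refine hx.2 (Finset.mem_image_of_mem _ ?_)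
        rw [SS]
        exact Finset.mem_union_left _ ha
    · have hnd := hne a ha
      have hmem : ∀ x ∈ {r | r < κ ^ (ω * rk []) ∧ v a ∉ (SS C pk Q hQ [] r).image v},
          x < Q ^ rk [] ∧ a ∉ SS C pk Q hQ [] x := by
        intro x hx
        rw [← hpow]
        exact ⟨hx.1, fun h => hx.2 (Finset.mem_image_of_mem _ h)⟩
      refine ⟨ω * rk [a] + 1, ?_, FF rk pk κ Q hQ a [], fun x hx => ?_, fun x hx y hy hxy => ?_⟩
      · calc ω * rk [a] + 1 < ω * rk [a] + ω := (add_lt_add_iff_left _).2 one_lt_omega0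
          _ = ω * (rk [a] + 1) := by rw [mul_add, mul_one]
          _ ≤ ω * rk [] := mul_le_mul_right (Order.add_one_le_of_lt (hlt a ha)) _
      · rw [opow_add, opow_one, opow_mul]
        exact ff_lt hκ1 hQdef hQ h1 hpk hr a x [] trivial hnd le_rfl (hmem x hx).1 (hmem x hx).2
      · exact ff_mono hκ1 hQdef hQ h1 hpk hr a x [] y trivial hnd le_rfl hxy (hmem y hy).1
          (hmem x hx).2 (hmem y hy).2

theorem necessity (hQ : ∀ α : Ordinal.{0}, Order.IsSuccLimit α → PropP α) {K : Type}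
    [Infinite K] (h2 : (2 : Cardinal.{0}) ^ #K = Order.succ #K) : Free K := by
  by_contra h
  obtain ⟨b, hb, hass⟩ := assigned_of_not_free h
  refine not_propP #K (Cardinal.aleph0_le_mk K) h2 b hb hass (hQ _ ?_)
  have hlim : Order.IsSuccLimit (Order.succ #K).ord :=
    isSuccLimit_ord ((Cardinal.aleph0_le_mk K).trans (Order.le_succ _))
  exact isSuccLimit_opow_left hlim (lt_of_lt_of_le two_pos le_add_self).ne'

end Pool.Agent.H47Q
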