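import Pool.Agent.Lib.H47Q.ZDefs

/-!
# Chunk ZCOH: generic sets

* `cohen_of_xphi`: for each pair `(u, v)` of disjoint finite subsets of `X` there is `p` with `Z p = u`, `O p = v` (induction on the number of elements; `emp`,
  `ext`). Conversely `{x | Z p x}`, `{x | O p x}` are finite and disjoint. Let `D i` be dense sets of pairs of disjoint finite sets;
  `D' i p ↔ ∃ q ∈ D i, q.1 ⊆ {x | Z p x} ∧ q.2 ⊆ {x | O p x}` is dense; take `c` for `D'`.
-/

set_option autoImplicit false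

open Set Function Cardinal

namespace Pool.Agent.H47Q

open Pool.Agent.H5Z Pool.Agent.H30C

universe u

variable {X : Type u} {o : X} {H T Z O : X → X → Prop}

theorem ZCOH_code (h : XPhi X o H T Z O) (u v : Finset X) (huv : Disjoint u v) :
    ∃ p, (∀ y, Z p y ↔ y ∈ u) ∧ ∀ y, O p y ↔ y ∈ v := by
  classical
  have hu : ∀ u : Finset X, ∃ p, (∀ y, Z p y ↔ y ∈ u) ∧ ∀ y, ¬ O p y := by
    intro u
    induction u using Finset.induction_on with
    | empty =>
      obtain ⟨p, hp⟩ := h.emp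
      exact ⟨p, fun y => by simp [(hp y).1], fun y => (hp y).2⟩
    | insert x u hx ih =>
      obtain ⟨p, h1, h2⟩ := ih
      obtain ⟨⟨q, hq⟩, -⟩ := h.ext p x (fun hz => hx ((h1 x).1 hz)) (h2 x)
      refine ⟨q, fun y => ?_, fun y hy => h2 y ((hq y).2.1 hy)⟩
      rw [(hq y).1, h1, Finset.mem_insert, or_comm]
  induction v using Finset.induction_on with
  | empty =>
    obtain ⟨p, h1, h2⟩ := hu u
    exact ⟨p, h1, fun y => by simp [h2 y]⟩
  | insert x v hx ih =>
    have hd : Disjoint u v := Disjoint.mono_right (Finset.subset_insert x v) huv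
    have hxu : x ∉ u := fun hxu => Finset.disjoint_left.1 huv hxu (Finset.mem_insert_self x v)
    obtain ⟨p, h1, h2⟩ := ih hd
    obtain ⟨-, q, hq⟩ := h.ext p x (fun hz => hxu ((h1 x).1 hz)) (fun ho => hx ((h2 x).1 ho))
    refine ⟨q, fun y => ?_, fun y => ?_⟩
    · rw [(hq y).1, h1]
    · rw [(hq y).2, h2, Finset.mem_insert, or_comm]

theorem cohen_of_xphi (h : XPhi X o H T Z O) : CohenMA X := by
  classical
  intro D hD
  have fz : ∀ p, {x | Z p x}.Finite := fun p => (h.fin p).subset fun x hx => Or.inl hx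
  have fo : ∀ p, {x | O p x}.Finite := fun p => (h.fin p).subset fun x hx => Or.inr hx
  obtain ⟨c, hc⟩ := h.coh (fun i p => ∃ q ∈ D i, (∀ x ∈ q.1, Z p x) ∧ ∀ x ∈ q.2, O p x) (by
    intro i p
    have mz : ∀ x, x ∈ (fz p).toFinset ↔ Z p x := fun x => Set.Finite.mem_toFinset _
    have mo : ∀ x, x ∈ (fo p).toFinset ↔ O p x := fun x => Set.Finite.mem_toFinset _
    obtain ⟨q, hq, hqd, hq1, hq2⟩ := hD i ((fz p).toFinset, (fo p).toFinset) (by
      rw [Finset.disjoint_left]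
      intro x hx hx'
      exact h.disj p x ((mz x).1 hx) ((mo x).1 hx'))
    obtain ⟨q', h1, h2⟩ := ZCOH_code h q.1 q.2 hqd
    refine ⟨q', ⟨q, hq, fun x hx => (h1 x).2 hx, fun x hx => (h2 x).2 hx⟩, ?_, ?_⟩
    · intro x hx
      exact (h1 x).2 (hq1 ((mz x).2 hx))
    · intro x hx
      exact (h2 x).2 (hq2 ((mo x).2 hx)))
  refine ⟨c, fun i => ?_⟩
  obtain ⟨q', ⟨q, hq, h1, h2⟩, h3, h4⟩ := hc i
  exact ⟨q, hq, fun x hx => h3 x (h1 x hx), fun x hx => h4 x (h2 x hx)⟩

end Pool.Agent.H47Q
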