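import Pool.Agent.Lib.H47Q.ZDefs

/-!
# Chunk ZFREE: free sequences

* `free_of_xphi`: let `C : List X → Set X` be countable-valued, `c : ℕ → List X → Option X` with `C l = {x | ∃ n, c n l = some x}`. Choose functions `hd, tl : X → X` with
  `H z x → hd z = x`, `T z x → tl z = x`. Let `e 0 = o` and `e (n + 1) = z` with `z ≠ o`, `H z o`, `T z (e n)`; `e` is injective (`T` is functional). `dec m z` is the list
  `[hd z, hd (tl z), …]` with `m` members. `F z x ↔ ∃ n m y, H z (e (Nat.pair n m)) ∧ T z y ∧ c n (dec m y) = some x` is functional. Let `Y` be a decreasing sequence for `F`.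
  Each `Y k` contains `o`, all `e n`, and for all `l` with members in `Y k` there is `z ∈ Y k` with `dec l.length z = l` (induction on `l`, start with `z = o`); so `C l ⊆ Y k`.
  Choose `τ k ∈ Y k`, `τ k ∉ Y (k + 1)`. The members of `seg τ j n` are in `Y (j + 1)`, so `τ j ∉ C (seg τ j n)`.
* `infinite_of_xphi`: `e` is injective.
-/

set_option autoImplicit false

open Set Function Cardinal

namespace Pool.Agent.H47Q

open Pool.Agent.H5Z Pool.Agent.H30C

universe u

variable {X : Type u} {o : X} {H T Z O : X → X → Prop}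

theorem ZFREE_exists_e (h : XPhi X o H T Z O) : ∃ e : ℕ → X, e 0 = o ∧
    (∀ n, e (n + 1) ≠ o ∧ H (e (n + 1)) o ∧ T (e (n + 1)) (e n)) ∧ Injective e := by
  have h1 : ∀ y, ∃ z, z ≠ o ∧ H z o ∧ T z y := fun y => h.surj o y
  choose g hg using h1
  have hginj : Injective g := by
    intro a b hab
    have h2 := (hg a).2.2
    have h3 := (hg b).2.2
    rw [hab] at h2
    exact h.fT _ _ _ h2 h3
  refine ⟨fun n => g^[n] o, rfl, fun n => ?_, ?_⟩
  · change g^[n + 1] o ≠ o ∧ H (g^[n + 1] o) o ∧ T (g^[n + 1] o) (g^[n] o)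
    rw [iterate_succ_apply']
    exact hg _
  · have key : ∀ m n : ℕ, g^[m] o = g^[n] o → m = n := by
      intro m
      induction m with
      | zero =>
        intro n hn
        cases n with
        | zero => rfl
        | succ n =>
          rw [iterate_succ_apply'] at hn
          exact absurd hn.symm (hg _).1
      | succ m ih =>
        intro n hn
        cases n with
        | zero =>
          rw [iterate_succ_apply'] at hn
          exact absurd hn (hg _).1
        | succ n =>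
          rw [iterate_succ_apply', iterate_succ_apply'] at hn
          rw [ih n (hginj hn)]
    exact fun m n hmn => key m n hmn

theorem infinite_of_xphi (h : XPhi X o H T Z O) : Infinite X := by
  obtain ⟨e, -, -, he⟩ := ZFREE_exists_e h
  exact Infinite.of_injective e he

/-- decoding of lists -/
def ZFREE_dec (hd tl : X → X) : ℕ → X → List X
  | 0, _ => []
  | m + 1, z => hd z :: ZFREE_dec hd tl m (tl z)

theorem ZFREE_mem_seg (τ : ℕ → X) (n : ℕ) : ∀ (j : ℕ) (x : X), x ∈ seg τ j n →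
    ∃ i, j + 1 ≤ i ∧ x = τ i := by
  induction n with
  | zero => intro j x hx; simp [seg] at hx
  | succ n ih =>
    intro j x hx
    rw [seg, List.mem_cons] at hx
    rcases hx with rfl | hx
    · exact ⟨j + 1, le_rfl, rfl⟩
    · obtain ⟨i, hi, rfl⟩ := ih _ _ hx
      exact ⟨i, by omega, rfl⟩

theorem free_of_xphi (h : XPhi X o H T Z O) : Free X := by
  classical
  intro C hC
  obtain ⟨e, he0, he1, heinj⟩ := ZFREE_exists_e h
  -- enumerations
  have hc : ∀ l, ∃ c : ℕ → Option X, ∀ x, x ∈ C l ↔ ∃ n, c n = some x := by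
    intro l
    rcases Set.eq_empty_or_nonempty (C l) with he | hne
    · exact ⟨fun _ => none, fun x => by simp [he]⟩
    · obtain ⟨f, hf⟩ := (hC l).exists_eq_range hne
      refine ⟨fun n => some (f n), fun x => ?_⟩
      rw [hf, mem_range]
      simp only [Option.some.injEq]
  choose c hc using hc
  -- the two projections
  have hhd : ∀ z, ∃ a, ∀ x, H z x → a = x := by
    intro z
    by_cases hz : ∃ x, H z x
    · obtain ⟨x, hx⟩ := hz
      exact ⟨x, fun y hy => h.fH _ _ _ hx hy⟩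
    · exact ⟨o, fun y hy => absurd ⟨y, hy⟩ hz⟩
  have htl : ∀ z, ∃ a, ∀ x, T z x → a = x := by
    intro z
    by_cases hz : ∃ x, T z x
    · obtain ⟨x, hx⟩ := hz
      exact ⟨x, fun y hy => h.fT _ _ _ hx hy⟩
    · exact ⟨o, fun y hy => absurd ⟨y, hy⟩ hz⟩
  choose hd hhd using hhd
  choose tl htl using htl
  let F : X → X → Prop := fun z x => ∃ n m y, H z (e (Nat.pair n m)) ∧ T z y ∧
    c (ZFREE_dec hd tl m y) n = some x
  have hF : ∀ z x y, F z x → F z y → x = y := by
    rintro z x y ⟨n, m, a, h1, h2, h3⟩ ⟨n', m', a', h1', h2', h3'⟩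
    have h4 := heinj (h.fH _ _ _ h1 h1')
    have h5 := Nat.pair_eq_pair.1 h4
    obtain ⟨h6, h7⟩ := h5
    subst h6 h7
    have h8 := h.fT _ _ _ h2 h2'
    subst h8
    rw [h3] at h3'
    exact Option.some.inj h3'
  obtain ⟨Y, hY⟩ := h.desc F hF
  have hYe : ∀ k n, e n ∈ Y k := by
    intro k n
    induction n with
    | zero => rw [he0]; exact (hY k).1
    | succ n ih =>
      obtain ⟨-, h1, h2⟩ := he1 n
      exact (hY k).2.1 _ _ _ h1 h2 (hY k).1 ih
  have hYl : ∀ k (l : List X), (∀ x ∈ l, x ∈ Y k) →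
      ∃ z ∈ Y k, ZFREE_dec hd tl l.length z = l := by
    intro k l
    induction l with
    | nil => intro _; exact ⟨o, (hY k).1, rfl⟩
    | cons a l ih =>
      intro hl
      obtain ⟨z', hz', hd'⟩ := ih (fun x hx => hl x (List.mem_cons_of_mem _ hx))
      obtain ⟨z, -, h1, h2⟩ := h.surj a z'
      refine ⟨z, (hY k).2.1 _ _ _ h1 h2 (hl a List.mem_cons_self) hz', ?_⟩
      rw [List.length_cons, ZFREE_dec, hhd z a h1, htl z z' h2, hd']
  have hYC : ∀ k (l : List X), (∀ x ∈ l, x ∈ Y k) → C l ⊆ Y k := by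
    intro k l hl x hx
    obtain ⟨n, hn⟩ := (hc l x).1 hx
    obtain ⟨z0, hz0, hdec⟩ := hYl k l hl
    obtain ⟨z, -, h1, h2⟩ := h.surj (e (Nat.pair n l.length)) z0
    have hz := (hY k).2.1 _ _ _ h1 h2 (hYe k _) hz0
    exact (hY k).2.2.1 z x ⟨n, l.length, z0, h1, h2, by rw [hdec]; exact hn⟩ hz
  have hτ : ∀ k, ∃ x, x ∈ Y k ∧ x ∉ Y (k + 1) := by
    intro k
    obtain ⟨-, x, h1, h2⟩ := (hY k).2.2.2 (k + 1) (Nat.lt_succ_self k)
    exact ⟨x, h1, h2⟩
  choose τ hτ1 hτ2 using hτ
  refine ⟨τ, fun j n hjn => hτ2 j ?_⟩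
  refine hYC (j + 1) _ ?_ hjn
  intro x hx
  obtain ⟨i, hi, rfl⟩ := ZFREE_mem_seg τ n j x hx
  rcases Nat.eq_or_lt_of_le hi with h1 | h1
  · rw [← h1]
    rw [← h1] at hx
    exact h1 ▸ hτ1 i
  · exact ((hY (j + 1)).2.2.2 i h1).1 (hτ1 i)

end Pool.Agent.H47Q
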