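import Pool.Agent.Lib.H47Q.ZExt
import Pool.Agent.Lib.H47Q.ZFree
import Pool.Agent.Lib.H47Q.ZCoh

/-!
# Chunk ZFIN: transfer to `Type`

* `exists_of_phi`: transfer to `Type` by `Shrink (Elt Ω)` (`Elt Ω` is small: see `ZFSet` in Mathlib). `Free`, `CohenMA` are
  invariant under equivalences.
-/

set_option autoImplicit false

open Set Function Cardinal

namespace Pool.Agent.H47Q

open Pool.Agent.H5Z Pool.Agent.H30C

universe u v

theorem ZFIN_seg_map {K : Type u} {L : Type v} (e : K → L) (τ : ℕ → K) (j n : ℕ) :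
    seg (fun i => e (τ i)) j n = (seg τ j n).map e := by
  induction n generalizing j with
  | zero => rfl
  | succ n ih => simp only [seg, List.map_cons, ih]

theorem ZFIN_free {K : Type u} {L : Type v} (e : K ≃ L) (h : Free K) : Free L := by
  intro C hC
  obtain ⟨τ, hτ⟩ := h (fun l => e ⁻¹' C (l.map e))
    (fun l => (hC _).preimage_of_injOn e.injective.injOn)
  refine ⟨fun n => e (τ n), fun j n hj => ?_⟩
  rw [ZFIN_seg_map] at hj
  exact hτ j n hj

theorem ZFIN_cohen {K : Type u} {L : Type v} (e : K ≃ L) (h : CohenMA K) : CohenMA L := by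
  classical
  intro D hD
  obtain ⟨c, hc⟩ := h (fun i => {p | (p.1.map e.toEmbedding, p.2.map e.toEmbedding) ∈ D (e i)}) (by
    intro i p hp
    obtain ⟨q, hq, hq1, hq2, hq3⟩ := hD (e i) (p.1.map e.toEmbedding, p.2.map e.toEmbedding)
      ((Finset.disjoint_map e.toEmbedding).2 hp)
    have h1 : ∀ s : Finset L, (s.map e.symm.toEmbedding).map e.toEmbedding = s := by
      intro s
      rw [Finset.map_map]
      convert Finset.map_refl
      ext x
      simp
    refine ⟨(q.1.map e.symm.toEmbedding, q.2.map e.symm.toEmbedding), ?_,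
      (Finset.disjoint_map e.symm.toEmbedding).2 hq1, ?_, ?_⟩
    · change ((q.1.map e.symm.toEmbedding).map e.toEmbedding,
        (q.2.map e.symm.toEmbedding).map e.toEmbedding) ∈ D (e i)
      rw [h1, h1]
      exact hq
    · intro x hx
      have := hq2 (Finset.mem_map_of_mem e.toEmbedding hx)
      change x ∈ q.1.map e.symm.toEmbedding
      rw [Finset.mem_map_equiv]
      simpa using this
    · intro x hx
      have := hq3 (Finset.mem_map_of_mem e.toEmbedding hx)
      change x ∈ q.2.map e.symm.toEmbedding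
      rw [Finset.mem_map_equiv]
      simpa using this)
  refine ⟨e '' c, fun i => ?_⟩
  obtain ⟨q, hq, hq1, hq2⟩ := hc (e.symm i)
  refine ⟨(q.1.map e.toEmbedding, q.2.map e.toEmbedding), ?_, ?_, ?_⟩
  · have h2 : (q.1.map e.toEmbedding, q.2.map e.toEmbedding) ∈ D (e (e.symm i)) := hq
    rwa [Equiv.apply_symm_apply] at h2
  · intro x hx hxc
    change x ∈ q.1.map e.toEmbedding at hx
    obtain ⟨y, hy, rfl⟩ := Finset.mem_map.1 hx
    obtain ⟨z, hz, hzy⟩ := hxc
    rw [e.injective hzy] at hz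
    exact hq1 y hy hz
  · intro x hx
    change x ∈ q.2.map e.toEmbedding at hx
    obtain ⟨y, hy, rfl⟩ := Finset.mem_map.1 hx
    exact ⟨y, hq2 y hy, rfl⟩

theorem exists_of_phi (h : PhiIn EZ) : ∃ K : Type, Infinite K ∧ Free K ∧ CohenMA K := by
  obtain ⟨Ω, o, H, T, Z, O, hX⟩ := xphi_of_in h
  have : Small.{0} (Elt Ω) := ZFSet.small_coe Ω
  have := infinite_of_xphi hX
  refine ⟨Shrink.{0} (Elt Ω), (equivShrink (Elt Ω)).infinite_iff.1 inferInstance,
    ZFIN_free (equivShrink _) (free_of_xphi hX), ZFIN_cohen (equivShrink _) (cohen_of_xphi hX)⟩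

end Pool.Agent.H47Q
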