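import Pool.Agent.Lib.H47Q.MainZ
import Pool.Agent.Lib.H47Q.Erd
import Pool.Agent.Lib.H47Q.NecMain
import Pool.Agent.Lib.H47Q.Model
import Pool.Agent.Lib.H47Q.ZFin
import Pool.Agent.Lib.H47Q.FDia

/-!
# The theorem
-/

set_option autoImplicit false

open Set Ordinal Cardinal

namespace Pool.Agent.H47Q

open Pool.Agent.H5Z Pool.Agent.H30C Pool.Agent.Lib.EHM47

theorem final :
    ((∃ (M : Type 1) (E : M → M → Prop), ModelsZFC E ∧ DiaIn E) ∧
      (DiaIn EZ → ¬ ∀ α : Ordinal.{0}, Order.IsSuccLimit α → PropP α)) ∧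
    (((∃ K : Type, Free K) → ∃ (M : Type 1) (E : M → M → Prop), ModelsZFC E ∧ PhiIn E) ∧
      (PhiIn EZ → ∀ α : Ordinal.{0}, Order.IsSuccLimit α → PropP α)) ∧
    (∀ K : Type, Erdos K → Free K) ∧
    (∀ K : Type, Free K → CohenMA K → ∀ α : Ordinal.{0}, Order.IsSuccLimit α → PropP α) ∧
    ((∀ α : Ordinal.{0}, Order.IsSuccLimit α → PropP α) → ∀ K : Type, Infinite K →
      (2 : Cardinal.{0}) ^ #K = Order.succ #K → Free K) := by
  refine ⟨⟨exists_dia_model, not_all_of_dia⟩,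
    ⟨fun ⟨K, hK⟩ => exists_phi_model hK, fun h α hα => ?_⟩,
    fun K h => free_of_erdos h, fun K hF hC α hα => ?_, fun hQ K hK h2 => necessity hQ h2⟩
  · obtain ⟨K, hK, hF, hC⟩ := exists_of_phi h
    exact mainZ hF hC α hα
  · have := infinite_of_free hF
    exact mainZ hF hC α hα

end Pool.Agent.H47Q
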