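import Pool.Agent.Lib.H47Q.Base

/-!
# Chunk HADD: sums, products and suprema of order types

`Has β S` (`Base.lean`): there is `f` with `f x ∈ S` for `x < β`, strictly increasing below `β`.

* `has_add`: `f₁` for `S`, `f₂` for `T`: use `x ↦ if x < a then f₁ x else f₂ (x - a)`
  (`x = a + (x - a)` for `a ≤ x`, and `x - a < b` for `x < a + b`).
* `has_mul`: with `f σ` for `S σ`: `x ↦ f (x / a) (x % a)`. (`Ordinal.div_add_mod`, `Ordinal.mod_lt`,
  `Ordinal.lt_mul_iff_div_lt`; `div_mod_lt` of `EHM47/Assign.lean`.) For `a = 0` the product is `0`.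
* `has_iff_enum`: `enumO S x` is the least element of `S` which is greater than `enumO S y` for all
  `y < x`. If `Has β S` then for all `x < β` such an element exists and `enumO S x ≤ f x`
  (induction on `x`: `f x` is greater than `f y ≥ enumO S y` for all `y < x`). Conversely, if for
  all `x < β` such an element exists then `enumO S` is the required function.
* `has_sup`: immediate from `has_iff_enum`.
-/

set_option autoImplicit false

open Set Ordinal

namespace Pool.Agent.H47Q

theorem has_add {a b : Ordinal.{0}} {S T : Set Ordinal.{0}} (hS : Has a S) (hT : Has b T)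
    (h : ∀ x ∈ S, ∀ y ∈ T, x < y) : Has (a + b) (S ∪ T) := by
  obtain ⟨f₁, h1, h2⟩ := hS
  obtain ⟨f₂, h3, h4⟩ := hT
  classical
  have key : ∀ x, ¬ x < a → x < a + b → x - a < b := by
    intro x hx hxb
    have hle : a ≤ x := not_lt.mp hx
    rw [Ordinal.sub_lt_of_le hle]
    exact hxb
  refine ⟨fun x => if x < a then f₁ x else f₂ (x - a), ?_, ?_⟩
  · intro x hx
    by_cases hxa : x < a
    · simp only [hxa, if_true]
      exact Or.inl (h1 x hxa)
    · simp only [hxa, if_false]
      exact Or.inr (h3 _ (key x hxa hx))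
  · intro x y hxy hy
    by_cases hya : y < a
    · have hxa : x < a := hxy.trans hya
      simp only [hxa, hya, if_true]
      exact h2 x y hxy hya
    · by_cases hxa : x < a
      · simp only [hxa, hya, if_true, if_false]
        exact h _ (h1 x hxa) _ (h3 _ (key y hya hy))
      · simp only [hxa, hya, if_false]
        apply h4 _ _ _ (key y hya hy)
        have hle : a ≤ x := not_lt.mp hxa
        have hle' : a ≤ y := not_lt.mp hya
        rw [Ordinal.sub_lt_of_le hle, Ordinal.add_sub_cancel_of_le hle']
        exact hxy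

theorem has_mul {a δ : Ordinal.{0}} (S : Ordinal.{0} → Set Ordinal.{0})
    (hS : ∀ σ < δ, Has a (S σ)) (h : ∀ σ τ, σ < τ → τ < δ → ∀ x ∈ S σ, ∀ y ∈ S τ, x < y) :
    Has (a * δ) {x | ∃ σ < δ, x ∈ S σ} := by
  classical
  rcases eq_or_ne a 0 with rfl | ha
  · rw [zero_mul]
    exact has_zero _
  choose f hf1 hf2 using hS
  have hdiv : ∀ x, x < a * δ → x / a < δ := fun x hx =>
    (Ordinal.lt_mul_iff_div_lt ha).mp hx
  refine ⟨fun x => if hx : x / a < δ then f (x / a) hx (x % a) else 0, ?_, ?_⟩
  · intro x hx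
    have h1 := hdiv x hx
    simp only [h1, dif_pos]
    exact ⟨x / a, h1, hf1 _ h1 _ (Ordinal.mod_lt x ha)⟩
  · intro x y hxy hy
    have h1 := hdiv y hy
    have h2 := hdiv x (hxy.trans hy)
    simp only [h1, h2, dif_pos]
    have hle : x / a ≤ y / a := by
      rw [← Ordinal.mul_le_iff_le_div ha]
      exact (Ordinal.mul_div_le x a).trans hxy.le
    rcases hle.lt_or_eq with hlt | heq
    · exact h _ _ hlt h1 _ (hf1 _ h2 _ (Ordinal.mod_lt x ha)) _
        (hf1 _ h1 _ (Ordinal.mod_lt y ha))
    · have hmod : x % a < y % a := by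
        have e1 := Ordinal.div_add_mod x a
        have e2 := Ordinal.div_add_mod y a
        rw [heq] at e1
        by_contra hcon
        have h5 : y % a ≤ x % a := not_lt.mp hcon
        have h6 : a * (y / a) + y % a ≤ a * (y / a) + x % a := by gcongr
        rw [e1, e2] at h6
        exact absurd hxy (not_lt.mpr h6)
      have h7 : f (x / a) h2 (x % a) = f (y / a) h1 (x % a) := by
        congr 1
      rw [h7]
      exact hf2 _ h1 _ _ hmod (Ordinal.mod_lt y ha)

/-- the increasing enumeration of `S` -/
noncomputable def enumO (S : Set Ordinal.{0}) (x : Ordinal.{0}) : Ordinal.{0} :=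
  sInf {b | b ∈ S ∧ ∀ y : Iio x, enumO S y.1 < b}
termination_by x
decreasing_by exact y.2

theorem has_iff_enum {β : Ordinal.{0}} {S : Set Ordinal.{0}} :
    Has β S ↔ ∀ x < β, ∃ b ∈ S, ∀ y < x, enumO S y < b := by
  constructor
  · rintro ⟨f, h1, h2⟩
    have key : ∀ x, x < β → enumO S x ≤ f x := by
      intro x
      induction x using WellFoundedLT.induction with
      | ind x ih =>
        intro hx
        rw [enumO]
        apply csInf_le'
        refine ⟨h1 x hx, fun y => ?_⟩
        exact (ih y.1 y.2 (lt_trans y.2 hx)).trans_lt (h2 y.1 x y.2 hx)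
    intro x hx
    exact ⟨f x, h1 x hx, fun y hy => (key y (hy.trans hx)).trans_lt (h2 y x hy hx)⟩
  · intro h
    have key : ∀ x < β, enumO S x ∈ S ∧ ∀ y < x, enumO S y < enumO S x := by
      intro x hx
      obtain ⟨b, hb, hb2⟩ := h x hx
      have hne : {b | b ∈ S ∧ ∀ y : Iio x, enumO S y.1 < b}.Nonempty :=
        ⟨b, hb, fun y => hb2 y.1 y.2⟩
      have hmem := csInf_mem hne
      have heq : enumO S x = sInf {b | b ∈ S ∧ ∀ y : Iio x, enumO S y.1 < b} := by
        rw [enumO]
      rw [← heq] at hmem
      exact ⟨hmem.1, fun y hy => hmem.2 ⟨y, hy⟩⟩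
    exact ⟨enumO S, fun x hx => (key x hx).1, fun x y hxy hy => (key y hy).2 x hxy⟩

/-- If `S` contains sets of all order types `γ + 1 ≤ β` then it contains a set of order type
`β`. -/
theorem has_sup {β : Ordinal.{0}} {S : Set Ordinal.{0}} (h : ∀ γ < β, Has (γ + 1) S) :
    Has β S := by
  rw [has_iff_enum]
  intro x hx
  exact has_iff_enum.mp (h x hx) x (lt_add_one x)

end Pool.Agent.H47Q
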