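import Pool.Agent.Lib.H47Q.HPow

/-!
# Chunk HMISC: Cantor normal form induction, cardinality, splitting, order isomorphisms

* `cnf_induction`: a property `P` of ordinals holds for all ordinals if it holds for `0` and if
  `P δ'` implies `P (ω ^ b + δ')` whenever `δ' < ω ^ b + δ'`. Proof: strong induction; for
  `δ ≠ 0` let `b = log ω δ`, `δ = ω ^ b + δ'` with `δ' = δ - ω ^ b`, and `δ' < δ`: otherwise
  `δ' = δ`, `ω ^ b + δ = δ`, so `ω ^ b * ω ≤ δ` (`Ordinal.add_eq_right_iff_mul_omega0_le` or similar),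
  contradicting `δ < ω ^ (b + 1)`.
* `has_all`: `Has β (Iio β)` and `Has β (blk β x)`.
* `has_of_card`: if the set `S` of ordinals has cardinality at least `κ` (`S` is in `Type 1`) then
  `Has κ.ord S`. By `has_iff_enum`: let `x < κ.ord`; if there is no `b ∈ S` greater than all
  `enumO S y`, `y < x`, take the least such `x`; then each element of `S` is `≤ enumO S y` for some
  `y < x`, and (by minimality: the least element of `{y : b ≤ enumO S y}`, for `b ∈ S`, satisfies
  `enumO S y = b`) each element of `S` is of the form `enumO S y` with `y < x`; so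
  `#S ≤ #(Iio x) < κ`.
* `has_split`: if `ω ∣ ρ` and `Has ρ A` there are pairwise disjoint `A m ⊆ A` (`m : ℕ`) with `Has ρ (A m)`:
  `A m = {f (ω * q + pair m n) : ω * q < ρ, n : ℕ}` where `f` is the function for `A`. The function for
  `A m` is `x ↦ f (ω * (x / ω) + pair m n)` where `x % ω = n`. (`Nat.pair_lt_pair_right`.)
* `propP_of_has`: if `A ⊆ Iio α` is independent and `Has α A` then there is an independent set
  `S : Set (Iio α)` with `Nonempty (S ≃o Iio α)`: the range of the function `f`.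
-/

set_option autoImplicit false

open Set Ordinal Cardinal

namespace Pool.Agent.H47Q

theorem cnf_induction {P : Ordinal.{0} → Prop} (h0 : P 0)
    (h1 : ∀ b δ' : Ordinal.{0}, δ' < ω ^ b + δ' → P δ' → P (ω ^ b + δ')) : ∀ δ, P δ := by
  intro δ
  induction δ using WellFoundedLT.induction with
  | ind δ ih =>
    rcases eq_or_ne δ 0 with rfl | hδ
    · exact h0
    · have h2 : δ - ω ^ log ω δ < δ := sub_omega0_opow_log_lt hδ
      have h3 : ω ^ log ω δ + (δ - ω ^ log ω δ) = δ :=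
        Ordinal.add_sub_cancel_of_le (opow_log_le_self ω hδ)
      have h4 := h1 (log ω δ) (δ - ω ^ log ω δ) (by rw [h3]; exact h2) (ih _ h2)
      rw [h3] at h4
      exact h4

theorem has_all (β x : Ordinal.{0}) : Has β (blk β x) :=
  ⟨fun y => x + y, fun y hy => ⟨le_self_add, (add_lt_add_iff_left x).mpr hy⟩,
    fun _ _ hxy _ => (add_lt_add_iff_left x).mpr hxy⟩

/-- translation -/
theorem has_shift {β x : Ordinal.{0}} {S : Set Ordinal.{0}} (h : Has β {y | x + y ∈ S}) :
    Has β S := by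
  obtain ⟨f, h1, h2⟩ := h
  exact ⟨fun y => x + f y, h1, fun y z hyz hz => (add_lt_add_iff_left x).mpr (h2 y z hyz hz)⟩

theorem has_of_card {κ : Cardinal.{0}} {S : Set Ordinal.{0}}
    (h : Cardinal.lift.{1} κ ≤ #S) : Has κ.ord S := by
  classical
  rw [has_iff_enum]
  intro x hx
  by_contra hcon
  push Not at hcon
  have hex : ∀ b : S, ∃ y, y < x ∧ b.1 ≤ enumO S y := fun b => hcon b.1 b.2
  have key : ∀ b : S, ∃ y, y < x ∧ enumO S y = b.1 := by
    intro b
    set Y : Set Ordinal.{0} := {y | y < x ∧ b.1 ≤ enumO S y} with hY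
    have hne : Y.Nonempty := hex b
    have hmem : sInf Y ∈ Y := csInf_mem hne
    refine ⟨sInf Y, hmem.1, le_antisymm ?_ hmem.2⟩
    rw [enumO]
    apply csInf_le'
    refine ⟨b.2, fun y => ?_⟩
    by_contra hlt
    have hle : b.1 ≤ enumO S y.1 := not_lt.mp hlt
    have h3 : y.1 ∈ Y := ⟨lt_trans y.2 hmem.1, hle⟩
    exact absurd y.2 (not_lt.mpr (csInf_le' h3))
  choose g hg1 hg2 using key
  have hinj : Function.Injective (fun b : S => (⟨g b, hg1 b⟩ : Iio x)) := by
    intro b c hbc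
    have h3 : g b = g c := congrArg Subtype.val hbc
    apply Subtype.ext
    rw [← hg2 b, ← hg2 c, h3]
  have h4 := Cardinal.mk_le_of_injective hinj
  rw [Cardinal.mk_Iio_ordinal] at h4
  have h5 : Cardinal.lift.{1} x.card < Cardinal.lift.{1} κ :=
    Cardinal.lift_lt.mpr (Cardinal.lt_ord.mp hx)
  exact absurd (h.trans h4) (not_le.mpr h5)

theorem has_split {ρ : Ordinal.{0}} (hρ : ω ∣ ρ) {A : Set Ordinal.{0}} (hA : Has ρ A) :
    ∃ B : ℕ → Set Ordinal.{0}, (∀ m, B m ⊆ A) ∧ (∀ m, Has ρ (B m)) ∧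
      ∀ m n, m ≠ n → Disjoint (B m) (B n) := by
  classical
  obtain ⟨c, rfl⟩ := hρ
  obtain ⟨f, hf1, hf2⟩ := hA
  have hmod : ∀ x : Ordinal.{0}, ∃ n : ℕ, x % ω = n := fun x =>
    lt_omega0.mp (Ordinal.mod_lt x omega0_ne_zero)
  choose r hr using hmod
  let p : ℕ → Ordinal.{0} → Ordinal.{0} := fun m x => ω * (x / ω) + (Nat.pair m (r x) : ℕ)
  have hp : ∀ m x, x < ω * c → p m x < ω * c := by
    intro m x hx
    exact Pool.Agent.Lib.EHM47.mul_add_lt
      ((Ordinal.lt_mul_iff_div_lt omega0_ne_zero).mp hx) (natCast_lt_omega0 _)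
  have hpm : ∀ m x y, x < y → p m x < p m y := by
    intro m x y hxy
    rcases Pool.Agent.Lib.EHM47.div_mod_lt (a := ω) hxy with h1 | ⟨h1, h2⟩
    · exact Pool.Agent.Lib.EHM47.mul_add_lt_mul_add _ h1 (natCast_lt_omega0 _)
    · change ω * (x / ω) + (Nat.pair m (r x) : ℕ) < ω * (y / ω) + (Nat.pair m (r y) : ℕ)
      rw [h1]
      apply (add_lt_add_iff_left _).mpr
      rw [hr x, hr y] at h2
      have h3 : r x < r y := by exact_mod_cast h2
      have h4 : Nat.pair m (r x) < Nat.pair m (r y) := Nat.pair_lt_pair_right m h3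
      exact_mod_cast h4
  have hpi : ∀ m m' x x', p m x = p m' x' → m = m' := by
    intro m m' x x' h
    have h1 := congrArg (fun z => z % ω) h
    simp only [p, Ordinal.mul_add_mod_self] at h1
    rw [Ordinal.mod_eq_of_lt (natCast_lt_omega0 _), Ordinal.mod_eq_of_lt (natCast_lt_omega0 _)] at h1
    have h2 : Nat.pair m (r x) = Nat.pair m' (r x') := by exact_mod_cast h1
    exact (Nat.pair_eq_pair.mp h2).1
  refine ⟨fun m => {z | ∃ x < ω * c, z = f (p m x)}, ?_, ?_, ?_⟩
  · rintro m z ⟨x, hx, rfl⟩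
    exact hf1 _ (hp m x hx)
  · intro m
    exact ⟨fun x => f (p m x), fun x hx => ⟨x, hx, rfl⟩, fun x y hxy hy =>
      hf2 _ _ (hpm m x y hxy) (hp m y hy)⟩
  · intro m n hmn
    rw [Set.disjoint_left]
    rintro z ⟨x, hx, rfl⟩ ⟨y, hy, hz⟩
    rcases lt_trichotomy (p m x) (p n y) with h1 | h1 | h1
    · exact absurd hz (hf2 _ _ h1 (hp n y hy)).ne
    · exact hmn (hpi _ _ _ _ h1)
    · exact absurd hz (hf2 _ _ h1 (hp m x hx)).ne'

theorem orderIso_of_has {α : Ordinal.{0}} {A : Set Ordinal.{0}} (hA : A ⊆ Iio α)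
    (h : Has α A) : ∃ S : Set (Iio α), (∀ x ∈ S, x.1 ∈ A) ∧ Nonempty (S ≃o Iio α) := by
  obtain ⟨f, h1, h2⟩ := h
  let g : Iio α → Iio α := fun x => ⟨f x.1, hA (h1 x.1 x.2)⟩
  have hg : StrictMono g := fun x y hxy => h2 x.1 y.1 hxy y.2
  refine ⟨Set.range g, ?_, ⟨(StrictMono.orderIso g hg).symm⟩⟩
  rintro _ ⟨x, rfl⟩
  exact h1 x.1 x.2

end Pool.Agent.H47Q
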