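import Pool.Agent.Lib.H47Q.HAdd

/-!
# Chunk HPOW: powers of `ω`

* `blk_opow_sub`: if `g < b`, `x ≤ y < x + ω^b` then `y + ω^g ≤ x + ω^b`: write `y = x + z` with
  `z < ω^b`; `z + ω^g < ω^b` because `ω^b` is additively principal
  (`Ordinal.isPrincipal_add_omega0_opow` or similar).
* `has_opow_succ`: if for every `y0 < x + ω^(g+1)` there is `y ≥ y0`, `x ≤ y`, `y + ω^g ≤ x + ω^(g+1)` with
  `Has (ω^g) (S ∩ blk (ω^g) y)` then `Has (ω^(g+1)) (S ∩ blk (ω^(g+1)) x)`: choose
  `y_0 < y_1 < …` with `y_{n+1} ≥ y_n + ω^g` (it is `< x + ω^(g+1)` by `blk_opow_sub`-like arguments),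
  and apply `has_mul` with `δ = ω` (`ω^(g+1) = ω^g * ω`; for `σ < ω`, `σ = n` with `n : ℕ`).
* `has_opow_cof`: the same for all `b > 0`, where for every `g0 < b` and `y0 < x + ω^b` there are
  `g`, `y` with `g0 ≤ g < b`, `y0 ≤ y`, `x ≤ y`, `y + ω^g ≤ x + ω^b` and `Has (ω^g) (S ∩ blk (ω^g) y)`. If
  `b = g' + 1` take `g0 = g'`, then `g = g'`, use `has_opow_succ`. If `b` is a limit then `Has (ω^g0) (S ∩ blk (ω^b) x)` for all
  `g0 < b`; so `Has (γ + 1)` for all `γ < ω^b` (as `γ + 1 ≤ ω^g0` for some `g0 < b`,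
  `Ordinal.lt_opow_of_isSuccLimit` or similar), so `has_sup` applies.
* `has_opow_union`: induction on `b`. `b = 0`: `has_one`. `b = g + 1`: from `f` for `S ∪ T`; for each
  `n : ℕ` the set `f '' [ω^g n, ω^g (n+1))` has a subset of order type `ω^g`, so its intersection with
  `S` or with `T` has one; one of the two happens for infinitely many `n`, say for `S`; `has_mul`
  for the increasing enumeration of these `n`. `b` a limit: for each `g < b`, `Has (ω^g) S` or
  `Has (ω^g) T`. If `Has (ω^g) S` for all `g < b` then `has_sup`. Otherwise not `Has (ω^g0) S`, so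
  for all `g ≥ g0` not `Has (ω^g) S`, so `Has (ω^g) T` for all `g0 ≤ g < b`, so for all `g < b`.
-/

set_option autoImplicit false

open Set Ordinal

namespace Pool.Agent.H47Q

theorem blk_opow_sub {b g x y : Ordinal.{0}} (hg : g < b) (hxy : x ≤ y) (hy : y < x + ω ^ b) :
    y + ω ^ g < x + ω ^ b := by
  obtain ⟨z, rfl⟩ : ∃ z, y = x + z := ⟨y - x, (Ordinal.add_sub_cancel_of_le hxy).symm⟩
  have hz : z < ω ^ b := (add_lt_add_iff_left x).mp hy
  have hg' : ω ^ g < ω ^ b := (Ordinal.opow_lt_opow_iff_right one_lt_omega0).mpr hg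
  rw [add_assoc]
  exact (add_lt_add_iff_left x).mpr ((isPrincipal_add_omega0_opow b) hz hg')

theorem blk_subset {a b x y : Ordinal.{0}} (hxy : x ≤ y) (h : y + a ≤ x + b) :
    blk a y ⊆ blk b x := by
  intro z hz
  rw [mem_blk] at hz ⊢
  exact ⟨hxy.trans hz.1, hz.2.trans_le h⟩

/-- the union of an increasing `ω`-sequence of sets of order type `ω ^ g` -/
theorem HPOW_seq {g : Ordinal.{0}} (A : ℕ → Set Ordinal.{0}) (hA : ∀ n, Has (ω ^ g) (A n))
    (h : ∀ m n, m < n → ∀ x ∈ A m, ∀ y ∈ A n, x < y) {S : Set Ordinal.{0}}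
    (hS : ∀ n, A n ⊆ S) : Has (ω ^ (g + 1)) S := by
  have h1 := has_mul (a := ω ^ g) (δ := ω) (fun σ => {z | ∃ n : ℕ, σ = n ∧ z ∈ A n}) ?_ ?_
  · rw [← opow_add_one] at h1
    refine h1.mono ?_ le_rfl
    rintro z ⟨σ, _, n, _, hz⟩
    exact hS n hz
  · intro σ hσ
    obtain ⟨n, rfl⟩ := lt_omega0.mp hσ
    exact (hA n).mono (fun z hz => ⟨n, rfl, hz⟩) le_rfl
  · rintro σ τ hστ hτ x ⟨m, rfl, hx⟩ y ⟨n, rfl, hy⟩
    exact h m n (by exact_mod_cast hστ) x hx y hy

theorem has_opow_succ {g x : Ordinal.{0}} {S : Set Ordinal.{0}}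
    (h : ∀ y0 < x + ω ^ (g + 1), ∃ y, y0 ≤ y ∧ x ≤ y ∧ y + ω ^ g ≤ x + ω ^ (g + 1) ∧
      Has (ω ^ g) (S ∩ blk (ω ^ g) y)) : Has (ω ^ (g + 1)) (S ∩ blk (ω ^ (g + 1)) x) := by
  classical
  have hpos : ∀ c : Ordinal.{0}, 0 < ω ^ c := fun c => opow_pos c omega0_pos
  let Y := {y : Ordinal.{0} // x ≤ y ∧ y + ω ^ g ≤ x + ω ^ (g + 1) ∧
    Has (ω ^ g) (S ∩ blk (ω ^ g) y)}
  have hx : x < x + ω ^ (g + 1) := lt_add_of_pos_right x (hpos _)
  obtain ⟨y0, _, hy1, hy2, hy3⟩ := h x hx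
  have hnext : ∀ p : Y, ∃ q : Y, p.1 + ω ^ g ≤ q.1 := by
    rintro ⟨p, hp1, hp2, hp3⟩
    have hlt : p < x + ω ^ (g + 1) := (lt_add_of_pos_right p (hpos g)).trans_le hp2
    obtain ⟨q, hq0, hq1, hq2, hq3⟩ := h (p + ω ^ g) (blk_opow_sub (lt_add_one g) hp1 hlt)
    exact ⟨⟨q, hq1, hq2, hq3⟩, hq0⟩
  choose next hnext' using hnext
  let y : ℕ → Y := fun n => next^[n] ⟨y0, hy1, hy2, hy3⟩
  have hstep : ∀ n, (y n).1 + ω ^ g ≤ (y (n + 1)).1 := by
    intro n
    have : y (n + 1) = next (y n) := Function.iterate_succ_apply' next n _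
    rw [this]
    exact hnext' (y n)
  have hmono : ∀ m n, m < n → (y m).1 + ω ^ g ≤ (y n).1 := by
    intro m n hmn
    induction n with
    | zero => omega
    | succ n ih =>
      rcases Nat.lt_succ_iff_lt_or_eq.mp hmn with h1 | h1
      · exact (ih h1).trans (le_trans le_self_add (hstep n))
      · rw [h1]
        exact hstep n
  refine HPOW_seq (fun n => S ∩ blk (ω ^ g) (y n).1) (fun n => (y n).2.2.2) ?_ ?_
  · rintro m n hmn z ⟨_, hz⟩ z' ⟨_, hz'⟩
    rw [mem_blk] at hz hz'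
    exact hz.2.trans_le ((hmono m n hmn).trans hz'.1)
  · intro n
    exact inter_subset_inter_right S (blk_subset (y n).2.1 (y n).2.2.1)

theorem has_opow_limit {b : Ordinal.{0}} (hb : Order.IsSuccLimit b) {S : Set Ordinal.{0}}
    (h : ∀ g < b, Has (ω ^ g) S) : Has (ω ^ b) S := by
  apply has_sup
  intro γ hγ
  obtain ⟨g, hg, hγg⟩ := (lt_opow_of_isSuccLimit omega0_ne_zero hb).mp hγ
  exact (h g hg).mono (Subset.refl S) (Order.add_one_le_of_lt hγg)

theorem has_opow_cof {b x : Ordinal.{0}} (hb : 0 < b) {S : Set Ordinal.{0}}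
    (h : ∀ g0 < b, ∀ y0 < x + ω ^ b, ∃ g y, g0 ≤ g ∧ g < b ∧ y0 ≤ y ∧ x ≤ y ∧
      y + ω ^ g ≤ x + ω ^ b ∧ Has (ω ^ g) (S ∩ blk (ω ^ g) y)) :
    Has (ω ^ b) (S ∩ blk (ω ^ b) x) := by
  rcases Ordinal.zero_or_succ_or_isSuccLimit b with rfl | ⟨g', rfl⟩ | hlim
  · exact absurd hb (lt_irrefl 0)
  · rw [Order.succ_eq_add_one] at h ⊢
    apply has_opow_succ
    intro y0 hy0
    obtain ⟨g, y, h1, h2, h3, h4, h5, h6⟩ := h g' (lt_add_one g') y0 hy0
    have : g = g' := le_antisymm (Order.lt_add_one_iff.mp h2) h1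
    subst this
    exact ⟨y, h3, h4, h5, h6⟩
  · apply has_opow_limit hlim
    intro g0 hg0
    have hx : x < x + ω ^ b := lt_add_of_pos_right x (opow_pos b omega0_pos)
    obtain ⟨g, y, h1, h2, h3, h4, h5, h6⟩ := h g0 hg0 x hx
    exact h6.mono (inter_subset_inter_right S (blk_subset h4 h5))
      (opow_le_opow_right omega0_pos h1)

/-- Powers of `ω` are indecomposable. -/
theorem has_opow_union (b : Ordinal.{0}) : ∀ S T : Set Ordinal.{0}, Has (ω ^ b) (S ∪ T) →
    Has (ω ^ b) S ∨ Has (ω ^ b) T := by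
  classical
  induction b using WellFoundedLT.induction with
  | ind b ih =>
    intro S T hST
    rcases Ordinal.zero_or_succ_or_isSuccLimit b with rfl | ⟨g, rfl⟩ | hlim
    · rw [opow_zero, has_one] at hST
      rw [opow_zero, has_one, has_one]
      obtain ⟨a, ha | ha⟩ := hST
      · exact Or.inl ⟨a, ha⟩
      · exact Or.inr ⟨a, ha⟩
    · rw [Order.succ_eq_add_one] at *
      obtain ⟨f, hf1, hf2⟩ := hST
      let U : ℕ → Set Ordinal.{0} := fun n => {z | ∃ x, ω ^ g * n ≤ x ∧ x < ω ^ g * (n + 1) ∧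
        z = f x}
      have hlt : ∀ n : ℕ, ω ^ g * ((n : Ordinal.{0}) + 1) ≤ ω ^ (g + 1) := by
        intro n
        rw [opow_add_one]
        have h1 : (n : Ordinal.{0}) + 1 ≤ ω := by
          have := (natCast_lt_omega0 (n + 1)).le
          exact_mod_cast this
        gcongr
      have hor : ∀ n, Has (ω ^ g) (S ∩ U n) ∨ Has (ω ^ g) (T ∩ U n) := by
        intro n
        apply ih g (lt_add_one g)
        have hb : ∀ x < ω ^ g, ω ^ g * n + x < ω ^ g * (n + 1) := by
          intro x hx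
          rw [mul_add_one]
          exact (add_lt_add_iff_left _).mpr hx
        refine ⟨fun x => f (ω ^ g * n + x), fun x hx => ?_, fun x y hxy hy => ?_⟩
        · have h1 := hf1 _ ((hb x hx).trans_le (hlt n))
          have h2 : f (ω ^ g * n + x) ∈ U n := ⟨_, le_self_add, hb x hx, rfl⟩
          rcases h1 with h1 | h1
          · exact Or.inl ⟨h1, h2⟩
          · exact Or.inr ⟨h1, h2⟩
        · exact hf2 _ _ ((add_lt_add_iff_left _).mpr hxy) ((hb y hy).trans_le (hlt n))
      have key : ∀ S' : Set Ordinal.{0}, {n : ℕ | Has (ω ^ g) (S' ∩ U n)}.Infinite →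
          Has (ω ^ (g + 1)) S' := by
        intro S' hinf
        let e := Nat.nth (fun n => Has (ω ^ g) (S' ∩ U n))
        have he1 : StrictMono e := Nat.nth_strictMono hinf
        have he2 : ∀ n, Has (ω ^ g) (S' ∩ U (e n)) := fun n => Nat.nth_mem_of_infinite hinf n
        refine HPOW_seq (fun n => S' ∩ U (e n)) he2 ?_ (fun n => inter_subset_left)
        rintro m n hmn z ⟨_, x, hx1, hx2, rfl⟩ z' ⟨_, x', hx1', hx2', rfl⟩
        apply hf2
        · have h1 : e m + 1 ≤ e n := he1 hmn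
          have h2 : ((e m : Ordinal.{0}) + 1) ≤ (e n : Ordinal.{0}) := by exact_mod_cast h1
          have h3 : ω ^ g * ((e m : Ordinal.{0}) + 1) ≤ ω ^ g * (e n : Ordinal.{0}) := by gcongr
          exact hx2.trans_le (h3.trans hx1')
        · exact hx2'.trans_le (hlt _)
      by_cases hinf : {n : ℕ | Has (ω ^ g) (S ∩ U n)}.Infinite
      · exact Or.inl (key S hinf)
      · right
        apply key T
        rw [Set.not_infinite] at hinf
        apply hinf.infinite_compl.mono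
        intro n hn
        exact (hor n).resolve_left hn
    · by_cases hall : ∀ g < b, Has (ω ^ g) S
      · exact Or.inl (has_opow_limit hlim hall)
      · right
        push Not at hall
        obtain ⟨g0, hg0, hnot⟩ := hall
        apply has_opow_limit hlim
        intro g hg
        have hmax : max g g0 < b := max_lt hg hg0
        have h1 : Has (ω ^ (max g g0)) (S ∪ T) :=
          hST.mono (Subset.refl _) (opow_le_opow_right omega0_pos hmax.le)
        rcases ih _ hmax S T h1 with h2 | h2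
        · exact absurd (h2.mono (Subset.refl _)
            (opow_le_opow_right omega0_pos (le_max_right g g0))) hnot
        · exact h2.mono (Subset.refl _) (opow_le_opow_right omega0_pos (le_max_left g g0))

end Pool.Agent.H47Q
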