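import Pool.Agent.Lib.H47Q.HMisc

/-!
# The free set lemma: definitions

`Kil Z` (the set `Z ⊆ K` is small): some `C` has no free sequence with all terms in `Z`.

For `s : Ordinal → Set K` let `Mt s t = {y : t ∉ s y}`. A block is a pair `(c, y)` of ordinals, standing for
`blk (ω ^ c) y`. `dg s t c y` is the degree of `t` on the block: the least `g` such that
`Mt s t ∩ blk (ω ^ c) y` has no subset of order type `ω ^ (g + 1)`.
`ix s t c y c'` is the least `n` such that for all `j ≥ n` the set `Mt s t ∩ blk (ω ^ c') (y + ω ^ c' * j)`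
has no subset of order type `ω ^ (dg s t c y)`.
-/

set_option autoImplicit false

open Set Ordinal

namespace Pool.Agent.H47Q

variable {K : Type}

/-- the set `Z` is small -/
def Kil (Z : Set K) : Prop :=
  ∃ C : List K → Set K, (∀ l, (C l).Countable) ∧
    ¬ ∃ τ : ℕ → K, (∀ j, τ j ∈ Z) ∧ ∀ j n, τ j ∉ C (seg τ j n)

/-- the ordinals `y` with `t ∉ s y` -/
def Mt (s : Ordinal.{0} → Set K) (t : K) : Set Ordinal.{0} := {y | t ∉ s y}

/-- the degree of `t` on the block `(c, y)` -/
noncomputable def dg (s : Ordinal.{0} → Set K) (t : K) (c y : Ordinal.{0}) : Ordinal.{0} :=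
  sInf {g | ¬ Has (ω ^ (g + 1)) (Mt s t ∩ blk (ω ^ c) y)}

/-- from this index on the degree on the blocks `(c', y + ω ^ c' * j)` is smaller -/
noncomputable def ix (s : Ordinal.{0} → Set K) (t : K) (c y c' : Ordinal.{0}) : ℕ :=
  sInf {n | ∀ j ≥ n, ¬ Has (ω ^ dg s t c y) (Mt s t ∩ blk (ω ^ c') (y + ω ^ c' * (j : Ordinal)))}

/-- the list of degrees along the path given by the list of exponents -/
noncomputable def degs (s : Ordinal.{0} → Set K) (t : K) :
    Ordinal.{0} → Ordinal.{0} → List Ordinal.{0} → List Ordinal.{0}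
  | c, y, [] => [dg s t c y]
  | c, y, c' :: cs =>
    dg s t c y :: degs s t c' (y + ω ^ c' * ((ix s t c y c' : ℕ) : Ordinal)) cs

/-- the first points of the blocks reached from the point `y` -/
def Pth : Ordinal.{0} → List Ordinal.{0} → Set Ordinal.{0}
  | y, [] => {y}
  | y, c :: cs => insert y (⋃ j : ℕ, Pth (y + ω ^ c * (j : Ordinal)) cs)

/-- the list of exponents assigned to a list -/
noncomputable def cl (s : Ordinal.{0} → Set K) (b x : Ordinal.{0}) : List K → List Ordinal.{0}
  | [] => []
  | t :: l => degs s t b x (cl s b x l)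

/-- the function `C` -/
noncomputable def CC (s : Ordinal.{0} → Set K) (b x : Ordinal.{0}) (l : List K) : Set K :=
  ⋃ y ∈ Pth x (cl s b x l), s y

end Pool.Agent.H47Q
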