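import Pool.Agent.Lib.H47Q.MCo

/-!
# Chunk MCCC: the Cohen poset is ccc

* `co_ccc`: the poset is ccc. Let `E` be a set of pairwise incompatible conditions. It suffices that for each `n` the set of the `p ∈ E` with
  `p.z.card + p.o.card = n` is finite. In fact `m` pairwise incompatible conditions `p_1, …, p_m` with `n` points in the domain satisfy
  `m ≤ 2 ^ n`: let `S` be the union of the domains; the sets `{c ⊆ S : p_i.o ⊆ c, c disjoint from p_i.z}` are pairwise disjoint subsets
  of the power set of `S` and have `2 ^ (|S| - n)` elements. (Use `Finset.card_biUnion`, `Finset.card_powerset`; the set for `p` is the image of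
  the power set of `S \ (p.z ∪ p.o)` under `a ↦ a ∪ p.o`.)
-/

set_option autoImplicit false

open Set Function Cardinal

namespace Pool.Agent.H47Q

open Pool.Agent.H5Z Pool.Agent.H30C

theorem mccc_bound {I : Type} (F : Finset (Co I)) (n : ℕ) (hn : ∀ p ∈ F, p.z.card + p.o.card = n)
    (hF : ∀ p ∈ F, ∀ q ∈ F, p ≠ q → ¬ ∃ r : Co I, r ≤ p ∧ r ≤ q) : F.card ≤ 2 ^ n := by
  classical
  set S : Finset I := F.biUnion (fun p => p.z ∪ p.o) with hS
  have hsub : ∀ p ∈ F, p.z ∪ p.o ⊆ S := fun p hp =>
    Finset.subset_biUnion_of_mem (fun p : Co I => p.z ∪ p.o) hp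
  set N : Co I → Finset (Finset I) := fun p =>
    (S \ (p.z ∪ p.o)).powerset.image (fun a => a ∪ p.o) with hN
  have hNmem : ∀ p ∈ F, ∀ c ∈ N p, c ⊆ S ∧ p.o ⊆ c ∧ Disjoint p.z c := by
    intro p hp c hc
    rw [hN, Finset.mem_image] at hc
    obtain ⟨a, ha, rfl⟩ := hc
    rw [Finset.mem_powerset] at ha
    refine ⟨?_, Finset.subset_union_right, ?_⟩
    · apply Finset.union_subset
      · exact ha.trans Finset.sdiff_subset
      · exact Finset.subset_union_right.trans (hsub p hp)
    · rw [Finset.disjoint_union_right]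
      refine ⟨?_, p.disj⟩
      rw [Finset.disjoint_left]
      intro x hx hxa
      have := ha hxa
      rw [Finset.mem_sdiff, Finset.mem_union] at this
      exact this.2 (Or.inl hx)
  have hNcard : ∀ p ∈ F, (N p).card = 2 ^ (S.card - n) := by
    intro p hp
    rw [hN]
    beta_reduce
    rw [Finset.card_image_of_injOn, Finset.card_powerset, Finset.card_sdiff_of_subset (hsub p hp),
      Finset.card_union_of_disjoint p.disj, hn p hp]
    intro a ha b hb hab
    rw [Finset.mem_coe, Finset.mem_powerset] at ha hb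
    beta_reduce at hab
    have key : ∀ (a b : Finset I), a ⊆ S \ (p.z ∪ p.o) → a ∪ p.o = b ∪ p.o → a ⊆ b := by
      intro a b ha hab x hx
      have h1 : x ∈ b ∪ p.o := by
        rw [← hab]
        exact Finset.mem_union_left _ hx
      rcases Finset.mem_union.1 h1 with h2 | h2
      · exact h2
      · have h3 := ha hx
        rw [Finset.mem_sdiff, Finset.mem_union] at h3
        exact absurd (Or.inr h2) h3.2
    exact Finset.Subset.antisymm (key a b ha hab) (key b a hb hab.symm)
  have hdis : ∀ p ∈ F, ∀ q ∈ F, p ≠ q → Disjoint (N p) (N q) := by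
    intro p hp q hq hpq
    rw [Finset.disjoint_left]
    intro c hcp hcq
    obtain ⟨h1, h2, h3⟩ := hNmem p hp c hcp
    obtain ⟨_, h5, h6⟩ := hNmem q hq c hcq
    refine hF p hp q hq hpq ⟨⟨S \ c, c, Finset.sdiff_disjoint⟩, ⟨?_, h2⟩, ⟨?_, h5⟩⟩
    · intro x hx
      exact Finset.mem_sdiff.2 ⟨hsub p hp (Finset.mem_union_left _ hx),
        Finset.disjoint_left.1 h3 hx⟩
    · intro x hx
      exact Finset.mem_sdiff.2 ⟨hsub q hq (Finset.mem_union_left _ hx),
        Finset.disjoint_left.1 h6 hx⟩
  have hle : (F.biUnion N).card ≤ 2 ^ S.card := by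
    rw [← Finset.card_powerset]
    apply Finset.card_le_card
    intro c hc
    rw [Finset.mem_biUnion] at hc
    obtain ⟨p, hp, hc⟩ := hc
    exact Finset.mem_powerset.2 (hNmem p hp c hc).1
  rw [Finset.card_biUnion hdis, Finset.sum_congr rfl hNcard, Finset.sum_const, smul_eq_mul] at hle
  rcases F.eq_empty_or_nonempty with hF0 | ⟨p, hp⟩
  · rw [hF0]
    simp
  · have hnS : n ≤ S.card := by
      rw [← hn p hp, ← Finset.card_union_of_disjoint p.disj]
      exact Finset.card_le_card (hsub p hp)
    have h1 : (2 : ℕ) ^ S.card = 2 ^ n * 2 ^ (S.card - n) := by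
      rw [← pow_add]
      congr 1
      omega
    rw [h1] at hle
    exact Nat.le_of_mul_le_mul_right hle (by positivity)

theorem co_ccc (I : Type) : PCcc (Co I) := by
  classical
  intro E hE
  have h1 : E = ⋃ n : ℕ, {p ∈ E | p.z.card + p.o.card = n} := by
    ext p
    simp
  rw [h1]
  apply Set.countable_iUnion
  intro n
  apply Set.Finite.countable
  by_contra hinf
  obtain ⟨F, hF, hc⟩ := Set.Infinite.exists_subset_card_eq hinf (2 ^ n + 1)
  have h2 := mccc_bound F n (fun p hp => (hF hp).2)
    (fun p hp q hq hpq => hE p (hF hp).1 q (hF hq).1 hpq)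
  omega

end Pool.Agent.H47Q
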