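import Pool.Agent.Lib.H47Q.MDefs

/-!
# Chunk MCLO: decreasing sequences of closed sets

* `exists_desc`: let `Free K` and let `D : K → Set K` be countable-valued. For `A ⊆ K` let `clo A` be the least set which contains
  `A ∪ {o}`, and contains `z` for all `z ≠ o` with `hd z, tl z` in it, and contains `D z` for all `z` in it. It is
  countable if `A` is countable: `clo A = ⋃ n, A_n`, `A_0 = A ∪ {o}`,
  `A_{n+1} = A_n ∪ {z | z ≠ o ∧ hd z ∈ A_n ∧ tl z ∈ A_n} ∪ ⋃ z ∈ A_n, D z` (`d.inj`). Let `τ` be a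
  free sequence for `C l = clo {x | x ∈ l}`; `X n = ⋃ k, clo {τ n, …, τ (n + k)}` (or `clo {τ i | n ≤ i}`, which is this
  union because a closure is the union of the closures of the finite subsets). Then `X (n+1) ⊆ X n`, `τ n ∈ X n` and
  `τ n ∉ X (n + 1)`, as `X (n + 1) = ⋃ k, clo {τ (n+1), …, τ (n + 1 + k)} = ⋃ k, C (seg τ n (k + 1))`.
-/

set_option autoImplicit false

open Set Function Cardinal

namespace Pool.Agent.H47Q

variable {K : Type}

/-- The closure of `A`. -/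
inductive MCLO_Clo (d : PData K) (D : K → Set K) (A : Set K) : K → Prop
  | base (x : K) (h : x ∈ A) : MCLO_Clo d D A x
  | o : MCLO_Clo d D A d.o
  | pair (z : K) (h : z ≠ d.o) (h1 : MCLO_Clo d D A (d.hd z)) (h2 : MCLO_Clo d D A (d.tl z)) :
      MCLO_Clo d D A z
  | fn (z x : K) (h : MCLO_Clo d D A z) (hx : x ∈ D z) : MCLO_Clo d D A x

theorem MCLO_mono (d : PData K) (D : K → Set K) {A A' : Set K} (h : A ⊆ A') {x : K}
    (hx : MCLO_Clo d D A x) : MCLO_Clo d D A' x := by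
  induction hx with
  | base x hx => exact .base x (h hx)
  | o => exact .o
  | pair z hz _ _ ih1 ih2 => exact .pair z hz ih1 ih2
  | fn z x _ hx ih => exact .fn z x ih hx

/-- The stages of the construction of the closure. -/
def MCLO_st (d : PData K) (D : K → Set K) (A : Set K) : ℕ → Set K
  | 0 => A ∪ {d.o}
  | n + 1 => MCLO_st d D A n ∪
      ({z | z ≠ d.o ∧ d.hd z ∈ MCLO_st d D A n ∧ d.tl z ∈ MCLO_st d D A n} ∪
        ⋃ z ∈ MCLO_st d D A n, D z)

theorem MCLO_st_countable (d : PData K) (D : K → Set K) (hD : ∀ z, (D z).Countable) {A : Set K}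
    (hA : A.Countable) (n : ℕ) : (MCLO_st d D A n).Countable := by
  induction n with
  | zero => exact hA.union (Set.countable_singleton _)
  | succ n ih =>
    refine ih.union (Set.Countable.union ?_ (ih.biUnion fun z _ => hD z))
    have h1 : Set.MapsTo (fun z => (d.hd z, d.tl z))
        {z | z ≠ d.o ∧ d.hd z ∈ MCLO_st d D A n ∧ d.tl z ∈ MCLO_st d D A n}
        ((MCLO_st d D A n) ×ˢ (MCLO_st d D A n)) := fun z hz => ⟨hz.2.1, hz.2.2⟩
    refine h1.countable_of_injOn ?_ (ih.prod ih)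
    intro z hz z' hz' h
    exact d.inj z z' hz.1 hz'.1 (congrArg Prod.fst h) (congrArg Prod.snd h)

theorem MCLO_st_mono (d : PData K) (D : K → Set K) (A : Set K) {m n : ℕ} (h : m ≤ n) :
    MCLO_st d D A m ⊆ MCLO_st d D A n := by
  induction n, h using Nat.le_induction with
  | base => exact subset_rfl
  | succ n _ ih => exact ih.trans Set.subset_union_left

theorem MCLO_countable (d : PData K) (D : K → Set K) (hD : ∀ z, (D z).Countable) {A : Set K}
    (hA : A.Countable) : {x | MCLO_Clo d D A x}.Countable := by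
  refine (Set.countable_iUnion (MCLO_st_countable d D hD hA)).mono ?_
  intro x hx
  rw [Set.mem_iUnion]
  induction hx with
  | base x hx => exact ⟨0, Or.inl hx⟩
  | o => exact ⟨0, Or.inr rfl⟩
  | pair z hz _ _ ih1 ih2 =>
    obtain ⟨m, hm⟩ := ih1
    obtain ⟨n, hn⟩ := ih2
    exact ⟨max m n + 1, Or.inr (Or.inl ⟨hz, MCLO_st_mono d D A (le_max_left m n) hm,
      MCLO_st_mono d D A (le_max_right m n) hn⟩)⟩
  | fn z x _ hx ih =>
    obtain ⟨n, hn⟩ := ih
    exact ⟨n + 1, Or.inr (Or.inr (Set.mem_biUnion hn hx))⟩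

theorem MCLO_mem_seg (τ : ℕ → K) (n : ℕ) : ∀ k i : ℕ, n + 1 ≤ i → i ≤ n + k →
    τ i ∈ seg τ n k := by
  intro k
  induction k generalizing n with
  | zero => intro i h1 h2; omega
  | succ k ih =>
    intro i h1 h2
    rw [seg]
    rcases eq_or_lt_of_le h1 with h | h
    · rw [← h]; exact List.mem_cons_self
    · exact List.mem_cons_of_mem _ (ih (n + 1) i h (by omega))

theorem MCLO_seg_of_mem (τ : ℕ → K) (n : ℕ) : ∀ k, ∀ x ∈ seg τ n k,
    ∃ i, n + 1 ≤ i ∧ i ≤ n + k ∧ x = τ i := by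
  intro k
  induction k generalizing n with
  | zero => intro x hx; simp [seg] at hx
  | succ k ih =>
    intro x hx
    rw [seg, List.mem_cons] at hx
    rcases hx with hx | hx
    · exact ⟨n + 1, le_rfl, by omega, hx⟩
    · obtain ⟨i, h1, h2, h3⟩ := ih (n + 1) x hx
      exact ⟨i, by omega, by omega, h3⟩

theorem MCLO_seg_mono (d : PData K) (D : K → Set K) (τ : ℕ → K) (n : ℕ) {k k' : ℕ} (h : k ≤ k')
    {x : K} (hx : MCLO_Clo d D {x | x ∈ seg τ n k} x) :
    MCLO_Clo d D {x | x ∈ seg τ n k'} x := by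
  refine MCLO_mono d D ?_ hx
  intro y hy
  obtain ⟨i, h1, h2, h3⟩ := MCLO_seg_of_mem τ n k y hy
  rw [h3]
  exact MCLO_mem_seg τ n k' i h1 (by omega)

theorem MCLO_fin (d : PData K) (D : K → Set K) (τ : ℕ → K) (n : ℕ) {x : K}
    (hx : MCLO_Clo d D {x | ∃ i, n + 1 ≤ i ∧ x = τ i} x) :
    ∃ k, MCLO_Clo d D {x | x ∈ seg τ n k} x := by
  induction hx with
  | base x hx =>
    obtain ⟨i, hi, rfl⟩ := hx
    exact ⟨i, .base _ (MCLO_mem_seg τ n i i hi (by omega))⟩
  | o => exact ⟨0, .o⟩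
  | pair z hz _ _ ih1 ih2 =>
    obtain ⟨a, ha⟩ := ih1
    obtain ⟨b, hb⟩ := ih2
    exact ⟨max a b, .pair z hz (MCLO_seg_mono d D τ n (le_max_left a b) ha)
      (MCLO_seg_mono d D τ n (le_max_right a b) hb)⟩
  | fn z x _ hx ih =>
    obtain ⟨a, ha⟩ := ih
    exact ⟨a, .fn z x ha hx⟩

theorem exists_desc (h : Free K) (d : PData K) (D : K → Set K) (hD : ∀ z, (D z).Countable) :
    ∃ X : ℕ → Set K, ∀ n, d.o ∈ X n ∧
      (∀ z, z ≠ d.o → d.hd z ∈ X n → d.tl z ∈ X n → z ∈ X n) ∧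
      (∀ z ∈ X n, D z ⊆ X n) ∧
      ∀ m, n < m → X m ⊆ X n ∧ ∃ x ∈ X n, x ∉ X m := by
  obtain ⟨τ, hτ⟩ := h (fun l => {x | MCLO_Clo d D {x | x ∈ l} x})
    (fun l => MCLO_countable d D hD (List.finite_toSet l).countable)
  refine ⟨fun n => {x | MCLO_Clo d D {x | ∃ i, n ≤ i ∧ x = τ i} x}, fun n => ⟨.o, ?_, ?_, ?_⟩⟩
  · intro z hz h1 h2
    exact .pair z hz h1 h2
  · intro z hz x hx
    exact .fn z x hz hx
  · intro m hm
    refine ⟨?_, τ n, ?_, ?_⟩
    · intro x hx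
      refine MCLO_mono d D ?_ hx
      rintro y ⟨i, hi, rfl⟩
      exact ⟨i, by omega, rfl⟩
    · exact .base _ ⟨n, le_rfl, rfl⟩
    · intro hx
      have hx' : MCLO_Clo d D {x | ∃ i, n + 1 ≤ i ∧ x = τ i} (τ n) := by
        refine MCLO_mono d D ?_ hx
        rintro y ⟨i, hi, rfl⟩
        exact ⟨i, by omega, rfl⟩
      obtain ⟨k, hk⟩ := MCLO_fin d D τ n hx'
      exact hτ n k hk

end Pool.Agent.H47Q
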