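import Pool.Agent.Lib.H47Q.Defs
import Pool.Agent.Lib.H30C.Gen
import Pool.Agent.Lib.H30C.TOm
import Pool.Agent.Lib.H30C.TMA

/-!
# Pairing functions and codes of finite partial functions on `K`; Boolean values

`K` is an infinite set; later a well-order, and `B` a complete Boolean algebra. Functions
`K → B`, `K → K → B`, `ℕ → K → B` are characteristic functions of names.
-/

set_option autoImplicit false

open Set Function

namespace Pool.Agent.H47Q

open Pool.Agent.H5Z Pool.Agent.H30C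

/-- A pairing function on `K` (`z ↦ (hd z, tl z)` is a bijection from `K ∖ {o}` to `K × K`), and a map
`p ↦ (zz p, oo p)` from `K` onto the pairs of disjoint finite subsets of `K`. -/
structure PData (K : Type) where
  o : K
  hd : K → K
  tl : K → K
  surj : ∀ x y, ∃ z, z ≠ o ∧ hd z = x ∧ tl z = y
  inj : ∀ z z', z ≠ o → z' ≠ o → hd z = hd z' → tl z = tl z' → z = z'
  zz : K → Finset K
  oo : K → Finset K
  disj : ∀ p, Disjoint (zz p) (oo p)
  sur : ∀ u v : Finset K, Disjoint u v → ∃ p, zz p = u ∧ oo p = v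

/-- the two-valued truth value of a proposition -/
noncomputable def tv (B : Type) [CompleteBooleanAlgebra B] (P : Prop) : B :=
  open Classical in if P then ⊤ else ⊥

variable {K B : Type} [CompleteBooleanAlgebra B]

/-- Boolean value of `F is a partial function` -/
noncomputable def funB (F : K → K → B) : B := ⨅ z, ⨅ x, ⨅ y, F z x ⇨ (F z y ⇨ tv B (x = y))

/-- Boolean value of `X is a decreasing sequence of closed sets` -/
noncomputable def descB (d : PData K) (F : K → K → B) (X : ℕ → K → B) : B :=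
  ⨅ n, X n d.o ⊓
    ((⨅ z, ⨅ x, ⨅ y, tv B (z ≠ d.o ∧ d.hd z = x) ⇨ (tv B (z ≠ d.o ∧ d.tl z = y) ⇨
      (X n x ⇨ (X n y ⇨ X n z)))) ⊓
    ((⨅ z, ⨅ x, F z x ⇨ (X n z ⇨ X n x)) ⊓
    ⨅ m : ℕ, tv B (n < m) ⇨ ((⨅ x, X m x ⇨ X n x) ⊓ ⨆ x, X n x ⊓ (X m x)ᶜ)))

/-- Boolean value of `all the sets D_i are dense` -/
noncomputable def dnsB (d : PData K) (D : K → K → B) : B :=
  ⨅ i, ⨅ p, ⨆ q, D i q ⊓ ((⨅ x, tv B (x ∈ d.zz p) ⇨ tv B (x ∈ d.zz q)) ⊓
    ⨅ x, tv B (x ∈ d.oo p) ⇨ tv B (x ∈ d.oo q))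

/-- Boolean value of `c extends a member of each D_i` -/
noncomputable def meetB (d : PData K) (D : K → K → B) (c : K → B) : B :=
  ⨅ i, ⨆ q, D i q ⊓ ((⨅ x, tv B (x ∈ d.zz q) ⇨ (c x)ᶜ) ⊓ ⨅ x, tv B (x ∈ d.oo q) ⇨ c x)

/-- the Boolean-valued version of `PhiIn` -/
structure BPhi (B : Type) [CompleteBooleanAlgebra B] (d : PData K) : Prop where
  desc : ∀ F : K → K → B, funB F ≤ ⨆ X : ℕ → K → B, descB d F X
  coh : ∀ D : K → K → B, ∃ c : K → B, dnsB d D ≤ meetB d D c

theorem mem_tv {P : Type} [Preorder P] (Q : Prop) (p : P) : p ∈ (tv (RO P) Q).s ↔ Q := by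
  unfold tv
  by_cases h : Q
  · rw [if_pos h]
    exact iff_of_true (RO.mem_top p) h
  · rw [if_neg h]
    exact iff_of_false (fun h' => h') h

end Pool.Agent.H47Q
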