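import Pool.Agent.Lib.H47Q.MCcc

/-!
# Chunk MSUPP: supports

* `Co.res p S`: the restriction of `p` to `S`. `mem_gen_res`: if all members of `A` have domain
  in `S` and `p ∈ (RO.gen A).s` then `p.res S ∈ (RO.gen A).s`: let `q ≤ p.res S`. Then `q.res S` and
  `p.res Sᶜ` have a common extension `r` (disjoint domains), `r ≤ p`: so there are `r' ≤ r`, `a ∈ A` with `r' ≤ a`. As the domain of `a` is in `S`,
  and `r' ≤ q.res S`, `a` and `q` are compatible: common extension `(q.z ∪ a.z, q.o ∪ a.o)`: if `x ∈ q.z ∩ a.o` then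
  `x ∈ S`, `x ∈ (q.res S).z ⊆ r'.z` and `x ∈ a.o ⊆ r'.o`, a contradiction; similarly for `q.o ∩ a.z`.
* `exists_supp`: for `D : K → K → RO (Co I)`, `K` infinite, there is `S : Set I` with `#S ≤ #K` such that
  `p ∈ (D i q).s → p.res S ∈ (D i q).s` for all `i, q`, `p`. (`PCcc.exists_gen` and `co_ccc`: `D i q = gen {p | ∃ n, f n = some p}`; let `S` be the union of
  all the domains of these countably many conditions, for all `i, q`.)
-/

set_option autoImplicit false

open Set Function Cardinal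

namespace Pool.Agent.H47Q

open Pool.Agent.H5Z Pool.Agent.H30C

theorem mem_gen_res {I : Type} (A : Set (Co I)) (S : Set I)
    (hA : ∀ a ∈ A, (∀ x ∈ a.z, x ∈ S) ∧ ∀ x ∈ a.o, x ∈ S) {p : Co I}
    (hp : p ∈ (RO.gen A).s) : p.res S ∈ (RO.gen A).s := by
  classical
  rw [RO.mem_gen] at hp ⊢
  intro q hq
  have hq1 : ∀ x, x ∈ p.z → x ∈ S → x ∈ q.z := by
    intro x hx hxS
    apply hq.1
    unfold Co.res
    simp only [Finset.mem_filter]
    exact ⟨hx, hxS⟩
  have hq2 : ∀ x, x ∈ p.o → x ∈ S → x ∈ q.o := by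
    intro x hx hxS
    apply hq.2
    unfold Co.res
    simp only [Finset.mem_filter]
    exact ⟨hx, hxS⟩
  obtain ⟨r', hr', a, ha, hra⟩ := hp ⟨q.z.filter (· ∈ S) ∪ p.z.filter (· ∉ S),
    q.o.filter (· ∈ S) ∪ p.o.filter (· ∉ S), by
      rw [Finset.disjoint_left]
      intro x hx hx'
      simp only [Finset.mem_union, Finset.mem_filter] at hx hx'
      rcases hx with hx | hx
      · rcases hx' with hx' | hx'
        · exact Finset.disjoint_left.1 q.disj hx.1 hx'.1
        · exact hx'.2 hx.2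
      · rcases hx' with hx' | hx'
        · exact hx.2 hx'.2
        · exact Finset.disjoint_left.1 p.disj hx.1 hx'.1⟩ (by
    constructor
    · intro x hx
      simp only [Finset.mem_union, Finset.mem_filter]
      by_cases hxS : x ∈ S
      · exact Or.inl ⟨hq1 x hx hxS, hxS⟩
      · exact Or.inr ⟨hx, hxS⟩
    · intro x hx
      simp only [Finset.mem_union, Finset.mem_filter]
      by_cases hxS : x ∈ S
      · exact Or.inl ⟨hq2 x hx hxS, hxS⟩
      · exact Or.inr ⟨hx, hxS⟩)
  have hd : Disjoint (q.z ∪ a.z) (q.o ∪ a.o) := by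
    rw [Finset.disjoint_left]
    intro x hx hx'
    rw [Finset.mem_union] at hx hx'
    rcases hx with hx | hx
    · rcases hx' with hx' | hx'
      · exact Finset.disjoint_left.1 q.disj hx hx'
      · have hxS := (hA a ha).2 x hx'
        have h1 : x ∈ r'.z := hr'.1 (by
          simp only [Finset.mem_union, Finset.mem_filter]
          exact Or.inl ⟨hx, hxS⟩)
        exact Finset.disjoint_left.1 r'.disj h1 (hra.2 hx')
    · rcases hx' with hx' | hx'
      · have hxS := (hA a ha).1 x hx
        have h1 : x ∈ r'.o := hr'.2 (by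
          simp only [Finset.mem_union, Finset.mem_filter]
          exact Or.inl ⟨hx', hxS⟩)
        exact Finset.disjoint_left.1 r'.disj (hra.1 hx) h1
      · exact Finset.disjoint_left.1 a.disj hx hx'
  exact ⟨⟨q.z ∪ a.z, q.o ∪ a.o, hd⟩, ⟨Finset.subset_union_left, Finset.subset_union_left⟩, a, ha,
    ⟨Finset.subset_union_right, Finset.subset_union_right⟩⟩

theorem exists_supp {I K : Type} [Infinite K] (D : K → K → RO (Co I)) :
    ∃ S : Set I, #S ≤ #K ∧ ∀ i q p, p ∈ (D i q).s → p.res S ∈ (D i q).s := by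
  classical
  have h1 : ∀ i q, ∃ f : ℕ → Option (Co I), D i q = RO.gen {p | ∃ n, f n = some p} :=
    fun i q => (co_ccc I).exists_gen (D i q)
  choose f hf using h1
  set dm : K × K × ℕ → Set I := fun t => {x | ∃ p, f t.1 t.2.1 t.2.2 = some p ∧
    (x ∈ p.z ∨ x ∈ p.o)} with hdm
  have hfin : ∀ t, (dm t).Countable := by
    intro t
    rcases hft : f t.1 t.2.1 t.2.2 with _ | p
    · have : dm t = ∅ := by
        ext x
        simp [hdm, hft]
      rw [this]
      exact Set.countable_empty
    · have : dm t ⊆ ((p.z ∪ p.o : Finset I) : Set I) := by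
        rintro x ⟨p', hp', hx⟩
        rw [hft] at hp'
        cases hp'
        rw [Finset.mem_coe, Finset.mem_union]
        exact hx
      exact (Finset.countable_toSet _).mono this
  refine ⟨⋃ t, dm t, ?_, ?_⟩
  · have hK : ℵ₀ ≤ #K := Cardinal.aleph0_le_mk K
    calc #(⋃ t, dm t) ≤ #(K × K × ℕ) * ⨆ t, #(dm t) := Cardinal.mk_iUnion_le _
      _ ≤ #K * ℵ₀ := by
          apply mul_le_mul'
          · simp only [Cardinal.mk_prod, Cardinal.lift_id, Cardinal.mk_nat]
            rw [Cardinal.mul_aleph0_eq hK, Cardinal.mul_eq_self hK]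
          · exact ciSup_le' fun t => Cardinal.mk_le_aleph0_iff.2 (hfin t)
      _ = #K := Cardinal.mul_aleph0_eq hK
  · intro i q p hp
    rw [hf i q] at hp ⊢
    refine mem_gen_res _ _ ?_ hp
    rintro a ⟨n, hn⟩
    constructor
    · intro x hx
      exact Set.mem_iUnion.2 ⟨(i, q, n), a, hn, Or.inl hx⟩
    · intro x hx
      exact Set.mem_iUnion.2 ⟨(i, q, n), a, hn, Or.inr hx⟩

end Pool.Agent.H47Q
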