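import Pool.Agent.Lib.H47Q.NT
import Pool.Agent.Lib.H47Q.BStep
import Pool.Agent.Lib.H47Q.CMain

/-!
# Chunk MAINZ: `Free K` and `CohenMA K` imply that all limit ordinals have property (P)

`pt_of_dvd`: strong induction on `α`. If `α.card ≤ #K` use `stepC`. Otherwise let `κ = α.card > #K ≥ ℵ₀`,
`δ = α / κ.ord`, `ρ = α % κ.ord`, `α = κ.ord * δ + ρ`. `ρ < κ.ord ≤ α`; `ω ∣ κ.ord * δ` (`κ` is infinite),
so `ω ∣ ρ` (`Ordinal.dvd_add_iff`), `PT ρ` by induction; `δ.card ≤ κ` since `δ ≤ α`. Use `stepB`.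
`mainZ`: limit ordinals are divisible by `ω` (`Ordinal.isSuccLimit_iff_omega0_dvd` or similar).
-/

set_option autoImplicit false

open Set Ordinal Cardinal

namespace Pool.Agent.H47Q

theorem pt_of_dvd {K : Type} [Infinite K] (hF : Free K) (hC : CohenMA K) (α : Ordinal.{0})
    (hα : ω ∣ α) : PT α := by
  induction α using WellFoundedLT.induction with
  | ind α ih =>
    rcases le_or_gt α.card #K with h | h
    · exact stepC hC h hα
    · have hκ : ℵ₀ < α.card := (Cardinal.aleph0_le_mk K).trans_lt h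
      have hord : α.card.ord ≤ α := Cardinal.ord_card_le α
      have hpos : α.card.ord ≠ 0 := by
        rw [Ne, Cardinal.ord_eq_zero]
        exact (aleph0_pos.trans hκ).ne'
      have hρ : α % α.card.ord < α.card.ord := Ordinal.mod_lt _ hpos
      have hdiv : α.card.ord * (α / α.card.ord) + α % α.card.ord = α := Ordinal.div_add_mod _ _
      have hωκ : (ω : Ordinal.{0}) ∣ α.card.ord :=
        Ordinal.isSuccPrelimit_iff_omega0_dvd.1 (isSuccLimit_ord hκ.le).isSuccPrelimit
      have hω : ω ∣ α % α.card.ord := by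
        refine (Ordinal.dvd_add_iff (Dvd.dvd.mul_right hωκ (α / α.card.ord))).1 ?_
        rw [hdiv]
        exact hα
      have h1 := stepB hF hκ h (δ := α / α.card.ord) (ρ := α % α.card.ord)
        (Ordinal.card_le_card (Ordinal.div_le_of_le_mul
          (Ordinal.le_mul_right _ (pos_of_ne_zero hpos)))) hρ hω (ih _ (hρ.trans_le hord) hω)
      rwa [hdiv] at h1

theorem mainZ {K : Type} [Infinite K] (hF : Free K) (hC : CohenMA K) (α : Ordinal.{0})
    (hα : Order.IsSuccLimit α) : Pool.Agent.Lib.EHM47.PropP α :=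
  propP_of_pt (pt_of_dvd hF hC α (Ordinal.isSuccPrelimit_iff_omega0_dvd.1 hα.isSuccPrelimit))

end Pool.Agent.H47Q
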