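import Pool.Agent.Lib.H47Q.KDefs

/-!
# Chunk NAD: degrees

Write `M = Mt s t`, `B = blk (ω ^ c) y`.

* `has_dg`: if `M ∩ B` is nonempty then `Has (ω ^ dg) (M ∩ B)`: for all `g < dg`,
  `Has (ω ^ (g + 1)) (M ∩ B)` (`sInf` is least, `notMem_of_lt_csInf`). If `dg = 0` then `ω ^ 0 = 1`
  and `has_one`; if `dg = g + 1` it is immediate; if `dg` is a limit then use `has_opow_limit`.
* `not_has_dg`: `¬ Has (ω ^ (dg + 1)) (M ∩ B)`: the set in the definition of `dg` is nonempty, because for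
  `g` large `Has (ω ^ (g + 1)) B` is false: `Has β (blk a y)` implies `β ≤ a` (a strictly increasing
  function satisfies `x ≤ f x - y`, i.e. `y + x ≤ f x`), and `ω ^ c < ω ^ (c + 1)`: take `g = c`.
* `dg_lt_of_not_has`: if `M ∩ B` is nonempty and `¬ Has (ω ^ e) (M ∩ B)` then `dg < e`: otherwise
  `e ≤ dg`, and `Has (ω ^ dg)` gives `Has (ω ^ e)`.
* `ix_spec`: let `c' < c`, `B j = blk (ω ^ c') (y + ω ^ c' * j)` (subsets of `B`). For all `j ≥ ix`,
  `¬ Has (ω ^ dg) (M ∩ B j)`: the set in the definition of `ix` is nonempty, since otherwise for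
  every `n` there is `j ≥ n` with `Has (ω ^ dg) (M ∩ B j)`, and by `has_mul` for a strictly
  increasing sequence of such `j`'s, `Has (ω ^ dg * ω) (M ∩ B)`, contradicting `not_has_dg`.
* `sub_blk`: for `c' < c`, `blk (ω ^ c') (y + ω ^ c' * j) ⊆ blk (ω ^ c) y`.
-/

set_option autoImplicit false

open Set Ordinal

namespace Pool.Agent.H47Q

variable {K : Type} {s : Ordinal.{0} → Set K} {t : K} {c c' y : Ordinal.{0}}

theorem has_blk_le {β a y : Ordinal.{0}} (h : Has β (blk a y)) : β ≤ a := by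
  obtain ⟨f, h1, h2⟩ := h
  have key : ∀ x : Ordinal.{0}, x < β → y + x ≤ f x := by
    intro x
    induction x using WellFoundedLT.induction with
    | ind x ih =>
    intro hx
    by_contra hlt
    rw [not_le] at hlt
    have h3 := (mem_blk.1 (h1 x hx)).1
    have h4 : y + (f x - y) = f x := Ordinal.add_sub_cancel_of_le h3
    have h5 : f x - y < x := by
      rw [← h4] at hlt
      exact (add_lt_add_iff_left _).1 hlt
    have h6 := ih _ h5 (h5.trans hx)
    rw [h4] at h6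
    exact absurd (h2 _ _ h5 hx) (not_lt.2 h6)
  by_contra hlt
  rw [not_le] at hlt
  exact absurd (mem_blk.1 (h1 a hlt)).2 (not_lt.2 (key a hlt))

theorem nad_opow_le (h : c' < c) (j : ℕ) :
    ω ^ c' * (j : Ordinal.{0}) + ω ^ c' ≤ ω ^ c := by
  have h1 : ω ^ c' * (j : Ordinal.{0}) + ω ^ c' = ω ^ c' * ((j : Ordinal.{0}) + 1) := by
    rw [mul_add, mul_one]
  have h2 : ((j : Ordinal.{0}) + 1) ≤ ω := by
    have h3 : (((j + 1 : ℕ)) : Ordinal.{0}) ≤ ω := (natCast_lt_omega0 (j + 1)).le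
    exact_mod_cast h3
  rw [h1]
  calc ω ^ c' * ((j : Ordinal.{0}) + 1) ≤ ω ^ c' * ω := mul_le_mul_right h2 _
    _ = ω ^ (c' + 1) := by rw [opow_add, opow_one]
    _ ≤ ω ^ c := opow_le_opow_right omega0_pos (Order.add_one_le_of_lt h)

theorem sub_blk (h : c' < c) (j : ℕ) :
    blk (ω ^ c') (y + ω ^ c' * (j : Ordinal)) ⊆ blk (ω ^ c) y := by
  refine blk_subset le_self_add ?_
  rw [add_assoc]
  exact (add_le_add_iff_left _).2 (nad_opow_le h j)

theorem nad_has_of_lt {g : Ordinal.{0}} (hg : g < dg s t c y) :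
    Has (ω ^ (g + 1)) (Mt s t ∩ blk (ω ^ c) y) := by
  by_contra h
  exact notMem_of_lt_csInf hg (OrderBot.bddBelow _) h

theorem has_dg (h : (Mt s t ∩ blk (ω ^ c) y).Nonempty) :
    Has (ω ^ dg s t c y) (Mt s t ∩ blk (ω ^ c) y) := by
  rcases Ordinal.zero_or_succ_or_isSuccLimit (dg s t c y) with h0 | ⟨g, hg⟩ | hl
  · rw [h0, opow_zero]
    exact has_one.2 h
  · have := nad_has_of_lt (s := s) (t := t) (c := c) (y := y) (g := g)
      (by rw [← hg]; exact Order.lt_succ g)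
    rw [← hg]
    simpa using this
  · refine has_opow_limit hl fun g hg => ?_
    exact (nad_has_of_lt hg).mono subset_rfl
      (opow_le_opow_right omega0_pos (le_self_add))

theorem not_has_dg : ¬ Has (ω ^ (dg s t c y + 1)) (Mt s t ∩ blk (ω ^ c) y) := by
  have hne : {g : Ordinal.{0} | ¬ Has (ω ^ (g + 1)) (Mt s t ∩ blk (ω ^ c) y)}.Nonempty := by
    refine ⟨c, fun h => ?_⟩
    have h1 := has_blk_le (h.mono inter_subset_right le_rfl)
    have h2 : ω ^ c < (ω : Ordinal.{0}) ^ (c + 1) :=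
      (opow_lt_opow_iff_right one_lt_omega0).2 (Order.lt_add_one_iff.2 le_rfl)
    exact absurd h1 (not_le.2 h2)
  exact csInf_mem hne

theorem dg_lt_of_not_has {e : Ordinal.{0}} (h : (Mt s t ∩ blk (ω ^ c) y).Nonempty)
    (he : ¬ Has (ω ^ e) (Mt s t ∩ blk (ω ^ c) y)) : dg s t c y < e := by
  by_contra hle
  rw [not_lt] at hle
  exact he ((has_dg h).mono subset_rfl (opow_le_opow_right omega0_pos hle))

theorem ix_spec (hc : c' < c) (j : ℕ) (hj : ix s t c y c' ≤ j) :
    ¬ Has (ω ^ dg s t c y) (Mt s t ∩ blk (ω ^ c') (y + ω ^ c' * (j : Ordinal))) := by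
  have hne : {n : ℕ | ∀ j ≥ n, ¬ Has (ω ^ dg s t c y)
      (Mt s t ∩ blk (ω ^ c') (y + ω ^ c' * (j : Ordinal)))}.Nonempty := by
    by_contra hemp
    have h1 : ∃ᶠ j : ℕ in Filter.atTop, Has (ω ^ dg s t c y)
        (Mt s t ∩ blk (ω ^ c') (y + ω ^ c' * (j : Ordinal))) := by
      rw [Filter.frequently_atTop]
      intro n
      by_contra h2
      push Not at h2
      exact hemp ⟨n, h2⟩
    obtain ⟨m, hm, hmP⟩ := Filter.extraction_of_frequently_atTop h1
    have h2 := has_mul (a := ω ^ dg s t c y) (δ := ω)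
      (fun σ => {x | ∃ n : ℕ, σ = n ∧ x ∈ Mt s t ∩
        blk (ω ^ c') (y + ω ^ c' * ((m n : ℕ) : Ordinal))}) ?_ ?_
    · have h3 : ω ^ dg s t c y * ω = ω ^ (dg s t c y + 1) := by rw [opow_add, opow_one]
      rw [h3] at h2
      refine not_has_dg (h2.mono ?_ le_rfl)
      rintro x ⟨σ, -, n, -, hx⟩
      exact ⟨hx.1, sub_blk hc _ hx.2⟩
    · intro σ hσ
      obtain ⟨n, rfl⟩ := lt_omega0.1 hσ
      exact (hmP n).mono (fun x hx => ⟨n, rfl, hx⟩) le_rfl
    · rintro σ τ hστ - x ⟨n, rfl, hx⟩ z ⟨n', rfl, hz⟩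
      have hnn : n < n' := by exact_mod_cast hστ
      have h4 : m n + 1 ≤ m n' := hm hnn
      have h5 := (mem_blk.1 hx.2).2
      have h6 := (mem_blk.1 hz.2).1
      refine h5.trans_le (le_trans ?_ h6)
      rw [add_assoc]
      refine (add_le_add_iff_left _).2 ?_
      calc ω ^ c' * ((m n : ℕ) : Ordinal.{0}) + ω ^ c'
          = ω ^ c' * (((m n : ℕ) : Ordinal.{0}) + 1) := by rw [mul_add, mul_one]
        _ ≤ ω ^ c' * ((m n' : ℕ) : Ordinal.{0}) := by
          refine mul_le_mul_right ?_ _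
          exact_mod_cast h4
  exact Nat.sInf_mem hne j hj

end Pool.Agent.H47Q
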