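import Pool.Agent.Lib.H47Q.NAd

/-!
# Chunk NAG: the lists `degs`, `cl` and the lemma for powers of `ω`

* `countable_path`: induction on the list.
* `gl_sorted`: let `cs` be strictly decreasing with all members `< c`, and `t ∉ s z` for all
  `z ∈ Pth y cs`. Then `degs s t c y cs` is strictly decreasing (`List.Pairwise (· > ·)`), has length
  `cs.length + 1`, and its head is `dg s t c y`. Induction on `cs`: with `cs = c' :: cs'`, `j = ix s t c y c'` and
  `y' = y + ω ^ c' * j` the induction hypothesis applies to `(c', y')` (as `Pth y' cs' ⊆ Pth y cs`). The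
  point `y'` is in `Mt s t ∩ blk (ω ^ c') y'`, and `¬ Has (ω ^ dg s t c y)` of it by `ix_spec`; so
  `dg s t c' y' < dg s t c y` by `dg_lt_of_not_has`, and the other members of the list are even smaller.
* `gl_prefix`: if `cs <+: cs'` then `degs s t c y cs <+: degs s t c y cs'`.
* `kil_opow`: the set `Z = {t | ¬ Has (ω ^ b) (Mt s t ∩ blk (ω ^ b) x)}` is small, by the function `CC s b x`.
  Let `τ` be a free sequence in `Z`. `L j n = cl s b x (τ j :: seg τ j n)`. Claim (induction on `n`, for all `j`):
  `L j n` is strictly decreasing with all members `< b` and has length `n + 1`. Indeed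
  `L j 0 = [dg s (τ j) b x]`, `L j (n + 1) = degs s (τ j) b x (L (j + 1) n)`; use `gl_sorted`; the head is `< b` by `dg_lt_of_not_has`
  (`x ∈ Pth x _` and `τ j ∉ CC s b x _` give that the set is nonempty, and `¬ Has (ω ^ b)` because `τ j ∈ Z`).
  `L j n <+: L j (n + 1)` by induction on `n` and `gl_prefix`. So the last elements of the lists `L 0 n`
  form an infinite strictly decreasing sequence of ordinals, a contradiction.
-/

set_option autoImplicit false

open Set Ordinal

namespace Pool.Agent.H47Q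

variable {K : Type} {s : Ordinal.{0} → Set K}

theorem countable_path (y : Ordinal.{0}) (cs : List Ordinal.{0}) : (Pth y cs).Countable := by
  induction cs generalizing y with
  | nil => exact countable_singleton _
  | cons c cs ih =>
    exact (countable_iUnion fun j : ℕ => ih _).insert _

theorem nag_self_mem (y : Ordinal.{0}) (cs : List Ordinal.{0}) : y ∈ Pth y cs := by
  cases cs with
  | nil => exact mem_singleton _
  | cons c cs => exact mem_insert _ _

theorem nag_mem_blk (c y : Ordinal.{0}) : y ∈ blk (ω ^ c) y :=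
  ⟨le_rfl, lt_add_of_pos_right _ (opow_pos _ omega0_pos)⟩

theorem gl_sorted (t : K) (cs : List Ordinal.{0}) : ∀ c y : Ordinal.{0},
    cs.Pairwise (· > ·) → (∀ c' ∈ cs, c' < c) → (∀ z ∈ Pth y cs, t ∉ s z) →
    (degs s t c y cs).Pairwise (· > ·) ∧ (degs s t c y cs).length = cs.length + 1 ∧
      ∀ g ∈ degs s t c y cs, g ≤ dg s t c y := by
  induction cs with
  | nil =>
    intro c y _ _ _
    refine ⟨by simp [degs], by simp [degs], fun g hg => ?_⟩
    simp only [degs, List.mem_singleton] at hg
    exact hg.le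
  | cons c' cs ih =>
    intro c y h1 h2 h3
    rw [List.pairwise_cons] at h1
    obtain ⟨h4, h5⟩ := h1
    have h6 : ∀ z ∈ Pth (y + ω ^ c' * ((ix s t c y c' : ℕ) : Ordinal)) cs, t ∉ s z :=
      fun z hz => h3 z (mem_insert_of_mem _ (mem_iUnion.2 ⟨_, hz⟩))
    obtain ⟨h7, h8, h9⟩ := ih c' (y + ω ^ c' * ((ix s t c y c' : ℕ) : Ordinal)) h5
      (fun c'' hc'' => h4 c'' hc'') h6
    have hcc : c' < c := h2 c' List.mem_cons_self
    have h10 : dg s t c' (y + ω ^ c' * ((ix s t c y c' : ℕ) : Ordinal)) < dg s t c y :=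
      dg_lt_of_not_has ⟨_, h6 _ (nag_self_mem _ _), nag_mem_blk _ _⟩ (ix_spec hcc _ le_rfl)
    refine ⟨?_, ?_, ?_⟩
    · simp only [degs]
      rw [List.pairwise_cons]
      exact ⟨fun g hg => (h9 g hg).trans_lt h10, h7⟩
    · simp only [degs, List.length_cons, h8]
    · intro g hg
      simp only [degs, List.mem_cons] at hg
      rcases hg with rfl | hg
      · exact le_rfl
      · exact ((h9 g hg).trans_lt h10).le

theorem gl_prefix (t : K) (cs cs' : List Ordinal.{0}) (h : cs <+: cs') : ∀ c y : Ordinal.{0},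
    degs s t c y cs <+: degs s t c y cs' := by
  induction cs generalizing cs' with
  | nil =>
    intro c y
    cases cs' with
    | nil => exact List.prefix_rfl
    | cons a l => exact ⟨_, rfl⟩
  | cons a l ih =>
    intro c y
    obtain ⟨l', rfl⟩ : ∃ l', cs' = a :: l' := by
      obtain ⟨u, rfl⟩ := h
      exact ⟨_, rfl⟩
    have h1 : l <+: l' := (List.prefix_cons_inj a).1 h
    simp only [degs]
    exact (List.prefix_cons_inj _).2 (ih l' h1 _ _)

theorem kil_opow (hs : ∀ y, (s y).Countable) (b x : Ordinal.{0}) :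
    Kil {t : K | ¬ Has (ω ^ b) (Mt s t ∩ blk (ω ^ b) x)} := by
  refine ⟨CC s b x, fun l => (countable_path _ _).biUnion fun y _ => hs y, ?_⟩
  rintro ⟨τ, hτ, hfree⟩
  have hfree' : ∀ j n, ∀ z ∈ Pth x (cl s b x (seg τ j n)), τ j ∉ s z := by
    intro j n z hz hj
    exact hfree j n (mem_iUnion₂.2 ⟨z, hz, hj⟩)
  have key : ∀ n j, (cl s b x (seg τ j n)).Pairwise (· > ·) ∧
      (cl s b x (seg τ j n)).length = n ∧ ∀ g ∈ cl s b x (seg τ j n), g < b := by
    intro n
    induction n with
    | zero => intro j; simp [seg, cl]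
    | succ n ih =>
      intro j
      obtain ⟨h1, h2, h3⟩ := ih (j + 1)
      obtain ⟨h4, h5, h6⟩ := gl_sorted (s := s) (τ (j + 1)) _ b x h1 h3 (hfree' (j + 1) n)
      have h7 : dg s (τ (j + 1)) b x < b :=
        dg_lt_of_not_has ⟨x, hfree' (j + 1) n x (nag_self_mem _ _), nag_mem_blk _ _⟩
          (hτ (j + 1))
      refine ⟨h4, by rw [seg, cl, h5, h2], fun g hg => (h6 g hg).trans_lt h7⟩
  have hpre : ∀ n j, cl s b x (seg τ j n) <+: cl s b x (seg τ j (n + 1)) := by
    intro n
    induction n with
    | zero => intro j; exact List.nil_prefix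
    | succ n ih =>
      intro j
      exact gl_prefix (s := s) (τ (j + 1)) _ _ (ih (j + 1)) b x
  have hl : ∀ n, (cl s b x (seg τ 0 n)).length = n := fun n => (key n 0).2.1
  have hlt : ∀ n, n < (cl s b x (seg τ 0 (n + 1))).length := fun n => by rw [hl]; omega
  refine (wellFounded_iff_isEmpty_descending_chain.1
    (wellFounded_lt (α := Ordinal.{0}))).false
    ⟨fun n => (cl s b x (seg τ 0 (n + 1)))[n]'(hlt n), fun n => ?_⟩
  have h1 := (key (n + 2) 0).1
  rw [List.pairwise_iff_getElem] at h1
  have h2 := h1 n (n + 1) (by rw [hl]; omega) (by rw [hl]; omega) (Nat.lt_succ_self n)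
  have h3 : (cl s b x (seg τ 0 (n + 2)))[n]'(by rw [hl]; omega) =
      (cl s b x (seg τ 0 (n + 1)))[n]'(hlt n) := by
    exact ((hpre (n + 1) 0).getElem (hlt n)).symm
  rw [h3] at h2
  exact h2

end Pool.Agent.H47Q
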