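import Pool.Agent.Lib.H47Q.NAu
import Pool.Agent.Lib.H47Q.NAg

/-!
# Chunk NAF: the free set lemma

`kil_blk`: for all `δ`, `x` the set `{t | ¬ Has δ (Mt s t ∩ blk δ x)}` is small. By `cnf_induction`
(for all `x`): for `δ = 0` the set is empty (`has_zero`); for `δ = ω ^ b + δ'`,
`blk δ x = blk (ω ^ b) x ∪ blk δ' (x + ω ^ b)` and by `has_add` the set is contained in the union of the sets for
`(ω ^ b, x)` (`kil_opow`) and `(δ', x + ω ^ b)`; use `kil_union` and `Kil.mono`.

`free_lemma`: if `Free K` then some `t` is outside of the small set for `x = 0` (`free_iff`).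
-/

set_option autoImplicit false

open Set Ordinal

namespace Pool.Agent.H47Q

variable {K : Type} {s : Ordinal.{0} → Set K}

theorem kil_blk (hs : ∀ y, (s y).Countable) (δ : Ordinal.{0}) : ∀ x : Ordinal.{0},
    Kil {t : K | ¬ Has δ (Mt s t ∩ blk δ x)} := by
  refine cnf_induction (P := fun δ => ∀ x : Ordinal.{0},
    Kil {t : K | ¬ Has δ (Mt s t ∩ blk δ x)}) ?_ ?_ δ
  · intro x
    refine kil_empty.mono fun t ht => ?_
    exact ht (has_zero _)
  · intro b δ' _ ih x
    refine (kil_union (kil_opow hs b x) (ih (x + ω ^ b))).mono fun t ht => ?_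
    by_contra hcon
    simp only [mem_union, mem_ofPred_eq, not_or, not_not] at hcon
    refine ht ((has_add hcon.1 hcon.2 ?_).mono ?_ le_rfl)
    · intro u hu v hv
      exact (mem_blk.1 hu.2).2.trans_le (mem_blk.1 hv.2).1
    · rintro u (hu | hu)
      · refine ⟨hu.1, (mem_blk.1 hu.2).1, (mem_blk.1 hu.2).2.trans_le ?_⟩
        rw [← add_assoc]
        exact le_self_add
      · refine ⟨hu.1, le_self_add.trans (mem_blk.1 hu.2).1, ?_⟩
        have := (mem_blk.1 hu.2).2
        rwa [add_assoc] at this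

/-- The free set lemma. -/
theorem free_lemma (h : Free K) (hs : ∀ y, (s y).Countable) (δ : Ordinal.{0}) :
    ∃ t : K, Has δ {y | y < δ ∧ t ∉ s y} := by
  have h1 := free_iff.1 h
  by_contra hcon
  push Not at hcon
  refine h1 ((kil_blk hs δ 0).mono fun t _ hh => hcon t (hh.mono ?_ le_rfl))
  rintro y ⟨hy1, hy2⟩
  have := (mem_blk.1 hy2).2
  rw [zero_add] at this
  exact ⟨this, hy1⟩

end Pool.Agent.H47Q
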