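import Pool.Agent.Lib.H47Q.KDefs

/-!
# Chunk NAU: unions of two small sets are small; `Free K` means that `K` is not small

`kil_union`: let `C₁`, `C₂` be given for `Z₁`, `Z₂`. Put
`C l = ⋃ l' ∈ {l' | l' is a sublist of l}, C₁ l' ∪ C₂ l'` (`List.Sublist`; there are finitely many
sublists: `List.sublists`). Let `τ` be a sequence in `Z₁ ∪ Z₂`, free for `C`. For infinitely many `j`
we have `τ j ∈ Z₁`, or for infinitely many `j` we have `τ j ∈ Z₂`; say the first. Let
`m : ℕ → ℕ` be strictly increasing with `τ (m j) ∈ Z₁` (`Nat.nth` or `Filter.extraction_of_frequently_atTop`) and `σ j = τ (m j)`. Then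
`seg σ j n` is a sublist of `seg τ (m j) (m (j + n) - m j)` (induction on `n`), so
`σ j ∉ C₁ (seg σ j n)`, a contradiction.

`kil_empty`: there is no sequence in the empty set.
-/

set_option autoImplicit false

open Set Ordinal

namespace Pool.Agent.H47Q

variable {K : Type}

theorem kil_empty : Kil (∅ : Set K) :=
  ⟨fun _ => ∅, fun _ => countable_empty, fun ⟨_, h, _⟩ => h 0⟩

theorem Kil.mono {Z W : Set K} (h : Kil W) (hZ : Z ⊆ W) : Kil Z := by
  obtain ⟨C, h1, h2⟩ := h
  exact ⟨C, h1, fun ⟨τ, h3, h4⟩ => h2 ⟨τ, fun j => hZ (h3 j), h4⟩⟩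

theorem nau_seg_append (τ : ℕ → K) (p : ℕ) : ∀ a q,
    seg τ a (p + q) = seg τ a p ++ seg τ (a + p) q := by
  induction p with
  | zero => intro a q; simp [seg]
  | succ p ih =>
    intro a q
    rw [show p + 1 + q = p + q + 1 by omega]
    simp only [seg, List.cons_append]
    rw [ih (a + 1) q, show a + 1 + p = a + (p + 1) by omega]

theorem nau_mem_seg (τ : ℕ → K) (p : ℕ) : ∀ a i, a < i → i ≤ a + p → τ i ∈ seg τ a p := by
  induction p with
  | zero => intro a i h1 h2; omega
  | succ p ih =>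
    intro a i h1 h2
    simp only [seg, List.mem_cons]
    rcases eq_or_ne i (a + 1) with rfl | h3
    · exact Or.inl rfl
    · exact Or.inr (ih (a + 1) i (by omega) (by omega))

theorem nau_sublist (τ : ℕ → K) (m : ℕ → ℕ) (hm : StrictMono m) (n : ℕ) : ∀ j,
    List.Sublist (seg (fun i => τ (m i)) j n) (seg τ (m j) (m (j + n) - m j)) := by
  induction n with
  | zero => intro j; exact List.nil_sublist _
  | succ n ih =>
    intro j
    have h1 : m j < m (j + 1) := hm (Nat.lt_succ_self j)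
    have h2 : m (j + 1) ≤ m (j + 1 + n) := hm.monotone (by omega)
    have h3 : m (j + (n + 1)) - m j = (m (j + 1) - m j) + (m (j + 1 + n) - m (j + 1)) := by
      rw [show j + (n + 1) = j + 1 + n by omega]
      omega
    rw [h3, nau_seg_append τ (m (j + 1) - m j), show m j + (m (j + 1) - m j) = m (j + 1) by omega]
    have h4 := ih (j + 1)
    have h5 : List.Sublist [τ (m (j + 1))] (seg τ (m j) (m (j + 1) - m j)) :=
      List.singleton_sublist.2 (nau_mem_seg τ _ _ _ h1 (by omega))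
    exact h5.append h4

theorem kil_union {Z W : Set K} (hZ : Kil Z) (hW : Kil W) : Kil (Z ∪ W) := by
  obtain ⟨C₁, h1, h1'⟩ := hZ
  obtain ⟨C₂, h2, h2'⟩ := hW
  refine ⟨fun l => ⋃ l' ∈ {l' | List.Sublist l' l}, (C₁ l' ∪ C₂ l'), fun l => ?_, ?_⟩
  · refine Set.Countable.biUnion ?_ fun l' _ => (h1 l').union (h2 l')
    have : {l' | List.Sublist l' l} = {l' | l' ∈ l.sublists} := by
      ext l'; simp
    rw [this]
    exact (List.finite_toSet _).countable
  · rintro ⟨τ, hτ, hfree⟩
    have key : ∀ (X : Set K) (C : List K → Set K), (∀ l, C l ⊆ C₁ l ∪ C₂ l) →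
        (∃ᶠ j in Filter.atTop, τ j ∈ X) →
        ∃ σ : ℕ → K, (∀ j, σ j ∈ X) ∧ ∀ j n, σ j ∉ C (seg σ j n) := by
      intro X C hC hX
      obtain ⟨m, hm, hmX⟩ := Filter.extraction_of_frequently_atTop hX
      refine ⟨fun i => τ (m i), hmX, fun j n hj => hfree (m j) (m (j + n) - m j) ?_⟩
      rw [mem_iUnion₂]
      exact ⟨_, nau_sublist τ m hm n j, hC _ hj⟩
    have hor : (∃ᶠ j in Filter.atTop, τ j ∈ Z) ∨ (∃ᶠ j in Filter.atTop, τ j ∈ W) := by
      rw [← Filter.frequently_or_distrib]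
      exact (Filter.Eventually.of_forall fun j => hτ j).frequently
    rcases hor with h | h
    · exact h1' (key Z C₁ (fun l => subset_union_left) h)
    · exact h2' (key W C₂ (fun l => subset_union_right) h)

theorem free_iff : Free K ↔ ¬ Kil (univ : Set K) := by
  unfold Free Kil
  constructor
  · rintro h ⟨C, h1, h2⟩
    obtain ⟨τ, hτ⟩ := h C h1
    exact h2 ⟨τ, fun _ => mem_univ _, hτ⟩
  · intro h C h1
    by_contra h2
    exact h ⟨C, h1, fun ⟨τ, _, h3⟩ => h2 ⟨τ, h3⟩⟩

end Pool.Agent.H47Q
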