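import Pool.Agent.Lib.H47Q.HMisc

/-!
# Chunk NT: normal trees of graphs without infinite path, and (PT) ⟹ (P)

**Theorem.** A graph `G` on `V` without infinite path (injective `f : ℕ → V` with consecutive values
adjacent) has a forest order `T : RF V` such that adjacent vertices are comparable.

Proof. For a set `S` of vertices and `v ∈ S` let `comp S v` be the set of the vertices which can be
reached from `v` by a walk inside `S` (e.g. `Relation.ReflTransGen (fun a b => G.Adj a b ∧ b ∈ S) v`).
For `v` define sets `K n v` and points `r n v`: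
`K 0 v = comp univ v`, `r 0 v` = a chosen element of the set `K 0 v` (the choice depends only on the
set); `K (n+1) v = comp (K n v \ {r n v}) v`, and `r (n+1) v` = a chosen element of the set
`{w ∈ K (n+1) v : G.Adj (r n v) w}` (the choice depends only on the set `K (n+1) v` and the point
`r n v`). It exists if `r i v ≠ v` for all `i ≤ n`: then by induction `v ∈ K (n+1) v`, and there is a
walk in `K n v` from `v` to `r n v`; the last vertex before its first visit of `r n v` is in `K (n+1) v`
and adjacent to `r n v`. If `r n v ≠ v` for all `n` then `(r n v)` is an infinite path: consecutive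
points are adjacent, and the points are distinct since `r m v ∈ K m v` and `r n v ∉ K m v` for
`n < m`. So there is a least `N v` with `r (N v) v = v`. Put `u < v` iff `u = r n v` for some
`n < N v`. Since `r n v ∈ K n v`, for `n ≤ N v` we have `K i (r n v) = K i v` and `r i (r n v) = r i v`
for `i ≤ n` (components: `comp S w = comp S v` if `w ∈ comp S v`, `G.Adj` symmetric), so `N (r n v) = n`. Hence the order is
irreflexive, transitive, the set of the predecessors of `v` is the finite set `{r n v : n < N v}`, and any two of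
them are comparable. If `f 0 < f 1 < …` then `N (f k) ≥ k` (strictly increasing `N`), and
`r n (f k) = r n (f (k+1))` for `n ≤ N (f k)`; so `n ↦ r n (f n)` is an infinite path. If `u, v` are adjacent, then, as long as
`r i u = r i v` for all `i < n` and none of these points is `u` or `v`, `K n u = K n v` (`u` is
reached from `v` by the edge), so `r n u = r n v`. The least `n` such that `r n u` or `r n v` is one of `u, v`
(it is at most `N u`) satisfies `r n u = r n v ∈ {u, v}`, say it is `u`; then `n = N u`, and `u = r n v` with `n < N v` (as `v ≠ r i v` for `i < n`, and `r n v = u ≠ v`).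

**Corollary.** `PT α` implies `PropP α`: extend the order of `Iio α` to all ordinals (no new
relations).
-/

set_option autoImplicit false

open Set Ordinal

namespace Pool.Agent.H47Q

universe u

section NT

variable {V : Type u} (G : SimpleGraph V)

/-- reachability inside `S` -/
def NTcomp (S : Set V) (v : V) : Set V :=
  {w | Relation.ReflTransGen (fun a b => G.Adj a b ∧ a ∈ S ∧ b ∈ S) v w}

theorem NTcomp_self (S : Set V) (v : V) : v ∈ NTcomp G S v := Relation.ReflTransGen.refl

theorem NTcomp_symm {S : Set V} {v w : V} (h : w ∈ NTcomp G S v) : v ∈ NTcomp G S w := by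
  induction h with
  | refl => exact Relation.ReflTransGen.refl
  | tail _ hbc ih => exact Relation.ReflTransGen.head ⟨hbc.1.symm, hbc.2.2, hbc.2.1⟩ ih

theorem NTcomp_eq {S : Set V} {v w : V} (h : w ∈ NTcomp G S v) : NTcomp G S w = NTcomp G S v := by
  ext x
  constructor
  · intro hx
    exact Relation.ReflTransGen.trans h hx
  · intro hx
    exact Relation.ReflTransGen.trans (NTcomp_symm G h) hx

theorem NTcomp_sub {S : Set V} {v : V} (hv : v ∈ S) : NTcomp G S v ⊆ S := by
  intro w hw
  induction hw with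
  | refl => exact hv
  | tail _ h _ => exact h.2.2

theorem NT_next {S : Set V} {v r : V} (hr : r ∈ NTcomp G S v) (hrv : r ≠ v) :
    ∃ w, w ∈ NTcomp G (NTcomp G S v \ {r}) v ∧ G.Adj r w := by
  have hv : v ∈ NTcomp G S v \ {r} := ⟨NTcomp_self G S v, fun h => hrv h.symm⟩
  have key : ∀ x, x ∈ NTcomp G S v → x ∈ NTcomp G (NTcomp G S v \ {r}) v ∨
      ∃ w, w ∈ NTcomp G (NTcomp G S v \ {r}) v ∧ G.Adj r w := by
    intro x hx
    induction hx with
    | refl => exact Or.inl (NTcomp_self G _ v)
    | tail hx hxy ih =>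
      rename_i x y
      rcases ih with h1 | h1
      · by_cases hy : y = r
        · right
          refine ⟨x, h1, ?_⟩
          rw [← hy]
          exact hxy.1.symm
        · left
          refine Relation.ReflTransGen.tail h1 ⟨hxy.1, NTcomp_sub G hv h1, ?_, hy⟩
          exact Relation.ReflTransGen.tail hx hxy
      · exact Or.inr h1
  rcases key r hr with h1 | h1
  · exact absurd rfl (NTcomp_sub G hv h1).2
  · exact h1

variable [Nonempty V]

/-- the sequence of components and roots -/
noncomputable def NTP : ℕ → V → Set V × V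
  | 0, v => (NTcomp G univ v, Classical.epsilon fun w => w ∈ NTcomp G univ v)
  | n + 1, v => (NTcomp G ((NTP n v).1 \ {(NTP n v).2}) v,
      Classical.epsilon fun w => w ∈ NTcomp G ((NTP n v).1 \ {(NTP n v).2}) v ∧
        G.Adj (NTP n v).2 w)

theorem NTP_self (n : ℕ) (v : V) : v ∈ (NTP G n v).1 := by
  cases n <;> exact NTcomp_self G _ v

/-- `(NTP n v).1` is a component -/
theorem NTP_comp (n : ℕ) (v : V) : ∃ S, (NTP G n v).1 = NTcomp G S v := by
  cases n <;> exact ⟨_, rfl⟩

theorem NTP_root {v : V} : ∀ n, (∀ i < n, (NTP G i v).2 ≠ v) → (NTP G n v).2 ∈ (NTP G n v).1 ∧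
    ∀ m, n = m + 1 → G.Adj (NTP G m v).2 (NTP G n v).2 := by
  intro n
  induction n with
  | zero =>
    intro _
    refine ⟨?_, fun m hm => by omega⟩
    exact Classical.epsilon_spec (p := fun w => w ∈ NTcomp G univ v) ⟨v, NTcomp_self G _ v⟩
  | succ n ih =>
    intro h
    have h1 := (ih fun i hi => h i (by omega)).1
    have h2 : (NTP G n v).2 ≠ v := h n (by omega)
    obtain ⟨S, hS⟩ := NTP_comp G n v
    have h3 : ∃ w, w ∈ NTcomp G ((NTP G n v).1 \ {(NTP G n v).2}) v ∧
        G.Adj (NTP G n v).2 w := by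
      have h4 := NT_next G (S := S) (v := v) (r := (NTP G n v).2) (hS ▸ h1) h2
      rw [← hS] at h4
      exact h4
    have h5 := Classical.epsilon_spec h3
    refine ⟨h5.1, fun m hm => ?_⟩
    obtain rfl : n = m := by omega
    exact h5.2

theorem NTP_sub_succ {v : V} {n : ℕ} (h : (NTP G n v).2 ≠ v) :
    (NTP G (n + 1) v).1 ⊆ (NTP G n v).1 \ {(NTP G n v).2} :=
  NTcomp_sub G ⟨NTP_self G n v, fun h' => h h'.symm⟩

theorem NTP_sub {v : V} {i n : ℕ} (hin : i ≤ n) (h : ∀ j < n, (NTP G j v).2 ≠ v) :
    (NTP G n v).1 ⊆ (NTP G i v).1 := by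
  induction n with
  | zero =>
    obtain rfl : i = 0 := by omega
    exact Subset.rfl
  | succ n ih =>
    rcases Nat.lt_or_ge i (n + 1) with h1 | h1
    · exact ((NTP_sub_succ G (h n (by omega))).trans Set.sdiff_subset).trans
        (ih (by omega) fun j hj => h j (by omega))
    · obtain rfl : i = n + 1 := by omega
      exact Subset.rfl

theorem NTP_ne {v : V} {i n : ℕ} (hin : i < n) (h : ∀ j < n, (NTP G j v).2 ≠ v) :
    (NTP G i v).2 ≠ (NTP G n v).2 := by
  intro he
  have h1 := (NTP_root G n h).1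
  have h2 := NTP_sub G (i := i + 1) hin h h1
  have h3 := NTP_sub_succ G (h i hin) h2
  exact h3.2 he.symm

theorem NTP_eq {v w : V} {n : ℕ} (h : ∀ j < n, (NTP G j v).2 ≠ v) (hw : w ∈ (NTP G n v).1) :
    ∀ i ≤ n, NTP G i w = NTP G i v := by
  intro i
  induction i with
  | zero =>
    intro hi
    have h1 : w ∈ NTcomp G univ v := NTP_sub G hi h hw
    simp only [NTP, NTcomp_eq G h1]
  | succ i ih =>
    intro hi
    have h1 : w ∈ NTcomp G ((NTP G i v).1 \ {(NTP G i v).2}) v := NTP_sub G hi h hw
    have h2 := ih (by omega)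
    simp only [NTP, h2, NTcomp_eq G h1]

variable (hray : ¬ ∃ f : ℕ → V, Function.Injective f ∧ ∀ n, G.Adj (f n) (f (n + 1)))

include hray in
theorem NTN_exists (v : V) : ∃ n, (NTP G n v).2 = v := by
  by_contra hcon
  push Not at hcon
  apply hray
  refine ⟨fun n => (NTP G n v).2, ?_, fun n => ?_⟩
  · intro i j hij
    rcases lt_trichotomy i j with h | h | h
    · exact absurd hij (NTP_ne G h fun j _ => hcon j)
    · exact h
    · exact absurd hij.symm (NTP_ne G h fun j _ => hcon j)
  · exact (NTP_root G (n + 1) fun j _ => hcon j).2 n rfl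

open Classical in
/-- the height -/
noncomputable def NTN (v : V) : ℕ := Nat.find (NTN_exists G hray v)

theorem NTN_spec (v : V) : (NTP G (NTN G hray v) v).2 = v := by
  classical
  exact Nat.find_spec (NTN_exists G hray v)

theorem NTN_live {v : V} {n : ℕ} (hn : n ≤ NTN G hray v) : ∀ j < n, (NTP G j v).2 ≠ v := by
  classical
  intro j hj
  exact Nat.find_min (NTN_exists G hray v) (lt_of_lt_of_le hj hn)

theorem NTN_eq {v : V} {n : ℕ} (h1 : (NTP G n v).2 = v) (h2 : ∀ j < n, (NTP G j v).2 ≠ v) :
    NTN G hray v = n := by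
  rcases lt_trichotomy (NTN G hray v) n with h | h | h
  · exact absurd (NTN_spec G hray v) (h2 _ h)
  · exact h
  · exact absurd h1 (NTN_live G hray le_rfl n h)

theorem NT_root {v : V} {n : ℕ} (hn : n ≤ NTN G hray v) :
    NTN G hray (NTP G n v).2 = n ∧ ∀ i ≤ n, NTP G i (NTP G n v).2 = NTP G i v := by
  have hl := NTN_live G hray hn
  have h1 := NTP_eq G hl (NTP_root G n hl).1
  refine ⟨NTN_eq G hray (by rw [h1 n le_rfl]) fun j hj => ?_, h1⟩
  rw [h1 j hj.le]
  exact NTP_ne G hj hl

/-- the forest order -/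
def NTlt (u v : V) : Prop := ∃ n < NTN G hray v, (NTP G n v).2 = u

theorem NTlt_iff {u v : V} (h : NTlt G hray u v) :
    NTN G hray u < NTN G hray v ∧ (∀ i ≤ NTN G hray u, NTP G i u = NTP G i v) ∧
      (NTP G (NTN G hray u) v).2 = u := by
  obtain ⟨n, hn, rfl⟩ := h
  obtain ⟨h1, h2⟩ := NT_root G hray hn.le
  rw [h1]
  exact ⟨hn, h2, rfl⟩

theorem NTlt_of_root {v : V} {n m : ℕ} (hnm : n < m) (hm : m ≤ NTN G hray v) :
    NTlt G hray (NTP G n v).2 (NTP G m v).2 := by
  obtain ⟨h1, h2⟩ := NT_root G hray hm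
  refine ⟨n, by rw [h1]; exact hnm, ?_⟩
  rw [h2 n hnm.le]

theorem NTlt_trans {a b c : V} (hab : NTlt G hray a b) (hbc : NTlt G hray b c) :
    NTlt G hray a c := by
  obtain ⟨h1, h2, h3⟩ := NTlt_iff G hray hab
  obtain ⟨h4, h5, h6⟩ := NTlt_iff G hray hbc
  refine ⟨NTN G hray a, h1.trans h4, ?_⟩
  rw [← h5 _ h1.le]
  exact h3

theorem NTlt_cmp {u v : V} (huv : G.Adj u v) : NTlt G hray u v ∨ NTlt G hray v u := by
  classical
  have hex : ∃ n, (NTP G n u).2 = u ∨ (NTP G n u).2 = v ∨ (NTP G n v).2 = u ∨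
      (NTP G n v).2 = v := ⟨NTN G hray u, Or.inl (NTN_spec G hray u)⟩
  set n := Nat.find hex with hn
  have hmin : ∀ i < n, (NTP G i u).2 ≠ u ∧ (NTP G i u).2 ≠ v ∧ (NTP G i v).2 ≠ u ∧
      (NTP G i v).2 ≠ v := by
    intro i hi
    have := Nat.find_min hex hi
    push Not at this
    exact this
  have heq : ∀ i ≤ n, NTP G i v = NTP G i u := by
    intro i
    induction i with
    | zero =>
      intro _
      have h1 : v ∈ NTcomp G univ u :=
        Relation.ReflTransGen.single ⟨huv, mem_univ _, mem_univ _⟩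
      simp only [NTP, NTcomp_eq G h1]
    | succ i ih =>
      intro hi
      have h2 := ih (by omega)
      obtain ⟨m1, m2, m3, m4⟩ := hmin i (by omega)
      have h1 : v ∈ NTcomp G ((NTP G i u).1 \ {(NTP G i u).2}) u := by
        refine Relation.ReflTransGen.single ⟨huv, ⟨NTP_self G i u, fun h => m1 h.symm⟩, ?_,
          fun h => m2 h.symm⟩
        rw [← h2]
        exact NTP_self G i v
      simp only [NTP, h2, NTcomp_eq G h1]
  have hne : u ≠ v := huv.ne
  have hspec : (NTP G n u).2 = u ∨ (NTP G n u).2 = v := by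
    rcases Nat.find_spec hex with h | h | h | h
    · exact Or.inl h
    · exact Or.inr h
    · rw [← hn, heq n le_rfl] at h
      exact Or.inl h
    · rw [← hn, heq n le_rfl] at h
      exact Or.inr h
  rcases hspec with h | h
  · left
    refine ⟨n, ?_, by rw [heq n le_rfl]; exact h⟩
    by_contra hcon
    push Not at hcon
    have h1 := NTN_spec G hray v
    rcases lt_or_eq_of_le hcon with h2 | h2
    · exact (hmin _ h2).2.2.2 h1
    · rw [h2, heq n le_rfl, h] at h1
      exact hne h1
  · right
    refine ⟨n, ?_, h⟩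
    by_contra hcon
    push Not at hcon
    have h1 := NTN_spec G hray u
    rcases lt_or_eq_of_le hcon with h2 | h2
    · exact (hmin _ h2).1 h1
    · rw [h2, h] at h1
      exact hne h1.symm

theorem NTlt_noray (f : ℕ → V) : ¬ ∀ n, NTlt G hray (f n) (f (n + 1)) := by
  intro hf
  have hN : ∀ k, k ≤ NTN G hray (f k) := by
    intro k
    induction k with
    | zero => exact Nat.zero_le _
    | succ k ih =>
      have := (NTlt_iff G hray (hf k)).1
      omega
  have hmono : ∀ n m, n ≤ m → NTN G hray (f n) ≤ NTN G hray (f m) ∧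
      ∀ i ≤ NTN G hray (f n), NTP G i (f m) = NTP G i (f n) := by
    intro n m hnm
    induction m, hnm using Nat.le_induction with
    | base => exact ⟨le_rfl, fun i _ => rfl⟩
    | succ m hm ih =>
      obtain ⟨h1, h2, -⟩ := NTlt_iff G hray (hf m)
      refine ⟨ih.1.trans h1.le, fun i hi => ?_⟩
      rw [← h2 i (hi.trans ih.1), ih.2 i hi]
  apply hray
  refine ⟨fun n => (NTP G n (f n)).2, ?_, fun n => ?_⟩
  · have key : ∀ i j, i < j → (NTP G i (f i)).2 ≠ (NTP G j (f j)).2 := by
      intro i j hij
      rw [← (hmono i j hij.le).2 i (hN i)]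
      exact NTP_ne G hij (NTN_live G hray (hN j))
    intro i j hij
    rcases lt_trichotomy i j with h | h | h
    · exact absurd hij (key i j h)
    · exact h
    · exact absurd hij.symm (key j i h)
  · have h1 := (NTP_root G (n + 1) (NTN_live G hray (hN (n + 1)))).2 n rfl
    rw [(hmono n (n + 1) (Nat.le_succ n)).2 n (hN n)] at h1
    exact h1

end NT

theorem exists_rf {V : Type u} (G : SimpleGraph V)
    (h : ¬ ∃ f : ℕ → V, Function.Injective f ∧ ∀ n, G.Adj (f n) (f (n + 1))) :
    ∃ T : RF V, ∀ x y, G.Adj x y → T.lt x y ∨ T.lt y x := by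
  rcases isEmpty_or_nonempty V with hV | hV
  · exact ⟨⟨fun _ _ => False, fun a => hV.elim a, fun a => hV.elim a, fun a => hV.elim a,
      fun a => hV.elim a, fun f => hV.elim (f 0)⟩, fun a => hV.elim a⟩
  refine ⟨⟨NTlt G h, ?_, fun a b c => NTlt_trans G h, ?_, ?_, NTlt_noray G h⟩,
    fun x y hxy => NTlt_cmp G h hxy⟩
  · intro a ha
    exact lt_irrefl _ (NTlt_iff G h ha).1
  · intro a b c hac hbc
    obtain ⟨n, hn, rfl⟩ := hac
    obtain ⟨m, hm, rfl⟩ := hbc
    rcases lt_trichotomy n m with h1 | h1 | h1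
    · exact Or.inr (Or.inl (NTlt_of_root G h h1 hm.le))
    · rw [h1]
      exact Or.inl rfl
    · exact Or.inr (Or.inr (NTlt_of_root G h h1 hn.le))
  · intro c
    refine ((Set.finite_lt_nat (NTN G h c)).image fun n => (NTP G n c).2).subset ?_
    rintro a ⟨n, hn, rfl⟩
    exact ⟨n, hn, rfl⟩

theorem propP_of_pt {α : Ordinal.{0}} (h : PT α) : Pool.Agent.Lib.EHM47.PropP α := by
  intro G
  by_cases hray : ∃ f : ℕ → Set.Iio α, Function.Injective f ∧ ∀ n, G.Adj (f n) (f (n + 1))
  · exact Or.inl hray
  · right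
    obtain ⟨T, hT⟩ := exists_rf G hray
    obtain ⟨A, hA, hanti, hhas⟩ := h
      { lt := fun a b => ∃ (ha : a < α) (hb : b < α), T.lt ⟨a, ha⟩ ⟨b, hb⟩
        irr := fun a ⟨ha, _, hl⟩ => T.irr ⟨a, ha⟩ hl
        trans := fun a b c ⟨ha, _, h1⟩ ⟨_, hc, h2⟩ => ⟨ha, hc, T.trans _ _ _ h1 h2⟩
        lin := by
          rintro a b c ⟨ha, hc, h1⟩ ⟨hb, _, h2⟩
          rcases T.lin ⟨a, ha⟩ ⟨b, hb⟩ ⟨c, hc⟩ h1 h2 with h3 | h3 | h3
          · exact Or.inl (congrArg Subtype.val h3)
          · exact Or.inr (Or.inl ⟨ha, hb, h3⟩)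
          · exact Or.inr (Or.inr ⟨hb, ha, h3⟩)
        fin := by
          intro c
          by_cases hc : c < α
          · refine ((T.fin ⟨c, hc⟩).image Subtype.val).subset ?_
            rintro a ⟨ha, _, hl⟩
            exact ⟨⟨a, ha⟩, hl, rfl⟩
          · refine Set.finite_empty.subset ?_
            rintro a ⟨_, hc', _⟩
            exact hc hc'
        noray := by
          intro f hf
          have hfa : ∀ n, f n < α := fun n => (hf n).1
          refine T.noray (fun n => ⟨f n, hfa n⟩) fun n => ?_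
          obtain ⟨_, _, hl⟩ := hf n
          exact hl }
    obtain ⟨S, hS, hiso⟩ := orderIso_of_has hA hhas
    refine ⟨S, fun x hx y hy hxy => ?_, hiso⟩
    rcases hT x y hxy with h1 | h1
    · exact hanti x.1 (hS x hx) y.1 (hS y hy) ⟨x.2, y.2, h1⟩
    · exact hanti y.1 (hS y hy) x.1 (hS x hx) ⟨y.2, x.2, h1⟩

end Pool.Agent.H47Q
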