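import Pool.Agent.Lib.H47Q.Defs
import Pool.Agent.Lib.EHM47.Main

/-!
# The tree of the finite free sequences

`Nd C l`: the list `l = [l_0, …, l_{n-1}]` is free for `C`: `l_i ∉ C [l_{i+1}, …, l_{i+k}]`.
-/

set_option autoImplicit false

open Set Cardinal

namespace Pool.Agent.H47Q

/-- finite free sequences -/
def Nd {K : Type} (C : List K → Finset K) : List K → Prop
  | [] => True
  | a :: l => Nd C l ∧ ∀ l', l' <+: l → a ∉ C l'

variable {K : Type}

end Pool.Agent.H47Q
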