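import Pool.Agent.Lib.H47Q.NecTree

/-!
# Chunk NECEMB: the assignment of finite sets

Let `C`, `rk` be as in `exists_rank`. `κ` is an ordinal with `1 < κ`, `γ < κ` for all `γ < rk []`, `Q = κ ^ ω`; `κ * Q ^ …`: note
`κ * Q = κ ^ (1 + ω) = Q`. Fix `pk : List K → Ordinal → K` with `Nd C (t ++ [pk t γ]) ∧ γ ≤ rk (t ++ [pk t γ])` for `γ < rk t`.

`SS C pk Q t x = C t ∪ (if x = 0 then ∅ else SS (t ++ [pk t γ]) (x % Q ^ γ))`, `γ = log Q x`.
`FF rk pk κ a t x = if x = 0 then 0 else Q ^ h * γ + (Q ^ h' * κ * (x / Q ^ γ) + FF a (t ++ [pk t γ]) (x % Q ^ γ))`, `γ = log Q x`, `h = rk (a :: t)`,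
`h' = rk (a :: (t ++ [pk t γ]))`. (`x % Q ^ γ < Q ^ γ ≤ x`: termination.)

* `ff_lt`: let `Nd C t`, `Nd C (a :: t)`, `rk t ≤ rk []`, `x < Q ^ rk t`, `a ∉ SS t x`. Then `FF a t x < Q ^ rk (a :: t) * κ`. Induction on `x`. For `x = 0` clear (`κ > 0`, `Q > 0`).
  For `x ≠ 0`: `γ = log Q x < rk t` (as `x < Q ^ rk t`, `Q ^ γ ≤ x`), `t' = t ++ [pk t γ]`, `Nd C t'`, `γ ≤ rk t' < rk t`, `x' = x % Q ^ γ < Q ^ γ ≤ Q ^ rk t'`, `a ∉ SS t' x'`,
  `C t' ⊆ SS t' x'`, so `a ∉ C t'` and `Nd C (a :: t')` (`nd_cons_append`), `h' = rk (a :: t') < h = rk (a :: t)` (as `a :: t' = (a :: t) ++ [_]`). By induction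
  `FF a t' x' < Q ^ h' * κ`. `x / Q ^ γ < Q`. So `Q ^ h' * κ * (x / Q ^ γ) + FF a t' x' < Q ^ h' * κ * Q = Q ^ (h' + 1) ≤ Q ^ h` (`mul_add_lt` of `EHM47/Assign.lean`), and
  `Q ^ h * γ + … < Q ^ h * (γ + 1) ≤ Q ^ h * κ` because `γ < rk [] ` so `γ < κ`.
* `ff_mono`: for two such `x < y`: `FF a t x < FF a t y`. Induction on `x`. If `x = 0`: `FF a t y > 0` because `Q ^ h' * κ * (y / Q ^ γ) > 0`. Otherwise
  `log Q x ≤ log Q y`. If `log Q x < log Q y`: `FF a t x < Q ^ h * (log Q x + 1) ≤ Q ^ h * log Q y ≤ FF a t y`. If they are equal, `= γ`: `x / Q ^ γ < y / Q ^ γ`, and then use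
  `FF a t' x' < Q ^ h' * κ` (`ff_lt`), or `x / Q ^ γ = y / Q ^ γ` and `x % Q ^ γ < y % Q ^ γ`, and then use induction (`div_mod_lt`).
-/

set_option autoImplicit false

open Set Ordinal Cardinal

namespace Pool.Agent.H47Q

variable {K : Type}

theorem mod_opow_log_lt {Q x : Ordinal.{0}} (hQ : 0 < Q) (hx : x ≠ 0) :
    x % Q ^ Ordinal.log Q x < x :=
  (Ordinal.mod_lt _ (Ordinal.opow_pos _ hQ).ne').trans_le (Ordinal.opow_log_le_self _ hx)

open Classical in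
/-- the finite set assigned to `x` at the node `t` -/
noncomputable def SS (C : List K → Finset K) (pk : List K → Ordinal.{0} → K) (Q : Ordinal.{0})
    (hQ : 0 < Q) (t : List K) (x : Ordinal.{0}) : Finset K :=
  C t ∪ (if hx : x = 0 then ∅ else
    have := mod_opow_log_lt hQ hx
    SS C pk Q hQ (t ++ [pk t (Ordinal.log Q x)]) (x % Q ^ Ordinal.log Q x))
termination_by x

open Classical in
/-- the embedding -/
noncomputable def FF (rk : List K → Ordinal.{0}) (pk : List K → Ordinal.{0} → K)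
    (κ Q : Ordinal.{0}) (hQ : 0 < Q) (a : K) (t : List K) (x : Ordinal.{0}) : Ordinal.{0} :=
  if hx : x = 0 then 0 else
    have := mod_opow_log_lt hQ hx
    Q ^ rk (a :: t) * Ordinal.log Q x +
      (Q ^ rk (a :: (t ++ [pk t (Ordinal.log Q x)])) * κ * (x / Q ^ Ordinal.log Q x) +
        FF rk pk κ Q hQ a (t ++ [pk t (Ordinal.log Q x)]) (x % Q ^ Ordinal.log Q x))
termination_by x

variable {C : List K → Finset K} {rk : List K → Ordinal.{0}} {pk : List K → Ordinal.{0} → K}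
  {κ Q : Ordinal.{0}}

theorem necemb_SS (hQ : 0 < Q) (t : List K) {x : Ordinal.{0}} (hx : x ≠ 0) (a : K) :
    a ∉ SS C pk Q hQ t x ↔ a ∉ C t ∧
      a ∉ SS C pk Q hQ (t ++ [pk t (Ordinal.log Q x)]) (x % Q ^ Ordinal.log Q x) := by
  rw [SS]
  simp [hx]

theorem necemb_C (hQ : 0 < Q) (t : List K) (x : Ordinal.{0}) (a : K)
    (h : a ∉ SS C pk Q hQ t x) : a ∉ C t := by
  rw [SS] at h
  simp only [Finset.mem_union, not_or] at h
  exact h.1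

theorem necemb_FF (hQ : 0 < Q) (a : K) (t : List K) {x : Ordinal.{0}} (hx : x ≠ 0) :
    FF rk pk κ Q hQ a t x = Q ^ rk (a :: t) * Ordinal.log Q x +
      (Q ^ rk (a :: (t ++ [pk t (Ordinal.log Q x)])) * κ * (x / Q ^ Ordinal.log Q x) +
        FF rk pk κ Q hQ a (t ++ [pk t (Ordinal.log Q x)]) (x % Q ^ Ordinal.log Q x)) := by
  rw [FF]
  simp [hx]

theorem necemb_FF0 (hQ : 0 < Q) (a : K) (t : List K) :
    FF rk pk κ Q hQ a t 0 = 0 := by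
  rw [FF]
  simp

theorem necemb_one (hκ : 1 < κ) (hQω : Q = κ ^ (ω : Ordinal.{0})) : 1 < Q := by
  rw [hQω]
  calc (1 : Ordinal.{0}) < κ := hκ
    _ = κ ^ (1 : Ordinal.{0}) := (opow_one κ).symm
    _ ≤ κ ^ (ω : Ordinal.{0}) := opow_le_opow_right (zero_lt_one.trans hκ) one_lt_omega0.le

theorem necemb_mul (hQω : Q = κ ^ (ω : Ordinal.{0})) : κ * Q = Q := by
  rw [hQω]
  conv_lhs => rw [← opow_one κ]
  rw [opow_one, show κ * κ ^ (ω : Ordinal.{0}) = κ ^ (1 + ω : Ordinal.{0}) by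
    rw [opow_add, opow_one], one_add_omega0]

/-- the facts about the next node -/
theorem necemb_step (hκ : 1 < κ) (hQω : Q = κ ^ (ω : Ordinal.{0})) (hQ : 0 < Q)
    (h1 : ∀ l b, Nd C (l ++ [b]) → rk (l ++ [b]) < rk l)
    (hpk : ∀ l γ, γ < rk l → Nd C (l ++ [pk l γ]) ∧ γ ≤ rk (l ++ [pk l γ]))
    (a : K) (x : Ordinal.{0}) (hx0 : x ≠ 0) (t : List K)
    (ht' : Nd C (a :: t)) (hrt : rk t ≤ rk []) (hx : x < Q ^ rk t)
    (ha : a ∉ SS C pk Q hQ t x) :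
    Ordinal.log Q x < rk t ∧ Nd C (t ++ [pk t (Ordinal.log Q x)]) ∧
    Nd C (a :: (t ++ [pk t (Ordinal.log Q x)])) ∧
    rk (t ++ [pk t (Ordinal.log Q x)]) ≤ rk [] ∧
    x % Q ^ Ordinal.log Q x < Q ^ rk (t ++ [pk t (Ordinal.log Q x)]) ∧
    a ∉ SS C pk Q hQ (t ++ [pk t (Ordinal.log Q x)]) (x % Q ^ Ordinal.log Q x) ∧
    rk (a :: (t ++ [pk t (Ordinal.log Q x)])) < rk (a :: t) := by
  have hQ1 := necemb_one hκ hQω
  have hγ : Ordinal.log Q x < rk t := (lt_opow_iff_log_lt hQ1 hx0).1 hx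
  obtain ⟨h2, h3⟩ := hpk t _ hγ
  have h4 := (necemb_SS hQ t hx0 a).1 ha
  have h5 : Nd C (a :: (t ++ [pk t (Ordinal.log Q x)])) :=
    nd_cons_append ht' h2 (necemb_C hQ _ _ _ h4.2)
  refine ⟨hγ, h2, h5, (h1 _ _ h2).le.trans hrt, ?_, h4.2, ?_⟩
  · exact (Ordinal.mod_lt _ (Ordinal.opow_pos _ hQ).ne').trans_le (opow_le_opow_right hQ h3)
  · exact h1 (a :: t) _ h5

theorem necemb_inner (hκ : 1 < κ) (hQω : Q = κ ^ (ω : Ordinal.{0})) (hQ : 0 < Q)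
    {h h' y z : Ordinal.{0}} (hh : h' < h) (hy : y < Q) (hz : z < Q ^ h' * κ) :
    Q ^ h' * κ * y + z < Q ^ h := by
  have h1 := Pool.Agent.Lib.EHM47.mul_add_lt hy hz
  rw [mul_assoc _ κ Q, necemb_mul hQω] at h1
  refine h1.trans_le ?_
  calc Q ^ h' * Q = Q ^ (h' + 1) := by rw [opow_add, opow_one]
    _ ≤ Q ^ h := opow_le_opow_right hQ (Order.add_one_le_of_lt hh)

theorem ff_lt (hκ : 1 < κ) (hQω : Q = κ ^ (ω : Ordinal.{0})) (hQ : 0 < Q)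
    (h1 : ∀ l b, Nd C (l ++ [b]) → rk (l ++ [b]) < rk l)
    (hpk : ∀ l γ, γ < rk l → Nd C (l ++ [pk l γ]) ∧ γ ≤ rk (l ++ [pk l γ]))
    (hr : ∀ γ < rk [], γ < κ) (a : K) (x : Ordinal.{0}) : ∀ t, Nd C t → Nd C (a :: t) →
      rk t ≤ rk [] → x < Q ^ rk t → a ∉ SS C pk Q hQ t x →
        FF rk pk κ Q hQ a t x < Q ^ rk (a :: t) * κ := by
  induction x using WellFoundedLT.induction with
  | ind x ih =>
  intro t ht ht' hrt hx ha
  rcases eq_or_ne x 0 with rfl | hx0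
  · rw [necemb_FF0]
    exact mul_pos (Ordinal.opow_pos _ hQ) (zero_lt_one.trans hκ)
  · obtain ⟨hγ, h2, h3, h4, h5, h6, h7⟩ :=
      necemb_step hκ hQω hQ h1 hpk a x hx0 t ht' hrt hx ha
    rw [necemb_FF hQ a t hx0]
    have h8 := ih _ (mod_opow_log_lt hQ hx0) _ h2 h3 h4 h5 h6
    have h9 := necemb_inner hκ hQω hQ h7 (div_opow_log_lt x (necemb_one hκ hQω)) h8
    exact Pool.Agent.Lib.EHM47.mul_add_lt (hr _ (hγ.trans_le hrt)) h9

theorem ff_mono (hκ : 1 < κ) (hQω : Q = κ ^ (ω : Ordinal.{0})) (hQ : 0 < Q)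
    (h1 : ∀ l b, Nd C (l ++ [b]) → rk (l ++ [b]) < rk l)
    (hpk : ∀ l γ, γ < rk l → Nd C (l ++ [pk l γ]) ∧ γ ≤ rk (l ++ [pk l γ]))
    (hr : ∀ γ < rk [], γ < κ) (a : K) (x : Ordinal.{0}) : ∀ t y, Nd C t → Nd C (a :: t) →
      rk t ≤ rk [] → x < y → y < Q ^ rk t → a ∉ SS C pk Q hQ t x → a ∉ SS C pk Q hQ t y →
        FF rk pk κ Q hQ a t x < FF rk pk κ Q hQ a t y := by
  induction x using WellFoundedLT.induction with
  | ind x ih =>
  intro t y ht ht' hrt hxy hy hax hay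
  have hy0 : y ≠ 0 := (pos_of_gt hxy).ne'
  have hQ1 := necemb_one hκ hQω
  rcases eq_or_ne x 0 with rfl | hx0
  · rw [necemb_FF0, necemb_FF hQ a t hy0]
    have h2 : 0 < Q ^ rk (a :: (t ++ [pk t (Ordinal.log Q y)])) * κ *
        (y / Q ^ Ordinal.log Q y) :=
      mul_pos (mul_pos (Ordinal.opow_pos _ hQ) (zero_lt_one.trans hκ)) (div_opow_log_pos Q hy0)
    exact h2.trans_le (le_self_add.trans (le_add_self))
  · have hx : x < Q ^ rk t := hxy.trans hy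
    obtain ⟨hγ, h2, h3, h4, h5, h6, h7⟩ :=
      necemb_step hκ hQω hQ h1 hpk a x hx0 t ht' hrt hx hax
    have h8 := ff_lt hκ hQω hQ h1 hpk hr a _ _ h2 h3 h4 h5 h6
    have h9 := necemb_inner hκ hQω hQ h7 (div_opow_log_lt x hQ1) h8
    rcases (log_mono_right Q hxy.le).lt_or_eq with hlt | heq
    · rw [necemb_FF hQ a t hx0, necemb_FF hQ a t hy0]
      exact Pool.Agent.Lib.EHM47.mul_add_lt_mul_add _ hlt h9
    · obtain ⟨-, -, -, -, h5', h6', -⟩ :=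
        necemb_step hκ hQω hQ h1 hpk a y hy0 t ht' hrt hy hay
      rw [necemb_FF hQ a t hx0, necemb_FF hQ a t hy0]
      rw [← heq] at h5' h6' ⊢
      refine (add_lt_add_iff_left _).2 ?_
      rcases Pool.Agent.Lib.EHM47.div_mod_lt (a := Q ^ Ordinal.log Q x) hxy with h10 | ⟨h10, h11⟩
      · exact Pool.Agent.Lib.EHM47.mul_add_lt_mul_add _ h10 h8
      · rw [h10]
        exact (add_lt_add_iff_left _).2
          (ih _ (mod_opow_log_lt hQ hx0) _ _ h2 h3 h4 h11 h5' h6 h6')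

end Pool.Agent.H47Q
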