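import Pool.Agent.Lib.H47Q.NecDefs

/-!
# Chunk NECTREE: the tree of the finite free sequences

* `nd_append`: `Nd C (l ++ [b])` implies `Nd C l`.
* `exists_rank`: `K` infinite, `C` without an infinite free sequence. The relation `R l' l ↔ Nd C l' ∧ ∃ b, l' = l ++ [b]` is well founded: otherwise there are `l_0, l_1, …` with
  `R l_{k+1} l_k` (`wellFounded_iff_isEmpty_descending_chain`); then `τ j` = the `j`-th entry of `l_{j+1}` is an infinite free
  sequence. Let `rk` be the rank function (`WellFounded.rank`, or `IsWellFounded.rank`): `rk l = sup {rk l' + 1 : R l' l}`. Every ordinal `γ < rk l` satisfies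
  `γ ≤ rk l'` for some `R l' l` and every ordinal `γ ≤ rk []` is the rank of some list (`IsWellFounded.mem_range_rank_of_le`); hence `(rk []).card ≤ #(List K) = #K`.
-/

set_option autoImplicit false

open Set Cardinal

namespace Pool.Agent.H47Q

variable {K : Type}

theorem nd_append {C : List K → Finset K} {l : List K} {b : K} (h : Nd C (l ++ [b])) :
    Nd C l := by
  induction l with
  | nil => trivial
  | cons a l ih =>
    obtain ⟨h1, h2⟩ := h
    exact ⟨ih h1, fun l' hl' => h2 l' (hl'.trans (List.prefix_append l [b]))⟩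

/-- extension on the left -/
theorem nd_cons_append {C : List K → Finset K} {l : List K} {a b : K} (h : Nd C (a :: l))
    (h' : Nd C (l ++ [b])) (ha : a ∉ C (l ++ [b])) : Nd C (a :: (l ++ [b])) := by
  refine ⟨h', fun l' hl' => ?_⟩
  rcases List.prefix_concat_iff.1 hl' with rfl | h3
  · exact ha
  · exact h.2 l' h3

theorem nectree_drop {C : List K → Finset K} (j : ℕ) : ∀ l : List K, Nd C l → Nd C (l.drop j) := by
  induction j with
  | zero => intro l h; simpa using h
  | succ j ih =>
    intro l h
    cases l with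
    | nil => trivial
    | cons a l => simpa using ih l h.1

theorem nectree_seg (τ : ℕ → K) (n : ℕ) : ∀ j i,
    (seg τ j n)[i]? = if i < n then some (τ (j + 1 + i)) else none := by
  induction n with
  | zero => intro j i; simp [seg]
  | succ n ih =>
    intro j i
    cases i with
    | zero => simp [seg]
    | succ i =>
      simp only [seg, List.getElem?_cons_succ, ih, Nat.add_lt_add_iff_right]
      rw [show j + 1 + 1 + i = j + 1 + (i + 1) by omega]

theorem nectree_wf {C : List K → Finset K}
    (h : ¬ ∃ τ : ℕ → K, ∀ j n, τ j ∉ C (seg τ j n)) :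
    WellFounded fun l' l : List K => Nd C l' ∧ ∃ b, l' = l ++ [b] := by
  rw [wellFounded_iff_isEmpty_descending_chain]
  refine ⟨fun ⟨f, hf⟩ => h ?_⟩
  have hlen : ∀ n, (f n).length = (f 0).length + n := by
    intro n
    induction n with
    | zero => rfl
    | succ n ih =>
      obtain ⟨b, hb⟩ := (hf n).2
      rw [hb, List.length_append, ih]
      simp [add_assoc]
  have hpre : ∀ m n, m ≤ n → f m <+: f n := by
    intro m n hmn
    induction hmn with
    | refl => exact List.prefix_rfl
    | @step n _ ih =>
      obtain ⟨b, hb⟩ := (hf n).2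
      rw [hb]
      exact ih.trans (List.prefix_append _ _)
  have hτ : ∀ j, ∃ x, (f (j + 1))[j]? = some x := by
    intro j
    have : j < (f (j + 1)).length := by rw [hlen]; omega
    exact ⟨_, List.getElem?_eq_getElem this⟩
  choose τ hτ using hτ
  have hget : ∀ N j, j < N → (f N)[j]? = some (τ j) := by
    intro N j hj
    obtain ⟨t, ht⟩ := hpre (j + 1) N hj
    rw [← ht, List.getElem?_append_left (by rw [hlen]; omega), hτ]
  refine ⟨τ, fun j n => ?_⟩
  have hN : Nd C (f (j + n + 1)) := (hf (j + n)).1
  have h1 := nectree_drop j _ hN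
  have h2 : (f (j + n + 1)).drop j = τ j :: (f (j + n + 1)).drop (j + 1) := by
    have hj : j < (f (j + n + 1)).length := by rw [hlen]; omega
    rw [List.drop_eq_getElem_cons hj]
    congr 1
    have := hget (j + n + 1) j (by omega)
    rw [List.getElem?_eq_getElem hj] at this
    exact Option.some_injective _ this
  rw [h2] at h1
  refine h1.2 _ ?_
  have h3 : seg τ j n = ((f (j + n + 1)).drop (j + 1)).take n := by
    apply List.ext_getElem?
    intro i
    rw [nectree_seg, List.getElem?_take, List.getElem?_drop]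
    split_ifs with hi
    · rw [hget _ _ (by omega)]
    · rfl
  rw [h3]
  exact List.take_prefix _ _

theorem exists_rank [Infinite K] {C : List K → Finset K}
    (h : ¬ ∃ τ : ℕ → K, ∀ j n, τ j ∉ C (seg τ j n)) :
    ∃ rk : List K → Ordinal.{0}, (∀ l b, Nd C (l ++ [b]) → rk (l ++ [b]) < rk l) ∧
      (∀ l γ, γ < rk l → ∃ b, Nd C (l ++ [b]) ∧ γ ≤ rk (l ++ [b])) ∧ (rk []).card ≤ #K := by
  have hwf := nectree_wf h
  let R := fun l' l : List K => Nd C l' ∧ ∃ b, l' = l ++ [b]
  haveI : IsWellFounded (List K) R := ⟨hwf⟩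
  refine ⟨IsWellFounded.rank R, fun l b hb => IsWellFounded.rank_lt_of_rel ⟨hb, b, rfl⟩,
    fun l γ hγ => ?_, ?_⟩
  · rw [IsWellFounded.rank_eq, Ordinal.lt_iSup_iff] at hγ
    obtain ⟨⟨l', h1, b, rfl⟩, h2⟩ := hγ
    exact ⟨b, h1, Order.lt_succ_iff.1 h2⟩
  · have h1 : Iio (IsWellFounded.rank R []) ⊆ range (IsWellFounded.rank R) := fun o ho =>
      IsWellFounded.mem_range_rank_of_le (le_of_lt ho)
    have h2 := Cardinal.mk_le_mk_of_subset h1
    have h3 := Cardinal.mk_range_le_lift (f := IsWellFounded.rank R)
    rw [Cardinal.mk_list_eq_mk] at h3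
    have h4 : lift.{1} (IsWellFounded.rank R []).card ≤ lift.{1} #K := by
      rw [← Cardinal.mk_Iio_ordinal]
      refine h2.trans ?_
      simpa using h3
    exact Cardinal.lift_le.1 h4

end Pool.Agent.H47Q
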