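import Pool.Agent.Lib.H47Q.NAf
import Pool.Agent.Lib.EHM47.General

/-!
# `Free K` fails for the types `K` of cardinality less than `ℵ_ω`

By `assigned_general` there is an assignment of finite sets to the ordinals below a power of
`ω_n` which contradicts the free set lemma.
-/

set_option autoImplicit false

open Set Ordinal Cardinal

namespace Pool.Agent.H47Q

open Pool.Agent.Lib.EHM47

theorem seg_map {K K' : Type*} (e : K → K') (τ : ℕ → K) (j n : ℕ) :
    (seg τ j n).map e = seg (fun i => e (τ i)) j n := by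
  induction n generalizing j with
  | zero => rfl
  | succ n ih =>
    rw [seg, seg, List.map_cons, ih]

/-- `Free` is upward closed. -/
theorem Free.mono {K K' : Type} (h : Free K) (e : K ↪ K') : Free K' := by
  intro C hC
  obtain ⟨τ, hτ⟩ := h (fun l => e ⁻¹' C (l.map e)) fun l => (hC _).preimage e.injective
  refine ⟨fun i => e (τ i), fun j n hmem => hτ j n ?_⟩
  rw [mem_preimage, seg_map]
  exact hmem

theorem le_of_has_emb {β γ : Ordinal.{0}} {S : Set Ordinal.{0}} (h : Has β S) (h' : Emb S γ) :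
    β ≤ γ := by
  obtain ⟨f, hf1, hf2⟩ := h
  obtain ⟨g, hg1, hg2⟩ := h'
  have key : ∀ x, x < β → x ≤ g (f x) := by
    intro x
    induction x using WellFoundedLT.induction with
    | ind x ih =>
      intro hx
      by_contra hcon
      rw [not_le] at hcon
      have h1 := ih _ hcon (hcon.trans hx)
      have h2 := hg2 _ (hf1 _ (hcon.trans hx)) _ (hf1 _ hx) (hf2 _ _ hcon hx)
      exact absurd h1 (not_le.2 h2)
  by_contra hcon
  rw [not_le] at hcon
  exact absurd (key γ hcon) (not_le.2 (hg1 _ (hf1 γ hcon)))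

theorem not_free_aleph (n : ℕ) : ¬ Free (ℵ_ n : Cardinal.{0}).ord.ToType := by
  intro h
  set κ : Ordinal.{0} := (ℵ_ n : Cardinal.{0}).ord with hκ
  have hκ1 : 1 < κ := one_lt_omega0.trans_le
    (omega0_le_of_isSuccLimit (isSuccLimit_ord (Cardinal.aleph0_le_aleph _)))
  obtain ⟨b, -, s, hs⟩ := assigned_general n κ le_rfl
  obtain ⟨t, ht⟩ := free_lemma (s := fun y => {t : κ.ToType | (Ordinal.ToType.mk.symm t).1 ∈ s y}) h
    (fun y => by
      refine Set.Finite.countable ?_
      have h1 := (s y).finite_toSet.preimage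
        (f := fun t : κ.ToType => (Ordinal.ToType.mk.symm t).1) (fun a _ b _ hab =>
          Ordinal.ToType.mk.symm.injective (Subtype.ext hab))
      exact h1) (κ ^ b)
  obtain ⟨g, hg, hemb⟩ := hs (Ordinal.ToType.mk.symm t).1 (Ordinal.ToType.mk.symm t).2
  have h2 := le_of_has_emb ht hemb
  exact absurd h2 (not_le.2 ((opow_lt_opow_iff_right hκ1).2 hg))

theorem not_free_of_lt {K : Type} (hK : #K < ℵ_ (ω : Ordinal.{0})) : ¬ Free K := by
  intro h
  obtain ⟨n, hn⟩ : ∃ n : ℕ, #K ≤ ℵ_ (n : Ordinal.{0}) := by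
    rw [Cardinal.aleph_limit isSuccLimit_omega0] at hK
    have : Nonempty (Iio (ω : Ordinal.{0})) := ⟨⟨0, omega0_pos⟩⟩
    obtain ⟨⟨o, ho⟩, ho2⟩ := exists_lt_of_lt_ciSup hK
    obtain ⟨n, rfl⟩ := lt_omega0.1 ho
    exact ⟨n, ho2.le⟩
  have h1 : #K ≤ #((ℵ_ n : Cardinal.{0}).ord.ToType) := by
    rw [Cardinal.mk_toType, Cardinal.card_ord]
    exact hn
  obtain ⟨e⟩ := (Cardinal.le_def _ _).1 h1
  exact not_free_aleph n (h.mono e)

end Pool.Agent.H47Q
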