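import Pool.Agent.Lib.H47Q.MDefs

/-!
# Names for the pairing functions and the codes of finite partial functions
-/

set_option autoImplicit false

open Set Function

namespace Pool.Agent.H47Q

open Pool.Agent.H5Z Pool.Agent.H30C BSet

variable {K : Type} [LinearOrder K] [WellFoundedLT K]

/-- name of `z ↦ hd z` -/
noncomputable def HN (B : Type) [CompleteBooleanAlgebra B] (d : PData K) : BSet B :=
  relB (fun z x => tv B (z ≠ d.o ∧ d.hd z = x))

/-- name of `z ↦ tl z` -/
noncomputable def TN (B : Type) [CompleteBooleanAlgebra B] (d : PData K) : BSet B :=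
  relB (fun z x => tv B (z ≠ d.o ∧ d.tl z = x))

/-- name of the relation `x ∈ zz p` -/
noncomputable def ZN (B : Type) [CompleteBooleanAlgebra B] (d : PData K) : BSet B :=
  relB (fun p x => tv B (x ∈ d.zz p))

/-- name of the relation `x ∈ oo p` -/
noncomputable def ON (B : Type) [CompleteBooleanAlgebra B] (d : PData K) : BSet B :=
  relB (fun p x => tv B (x ∈ d.oo p))

variable {B : Type} [CompleteBooleanAlgebra B]

theorem memB_HN (d : PData K) (z x : K) :
    memB (opair (kchk B z) (kchk B x)) (HN B d) = tv B (z ≠ d.o ∧ d.hd z = x) := memB_relB _ z x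

theorem memB_TN (d : PData K) (z x : K) :
    memB (opair (kchk B z) (kchk B x)) (TN B d) = tv B (z ≠ d.o ∧ d.tl z = x) := memB_relB _ z x

theorem memB_ZN (d : PData K) (z x : K) :
    memB (opair (kchk B z) (kchk B x)) (ZN B d) = tv B (x ∈ d.zz z) := memB_relB _ z x

theorem memB_ON (d : PData K) (z x : K) :
    memB (opair (kchk B z) (kchk B x)) (ON B d) = tv B (x ∈ d.oo z) := memB_relB _ z x

end Pool.Agent.H47Q
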