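import Pool.Agent.Lib.H47Q.TDefs

/-!
# Chunk TPAIR: the pairing functions in the quotient structure

Follow the proof of `isOm1_quot` in `H30C/TOm.lean`: for each clause write down the Boolean value (with `kchk B` for the variables) as a
`Tv` statement with `Tv.allK`, `Tv.exK`, `Tv.rel`, `Tv.eq`, `Tv.imp`, …, and the `ExtB` side conditions by the lemmas `E1_extB_*`, `extB_pairL`, `extB_pairR`,
`ExtB.diag`; then `h.holds` and show that the value is `⊤` by `memB_HN`, `memB_TN`, `eqB_kchk`, and the properties of `PData`. `Tv.funV` is the version of `Tv.func` for relations on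
`K`. For `o_mem`: `memB (kchk B o) (KB K B) = ⊤` (e.g. from `memB_setB`: `KB K B` is `setB (fun _ => ⊤)`).
-/

set_option autoImplicit false

open Set Function

namespace Pool.Agent.H47Q

open Pool.Agent.H5Z Pool.Agent.H30C BSet Fml

variable {B : Type} [CompleteBooleanAlgebra B] {K : Type} [LinearOrder K] [WellFoundedLT K]

theorem tv_pos {P : Prop} (h : P) : tv B P = ⊤ := by
  unfold tv
  rw [if_pos h]

theorem tv_neg {P : Prop} (h : ¬ P) : tv B P = ⊥ := by
  unfold tv
  rw [if_neg h]

theorem eqB_kchk_tv (x y : K) : eqB (kchk B x) (kchk B y) = tv B (x = y) := by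
  rw [eqB_kchk]
  by_cases h : x = y
  · rw [if_pos h, tv_pos h]
  · rw [if_neg h, tv_neg h]

/-- truth value of `F is a partial function` -/
theorem Tv.funV (U : UF B) (f : BSet B) :
    Tv U (funB (relV K f)) (IsFunIn (EU U) (cls U (KB K B)) (cls U f)) := by
  have key : Tv U (⨅ n : K, ⨅ x : K, ⨅ y : K, memB (opair (kchk B n) (kchk B x)) f ⇨
      (memB (opair (kchk B n) (kchk B y)) f ⇨ eqB (kchk B x) (kchk B y)))
      (IsFunIn (EU U) (cls U (KB K B)) (cls U f)) := by
    refine Tv.allK (F := fun n => ⨅ x : K, ⨅ y : K, memB (opair n (kchk B x)) f ⇨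
      (memB (opair n (kchk B y)) f ⇨ eqB (kchk B x) (kchk B y))) ?_ fun n => ?_
    · exact E1_extB_iInf fun x => E1_extB_iInf fun y => E1_extB_himp (extB_pairL _ _)
        (E1_extB_himp (extB_pairL _ _) (E1_extB_const _))
    refine Tv.allK (F := fun x => ⨅ y : K, memB (opair n x) f ⇨
      (memB (opair n (kchk B y)) f ⇨ eqB x (kchk B y))) ?_ fun x => ?_
    · exact E1_extB_iInf fun y => E1_extB_himp (extB_pairR _ _)
        (E1_extB_himp (E1_extB_const _) (extB_eqB_left _))
    refine Tv.allK (F := fun y => memB (opair n x) f ⇨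
      (memB (opair n y) f ⇨ eqB x y)) ?_ fun y => ?_
    · exact E1_extB_himp (E1_extB_const _)
        (E1_extB_himp (extB_pairR _ _) (extB_eqB_right _))
    exact (Tv.rel n x f).imp ((Tv.rel n y f).imp (Tv.eq x y))
  have e : funB (relV K f) = (⨅ n : K, ⨅ x : K, ⨅ y : K, memB (opair (kchk B n) (kchk B x)) f ⇨
      (memB (opair (kchk B n) (kchk B y)) f ⇨ eqB (kchk B x) (kchk B y))) := by
    unfold funB relV
    simp only [eqB_kchk_tv]
  rw [e]
  exact key

theorem memB_KB (x : K) : memB (kchk B x) (KB K B) = ⊤ := memB_setB (fun _ => ⊤) x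

theorem kchk_mem_quot (U : UF B) (x : K) : EU U (cls U (kchk B x)) (cls U (KB K B)) :=
  (Tv.mem (U := U) (kchk B x) (KB K B)).holds (memB_KB x)

theorem o_mem_quot (U : UF B) (d : PData K) : EU U (cls U (kchk B d.o)) (cls U (KB K B)) :=
  kchk_mem_quot U d.o

theorem funB_HN (d : PData K) : funB (relV K (HN B d)) = ⊤ := by
  unfold funB relV
  rw [eq_top_iff]
  refine le_iInf fun z => le_iInf fun x => le_iInf fun y => ?_
  rw [memB_HN, memB_HN]
  by_cases h1 : z ≠ d.o ∧ d.hd z = x
  · by_cases h2 : z ≠ d.o ∧ d.hd z = y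
    · rw [tv_pos (P := x = y) (h1.2.symm.trans h2.2)]
      simp
    · rw [tv_neg h2]
      simp
  · rw [tv_neg h1]
    simp

theorem funB_TN (d : PData K) : funB (relV K (TN B d)) = ⊤ := by
  unfold funB relV
  rw [eq_top_iff]
  refine le_iInf fun z => le_iInf fun x => le_iInf fun y => ?_
  rw [memB_TN, memB_TN]
  by_cases h1 : z ≠ d.o ∧ d.tl z = x
  · by_cases h2 : z ≠ d.o ∧ d.tl z = y
    · rw [tv_pos (P := x = y) (h1.2.symm.trans h2.2)]
      simp
    · rw [tv_neg h2]
      simp
  · rw [tv_neg h1]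
    simp

theorem isPairing_quot (U : UF B) (d : PData K) :
    IsPairingIn (EU U) (cls U (KB K B)) (cls U (kchk B d.o)) (cls U (HN B d)) (cls U (TN B d)) where
  o_mem := o_mem_quot U d
  fH := (Tv.funV (K := K) U (HN B d)).holds (funB_HN d)
  fT := (Tv.funV (K := K) U (TN B d)).holds (funB_TN d)
  surj := by
    have h : Tv U (⨅ x : K, ⨅ y : K, ⨆ z : K, (eqB (kchk B z) (kchk B d.o))ᶜ ⊓
        (memB (opair (kchk B z) (kchk B x)) (HN B d) ⊓
          memB (opair (kchk B z) (kchk B y)) (TN B d)))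
        (∀ x, EU U x (cls U (KB K B)) → ∀ y, EU U y (cls U (KB K B)) →
          ∃ z, EU U z (cls U (KB K B)) ∧ ¬ z = cls U (kchk B d.o) ∧
            Rel (EU U) z x (cls U (HN B d)) ∧ Rel (EU U) z y (cls U (TN B d))) := by
      refine Tv.allK (F := fun x => ⨅ y : K, ⨆ z : K, (eqB (kchk B z) (kchk B d.o))ᶜ ⊓
        (memB (opair (kchk B z) x) (HN B d) ⊓
          memB (opair (kchk B z) (kchk B y)) (TN B d))) ?_ fun x => ?_
      · exact E1_extB_iInf fun y => E1_extB_iSup fun z => E1_extB_inf (E1_extB_const _)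
          (E1_extB_inf (extB_pairR _ _) (E1_extB_const _))
      refine Tv.allK (F := fun y => ⨆ z : K, (eqB (kchk B z) (kchk B d.o))ᶜ ⊓
        (memB (opair (kchk B z) x) (HN B d) ⊓
          memB (opair (kchk B z) y) (TN B d))) ?_ fun y => ?_
      · exact E1_extB_iSup fun z => E1_extB_inf (E1_extB_const _)
          (E1_extB_inf (E1_extB_const _) (extB_pairR _ _))
      refine Tv.exK (F := fun z => (eqB z (kchk B d.o))ᶜ ⊓
        (memB (opair z x) (HN B d) ⊓ memB (opair z y) (TN B d))) ?_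
        fun z => (Tv.eq z _).not.and ((Tv.rel z x _).and (Tv.rel z y _))
      exact E1_extB_inf (E1_extB_compl (extB_eqB_left _))
        (E1_extB_inf (extB_pairL _ _) (extB_pairL _ _))
    refine h.holds ?_
    rw [eq_top_iff]
    refine le_iInf fun x => le_iInf fun y => ?_
    obtain ⟨z, hz, h1, h2⟩ := d.surj x y
    refine le_iSup_of_le z ?_
    rw [memB_HN, memB_TN, eqB_kchk_tv, tv_neg hz, tv_pos ⟨hz, h1⟩, tv_pos ⟨hz, h2⟩]
    simp

end Pool.Agent.H47Q
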