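import Pool.Agent.Lib.H47Q.Defs
import Pool.Agent.Lib.H30C.ZMA

/-!
# The principle `PhiIn` for types

`XPhi X` is the principle for a type `X`.
-/


set_option autoImplicit false

open Set Function Cardinal

namespace Pool.Agent.H47Q

open Pool.Agent.H5Z Pool.Agent.H30C

universe u

/-- the principle for a type `X` -/
structure XPhi (X : Type u) (o : X) (H T Z O : X → X → Prop) : Prop where
  fH : ∀ z x y, H z x → H z y → x = y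
  fT : ∀ z x y, T z x → T z y → x = y
  surj : ∀ x y, ∃ z, z ≠ o ∧ H z x ∧ T z y
  fin : ∀ p, {x | Z p x ∨ O p x}.Finite
  disj : ∀ p x, Z p x → ¬ O p x
  emp : ∃ p, ∀ x, ¬ Z p x ∧ ¬ O p x
  ext : ∀ p x, ¬ Z p x → ¬ O p x →
    (∃ q, ∀ y, (Z q y ↔ Z p y ∨ y = x) ∧ (O q y ↔ O p y)) ∧
    ∃ q, ∀ y, (Z q y ↔ Z p y) ∧ (O q y ↔ O p y ∨ y = x)
  desc : ∀ F : X → X → Prop, (∀ z x y, F z x → F z y → x = y) → ∃ Y : ℕ → Set X, ∀ n,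
    o ∈ Y n ∧ (∀ z x y, H z x → T z y → x ∈ Y n → y ∈ Y n → z ∈ Y n) ∧
    (∀ z x, F z x → z ∈ Y n → x ∈ Y n) ∧ ∀ m, n < m → Y m ⊆ Y n ∧ ∃ x ∈ Y n, x ∉ Y m
  coh : ∀ D : X → X → Prop,
    (∀ i p, ∃ q, D i q ∧ (∀ x, Z p x → Z q x) ∧ ∀ x, O p x → O q x) →
      ∃ c : Set X, ∀ i, ∃ q, D i q ∧ (∀ x, Z q x → x ∉ c) ∧ ∀ x, O q x → x ∈ c

end Pool.Agent.H47Q
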