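import Pool.Agent.Lib.H47Q.ZDefs

/-!
# Chunk ZEXT: from the universe of sets to types

* `xphi_of_in`: `PhiIn EZ` gives `XPhi (Elt Ω)` for some set `Ω`. Relations on `Elt Ω` and between `ℕ` and `Elt Ω`, and subsets of `Elt Ω` correspond to sets by
  `ZFSet.pairSep`, `ZFSet.sep` (see `exists_order` in `H30C/ZOm.lean` and `small_ma` in `H30C/ZMA.lean`); `relZ_iff`, `pair_pairSep`; the elements of `w` are the `zn n` (`isOmega_iff`),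
  and `zn n ∈ zn m ↔ n < m`.
-/

set_option autoImplicit false

open Set Function Cardinal

namespace Pool.Agent.H47Q

open Pool.Agent.H5Z Pool.Agent.H30C

universe u

theorem xphi_of_in (h : PhiIn EZ) : ∃ (Ω : ZFSet.{0}) (o : Elt Ω)
    (H T Z O : Elt Ω → Elt Ω → Prop), XPhi (Elt Ω) o H T Z O := by
  classical
  obtain ⟨w, Ω, o, H, T, Z, O, hw, hP, hC, hF, hD⟩ := h
  have hmem := isOmega_iff w hw
  refine ⟨Ω, ⟨o, hP.o_mem⟩, fun x y => Rel EZ x.1 y.1 H, fun x y => Rel EZ x.1 y.1 T,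
    fun x y => Rel EZ x.1 y.1 Z, fun x y => Rel EZ x.1 y.1 O, ?_⟩
  refine ⟨?_, ?_, ?_, ?_, ?_, ?_, ?_, ?_, ?_⟩
  · intro z x y h1 h2
    exact Subtype.ext (hP.fH z.1 z.2 x.1 x.2 y.1 y.2 h1 h2)
  · intro z x y h1 h2
    exact Subtype.ext (hP.fT z.1 z.2 x.1 x.2 y.1 y.2 h1 h2)
  · intro x y
    obtain ⟨z, hz, hne, h1, h2⟩ := hP.surj x.1 x.2 y.1 y.2
    exact ⟨⟨z, hz⟩, fun he => hne (congrArg Subtype.val he), h1, h2⟩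
  · intro p
    obtain ⟨n, hn, f, hf, hcov⟩ := hC.fin p.1 p.2
    obtain ⟨N, rfl⟩ := (hmem n).1 hn
    have hsub : {x : Elt Ω | Rel EZ p.1 x.1 Z ∨ Rel EZ p.1 x.1 O} ⊆
        ⋃ m ∈ Set.Iio N, {x : Elt Ω | Rel EZ (zn m) x.1 f} := by
      intro x hx
      obtain ⟨m, hm, hmn, hmx⟩ := hcov x.1 x.2 hx
      obtain ⟨k, rfl⟩ := (hmem m).1 hm
      exact mem_iUnion₂.2 ⟨k, (zn_mem_iff k N).1 hmn, hmx⟩
    refine Set.Finite.subset (Set.Finite.biUnion (Set.finite_Iio N) fun m _ => ?_) hsub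
    refine Set.Subsingleton.finite fun y hy z hz => ?_
    exact Subtype.ext (hf (zn m) ((hmem _).2 ⟨m, rfl⟩) y.1 y.2 z.1 z.2 hy hz)
  · intro p x h1 h2
    exact hC.disj p.1 p.2 x.1 x.2 h1 h2
  · obtain ⟨p, hp, h1⟩ := hC.emp
    exact ⟨⟨p, hp⟩, fun x => h1 x.1 x.2⟩
  · intro p x h1 h2
    obtain ⟨⟨q, hq, h3⟩, ⟨r, hr, h4⟩⟩ := hC.ext p.1 p.2 x.1 x.2 h1 h2
    refine ⟨⟨⟨q, hq⟩, fun y => ?_⟩, ⟨⟨r, hr⟩, fun y => ?_⟩⟩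
    · obtain ⟨h5, h6⟩ := h3 y.1 y.2
      exact ⟨⟨fun h => (h5.1 h).imp id (fun h => Subtype.ext h),
        fun h => h5.2 (h.imp id (fun h => congrArg Subtype.val h))⟩, h6⟩
    · obtain ⟨h5, h6⟩ := h4 y.1 y.2
      exact ⟨h5, ⟨fun h => (h6.1 h).imp id (fun h => Subtype.ext h),
        fun h => h6.2 (h.imp id (fun h => congrArg Subtype.val h))⟩⟩
  · intro F hFf
    have hFF : ∀ x y : Elt Ω, Rel EZ x.1 y.1 (ZFSet.pairSep (fun a b => ∃ (ha : a ∈ Ω)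
        (hb : b ∈ Ω), F ⟨a, ha⟩ ⟨b, hb⟩) Ω Ω) ↔ F x y := by
      intro x y
      rw [relZ_iff, pair_pairSep]
      exact ⟨fun h => h.2.2.2.2, fun h => ⟨x.2, y.2, x.2, y.2, h⟩⟩
    set FF := ZFSet.pairSep (fun a b => ∃ (ha : a ∈ Ω) (hb : b ∈ Ω), F ⟨a, ha⟩ ⟨b, hb⟩) Ω Ω
      with hFFd
    obtain ⟨X, hX⟩ := hF FF (by
      intro z hz x hx y hy h1 h2
      have := hFf ⟨z, hz⟩ ⟨x, hx⟩ ⟨y, hy⟩ ((hFF ⟨z, hz⟩ ⟨x, hx⟩).1 h1)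
        ((hFF ⟨z, hz⟩ ⟨y, hy⟩).1 h2)
      exact congrArg Subtype.val this)
    refine ⟨fun n => {x : Elt Ω | Rel EZ (zn n) x.1 X}, fun n => ?_⟩
    obtain ⟨h1, h2, h3, h4⟩ := hX (zn n) ((hmem _).2 ⟨n, rfl⟩)
    refine ⟨h1, ?_, ?_, ?_⟩
    · intro z x y h5 h6 h7 h8
      exact h2 z.1 z.2 x.1 x.2 y.1 y.2 h5 h6 h7 h8
    · intro z x h5 h6
      exact h3 z.1 z.2 x.1 x.2 ((hFF z x).2 h5) h6
    · intro m hm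
      obtain ⟨h5, x, hx, h6, h7⟩ := h4 (zn m) ((hmem _).2 ⟨m, rfl⟩) ((zn_mem_iff n m).2 hm)
      exact ⟨fun x hx => h5 x.1 x.2 hx, ⟨x, hx⟩, h6, h7⟩
  · intro D hDd
    have hDD : ∀ x y : Elt Ω, Rel EZ x.1 y.1 (ZFSet.pairSep (fun a b => ∃ (ha : a ∈ Ω)
        (hb : b ∈ Ω), D ⟨a, ha⟩ ⟨b, hb⟩) Ω Ω) ↔ D x y := by
      intro x y
      rw [relZ_iff, pair_pairSep]
      exact ⟨fun h => h.2.2.2.2, fun h => ⟨x.2, y.2, x.2, y.2, h⟩⟩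
    set DD := ZFSet.pairSep (fun a b => ∃ (ha : a ∈ Ω) (hb : b ∈ Ω), D ⟨a, ha⟩ ⟨b, hb⟩) Ω Ω
      with hDDd
    obtain ⟨c, hc⟩ := hD DD (by
      intro i hi p hp
      obtain ⟨q, hq, h1, h2⟩ := hDd ⟨i, hi⟩ ⟨p, hp⟩
      exact ⟨q.1, q.2, (hDD ⟨i, hi⟩ q).2 hq, fun x hx => h1 ⟨x, hx⟩, fun x hx => h2 ⟨x, hx⟩⟩)
    refine ⟨{x : Elt Ω | x.1 ∈ c}, fun i => ?_⟩
    obtain ⟨q, hq, h1, h2, h3⟩ := hc i.1 i.2
    exact ⟨⟨q, hq⟩, (hDD i ⟨q, hq⟩).1 h1, fun x hx => h2 x.1 x.2 hx, fun x hx => h3 x.1 x.2 hx⟩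

end Pool.Agent.H47Q
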